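import Pool.Agent.Lib.MP_2d96d7_co.Poly.Ramsey

set_option autoImplicit false

/-!
Polynomial graph-codes: a homogeneous block whose size has binomial coefficients divisible by `m`
is invisible.
-/

namespace Pool.Agent.Lib.MP_2d96d7_co.Poly

open Finset

/-- A bijection between two subsets of the same size extends to a permutation which fixes the
complement of `B` and is increasing on the first subset. -/
lemma exists_perm (B A A' : Finset ℕ) (hA : A ⊆ B) (hA' : A' ⊆ B) (hc : A.card = A'.card) :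
    ∃ σ : Equiv.Perm ℕ, (∀ v, v ∉ B → σ v = v) ∧ A.image σ = A' ∧ StrictMonoOn σ A := by
  classical
  set E0 : {x // x ∈ A} ≃ {x // x ∈ A'} :=
    ((A.orderIsoOfFin hc).symm.trans (A'.orderIsoOfFin rfl)).toEquiv with hE0
  set E1 : {b : {x // x ∈ B} // b.1 ∈ A} ≃ {b : {x // x ∈ B} // b.1 ∈ A'} :=
    (Equiv.subtypeSubtypeEquivSubtype (p := fun x => x ∈ B) (q := fun x => x ∈ A)
      (fun {x} hx => hA hx)).trans (E0.trans
      (Equiv.subtypeSubtypeEquivSubtype (p := fun x => x ∈ B) (q := fun x => x ∈ A')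
        (fun {x} hx => hA' hx)).symm) with hE1
  set τ : Equiv.Perm {x // x ∈ B} := E1.extendSubtype with hτ
  have hτ1 : ∀ v (hv : v ∈ A), ((τ ⟨v, hA hv⟩ : {x // x ∈ B}) : ℕ) = (E0 ⟨v, hv⟩ : ℕ) := by
    intro v hv
    have h1 := E1.extendSubtype_apply_of_mem ⟨v, hA hv⟩ hv
    rw [hτ, h1, hE1]
    rfl
  set σ : Equiv.Perm ℕ := Equiv.Perm.ofSubtype τ with hσ
  have hσ1 : ∀ v, v ∉ B → σ v = v := fun v hv => Equiv.Perm.ofSubtype_apply_of_not_mem τ hv
  have hσ2 : ∀ v (hv : v ∈ A), σ v = (E0 ⟨v, hv⟩ : ℕ) := by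
    intro v hv
    rw [hσ, Equiv.Perm.ofSubtype_apply_of_mem τ (hA hv), hτ1 v hv]
  have hmono : StrictMonoOn σ A := by
    intro a ha b hb hab
    rw [hσ2 a ha, hσ2 b hb]
    have : E0 ⟨a, ha⟩ < E0 ⟨b, hb⟩ := by
      show ((A.orderIsoOfFin hc).symm.trans (A'.orderIsoOfFin rfl)) ⟨a, ha⟩ <
        ((A.orderIsoOfFin hc).symm.trans (A'.orderIsoOfFin rfl)) ⟨b, hb⟩
      rw [OrderIso.lt_iff_lt]
      exact hab
    exact this
  refine ⟨σ, hσ1, ?_, hmono⟩
  refine Finset.eq_of_subset_of_card_le ?_ ?_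
  · intro x hx
    obtain ⟨v, hv, rfl⟩ := Finset.mem_image.1 hx
    rw [hσ2 v hv]
    exact (E0 ⟨v, hv⟩).2
  · rw [Finset.card_image_of_injective _ σ.injective, hc]

/-- the part of the vertex set of `F` inside `B` -/
def tr (B : Finset ℕ) (F : Finset (Sym2 ℕ)) : Finset ℕ := (VF F).filter fun v => v ∈ B

lemma mem_tr {B : Finset ℕ} {F : Finset (Sym2 ℕ)} {v : ℕ} : v ∈ tr B F ↔ v ∈ VS F ∧ v ∈ B := by
  simp [tr, mem_VF]

lemma VS_image {F : Finset (Sym2 ℕ)} {g : ℕ → ℕ} {v : ℕ} :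
    v ∈ VS (F.image (Sym2.map g)) ↔ ∃ u ∈ VS F, g u = v := by
  constructor
  · rintro ⟨z, hz, hv⟩
    obtain ⟨y, hy, rfl⟩ := Finset.mem_image.1 hz
    obtain ⟨u, hu, rfl⟩ := Sym2.mem_map.1 hv
    exact ⟨u, ⟨y, hy, hu⟩, rfl⟩
  · rintro ⟨u, ⟨z, hz, hu⟩, rfl⟩
    exact ⟨_, Finset.mem_image_of_mem _ hz, Sym2.mem_map.2 ⟨u, hu, rfl⟩⟩

/-- Removal of an invisible block. -/
theorem block {A : Type*} [AddCommGroup A] {M d m N : ℕ} {c : Finset (Sym2 ℕ) → A}
    (hA : ∀ a : A, m • a = 0) (hN : ∀ i, 1 ≤ i → i ≤ 2 * d → m ∣ N.choose i)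
    (hc : Homog M d c) (hd : ∀ F, d < F.card → c F = 0) (X : Finset (Sym2 ℕ)) (B : Finset ℕ)
    (hXM : ∀ v ∈ VS X, v < M) (hBM : ∀ v ∈ B, v < M) (hB : B.card = N)
    (hconv : ∀ v ∈ VS X, v ∉ B → (∀ b ∈ B, v < b) ∨ (∀ b ∈ B, b < v))
    (haut : ∀ σ : Equiv.Perm ℕ, (∀ v, v ∉ B → σ v = v) → X.image (Sym2.map σ) ⊆ X)
    (Y : Finset (Sym2 ℕ)) (hY : ∀ z, z ∈ Y ↔ z ∈ X ∧ ∀ v ∈ z, v ∉ B) :
    ∑ F ∈ X.powerset, c F = ∑ F ∈ Y.powerset, c F := by
  classical
  set γ : Finset ℕ → A := fun T => ∑ F ∈ X.powerset with tr B F = T, c F with hγ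
  have h0 : ∑ F ∈ X.powerset, c F = ∑ T ∈ B.powerset, γ T := by
    rw [hγ, Finset.sum_fiberwise_of_maps_to]
    intro F _
    rw [Finset.mem_powerset]
    intro v hv
    exact (mem_tr.1 hv).2
  -- a permutation of `B` carries the sum over traces `T` to the sum over traces `T'`
  have hstep : ∀ T T' : Finset ℕ, T ⊆ B → T' ⊆ B → T.card = T'.card → γ T = γ T' := by
    intro T T' hT hT' hcard
    obtain ⟨σ, hσ1, hσ2, hσ3⟩ := exists_perm B T T' hT hT' hcard
    have hσB : ∀ v, v ∈ B → σ v ∈ B := by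
      intro v hv
      by_contra h
      have h1 := hσ1 _ h
      have h2 : σ v = v := σ.injective h1
      rw [h2] at h
      exact h hv
    have hσ1' : ∀ v, v ∉ B → σ.symm v = v := fun v hv => by
      rw [Equiv.symm_apply_eq]; exact (hσ1 v hv).symm
    have hinv : ∀ F : Finset (Sym2 ℕ), (F.image (Sym2.map σ)).image (Sym2.map σ.symm) = F := by
      intro F
      rw [image_map_map]
      have : (σ.symm ∘ σ : ℕ → ℕ) = id := by funext v; simp
      rw [this]
      simp
    have hinv' : ∀ F : Finset (Sym2 ℕ), (F.image (Sym2.map σ.symm)).image (Sym2.map σ) = F := by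
      intro F
      rw [image_map_map]
      have : (σ ∘ σ.symm : ℕ → ℕ) = id := by funext v; simp
      rw [this]
      simp
    have htr : ∀ F : Finset (Sym2 ℕ), tr B (F.image (Sym2.map σ)) = (tr B F).image σ := by
      intro F
      ext v
      rw [mem_tr, VS_image, Finset.mem_image]
      constructor
      · rintro ⟨⟨u, hu, rfl⟩, hv⟩
        refine ⟨u, mem_tr.2 ⟨hu, ?_⟩, rfl⟩
        by_contra h
        rw [hσ1 u h] at hv
        exact h hv
      · rintro ⟨u, hu, rfl⟩
        exact ⟨⟨u, (mem_tr.1 hu).1, rfl⟩, hσB u (mem_tr.1 hu).2⟩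
    refine Finset.sum_nbij' (fun F => F.image (Sym2.map σ)) (fun F => F.image (Sym2.map σ.symm))
      ?_ ?_ (fun F _ => hinv F) (fun F _ => hinv' F) ?_
    · intro F hF
      rw [Finset.mem_filter, Finset.mem_powerset] at hF ⊢
      refine ⟨(Finset.image_subset_image hF.1).trans (haut σ hσ1), ?_⟩
      rw [htr, hF.2, hσ2]
    · intro F hF
      rw [Finset.mem_filter, Finset.mem_powerset] at hF ⊢
      refine ⟨(Finset.image_subset_image hF.1).trans (haut σ.symm hσ1'), ?_⟩
      have h1 := htr (F.image (Sym2.map σ.symm))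
      rw [hinv', hF.2, ← hσ2] at h1
      exact (Finset.image_injective σ.injective h1).symm
    · intro F hF
      rw [Finset.mem_filter, Finset.mem_powerset] at hF
      by_cases hFd : F.card ≤ d
      · symm
        refine hc F (fun v hv => ?_) hFd σ ?_ ?_
        · obtain ⟨z, hz, hvz⟩ := hv
          exact hXM v ⟨z, hF.1 hz, hvz⟩
        · -- monotone
          have hcv : ∀ v ∈ VS F, v ∉ B → (∀ b ∈ B, v < b) ∨ (∀ b ∈ B, b < v) := by
            rintro v ⟨z, hz, hvz⟩ hvB
            exact hconv v ⟨z, hF.1 hz, hvz⟩ hvB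
          intro a ha b hb hab
          by_cases haB : a ∈ B
          · by_cases hbB : b ∈ B
            · have haT : a ∈ T := by rw [← hF.2]; exact mem_tr.2 ⟨ha, haB⟩
              have hbT : b ∈ T := by rw [← hF.2]; exact mem_tr.2 ⟨hb, hbB⟩
              exact hσ3 haT hbT hab
            · rw [hσ1 b hbB]
              rcases hcv b hb hbB with h | h
              · have := h a haB
                omega
              · exact h _ (hσB a haB)
          · rw [hσ1 a haB]
            by_cases hbB : b ∈ B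
            · rcases hcv a ha haB with h | h
              · exact h _ (hσB b hbB)
              · have := h b hbB
                omega
            · rw [hσ1 b hbB]
              exact hab
        · intro v hv
          obtain ⟨z, hz, hvz⟩ := hv
          by_cases hvB : v ∈ B
          · exact hBM _ (hσB v hvB)
          · rw [hσ1 v hvB]
            exact hXM v ⟨z, hF.1 hz, hvz⟩
      · rw [hd F (by omega), hd _ ?_]
        rw [Finset.card_image_of_injective _ (Sym2.map.injective σ.injective)]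
        omega
  -- the sum depends on the size only
  set γ' : ℕ → A := fun i => if h : ∃ T ⊆ B, T.card = i then γ h.choose else 0 with hγ'
  have h1 : ∀ T ∈ B.powerset, γ T = γ' T.card := by
    intro T hT
    rw [Finset.mem_powerset] at hT
    have h : ∃ T' ⊆ B, T'.card = T.card := ⟨T, hT, rfl⟩
    simp only [hγ', dif_pos h]
    exact hstep T _ hT h.choose_spec.1 h.choose_spec.2.symm
  rw [h0, Finset.sum_congr rfl h1, Finset.sum_powerset_apply_card, hB]
  have h2 : ∀ i ∈ Finset.range (N + 1), i ≠ 0 → N.choose i • γ' i = 0 := by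
    intro i hi hi0
    rw [Finset.mem_range] at hi
    by_cases h2d : i ≤ 2 * d
    · obtain ⟨k, hk⟩ := hN i (by omega) h2d
      rw [hk, mul_comm, mul_nsmul, hA]
    · have hex : ∃ T ⊆ B, T.card = i := by
        obtain ⟨T, hT, hTc⟩ := Finset.exists_subset_card_eq (s := B) (n := i) (by omega)
        exact ⟨T, hT, hTc⟩
      have h3 : γ' i = 0 := by
        simp only [hγ', dif_pos hex]
        rw [hγ]
        refine Finset.sum_eq_zero fun F hF => hd F ?_
        rw [Finset.mem_filter] at hF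
        have h4 := hex.choose_spec.2
        have h5 : (tr B F).card ≤ 2 * F.card := (Finset.card_filter_le _ _).trans (VF_card F)
        rw [hF.2, h4] at h5
        omega
      rw [h3, nsmul_zero]
  rw [Finset.sum_eq_single_of_mem 0 (by simp) h2, Nat.choose_zero_right, one_nsmul]
  have h6 : γ' 0 = γ ∅ := by
    rw [h1 ∅ (by simp)]
    rfl
  rw [h6, hγ]
  refine Finset.sum_congr ?_ fun _ _ => rfl
  ext F
  rw [Finset.mem_filter, Finset.mem_powerset, Finset.mem_powerset]
  constructor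
  · rintro ⟨h, h'⟩ z hz
    rw [hY]
    refine ⟨h hz, fun v hv hvB => ?_⟩
    have : v ∈ tr B F := mem_tr.2 ⟨⟨z, hz, hv⟩, hvB⟩
    rw [h'] at this
    simp at this
  · intro h
    refine ⟨fun z hz => ((hY z).1 (h hz)).1, ?_⟩
    rw [Finset.eq_empty_iff_forall_notMem]
    intro v hv
    obtain ⟨⟨z, hz, hvz⟩, hvB⟩ := mem_tr.1 hv
    exact ((hY z).1 (h hz)).2 v hvz hvB

/-- A set of edges in which the vertices of `B` play the same role is invariant under the
permutations of `B`. -/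
lemma image_subset_of_homog {X : Finset (Sym2 ℕ)} {B : Finset ℕ}
    (hdiag : ∀ z ∈ X, ¬ z.IsDiag)
    (h1 : ∀ v, v ∉ B → ∀ b ∈ B, ∀ b' ∈ B, s(v, b) ∈ X → s(v, b') ∈ X)
    (h2 : ∀ a ∈ B, ∀ b ∈ B, ∀ a' ∈ B, ∀ b' ∈ B, a' ≠ b' → s(a, b) ∈ X → s(a', b') ∈ X)
    (σ : Equiv.Perm ℕ) (hσ : ∀ v, v ∉ B → σ v = v) : X.image (Sym2.map σ) ⊆ X := by
  have hσB : ∀ v, v ∈ B → σ v ∈ B := by
    intro v hv
    by_contra h
    have h1 := hσ _ h
    have h2 : σ v = v := σ.injective h1
    rw [h2] at h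
    exact h hv
  intro z hz
  obtain ⟨y, hy, rfl⟩ := Finset.mem_image.1 hz
  induction y with
  | _ a b =>
    have hab : a ≠ b := by simpa using hdiag _ hy
    rw [Sym2.map_mk]
    by_cases ha : a ∈ B
    · by_cases hb : b ∈ B
      · exact h2 a ha b hb _ (hσB a ha) _ (hσB b hb) (fun h => hab (σ.injective h)) hy
      · rw [hσ b hb, Sym2.eq_swap]
        rw [Sym2.eq_swap] at hy
        exact h1 b hb a ha _ (hσB a ha) hy
    · rw [hσ a ha]
      by_cases hb : b ∈ B
      · exact h1 a ha b hb _ (hσB b hb) hy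
      · rw [hσ b hb]
        exact hy

end Pool.Agent.Lib.MP_2d96d7_co.Poly
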