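import Pool.Agent.Lib.MP_2d96d7_co.Poly.Few

set_option autoImplicit false

/-!
Colourings of a finite set and the numbers modulo `q` of the elements of a subset in the colour
classes; conditions on subsets that depend on these numbers, on few elements and on a form.
-/

namespace Pool.Agent.Lib.MP_2d96d7_co.Poly

open Finset

section Cnt

variable {ι : Type}

open Classical in
/-- the numbers modulo `q` of the elements of `x` in the colour classes of `κ` -/
noncomputable def cnt {K : Type} (q : ℕ) (κ : ι → K) (x : Finset ι) : K → ZMod q :=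
  fun c => ((x.filter fun e => κ e = c).card : ZMod q)

lemma nsmul_eq_of_cast {M : Type} [AddCommMonoid M] {q n n' : ℕ} {m : M} (hm : q • m = 0)
    (h : (n : ZMod q) = n') : n • m = n' • m := by
  have h1 : n % q = n' % q := (ZMod.natCast_eq_natCast_iff' n n' q).1 h
  have h2 : ∀ n : ℕ, n • m = (n % q) • m := by
    intro n
    conv_lhs => rw [← Nat.div_add_mod n q]
    rw [add_nsmul, mul_comm, mul_nsmul', hm, nsmul_zero, zero_add]
  rw [h2 n, h2 n', h1]

lemma sum_of_cnt {K M : Type} [Fintype K] [AddCommMonoid M] {q : ℕ} {κ : ι → K} {x x' : Finset ι}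
    (h : cnt q κ x = cnt q κ x') (f : K → M) (hf : ∀ c, q • f c = 0) :
    ∑ e ∈ x, f (κ e) = ∑ e ∈ x', f (κ e) := by
  classical
  have h1 : ∀ x : Finset ι, ∑ e ∈ x, f (κ e) = ∑ c : K, (x.filter fun e => κ e = c).card • f c := by
    intro x
    rw [← Finset.sum_fiberwise x κ fun e => f (κ e)]
    refine Finset.sum_congr rfl fun c _ => ?_
    rw [Finset.sum_congr rfl fun e he => by rw [(Finset.mem_filter.1 he).2], Finset.sum_const]
  rw [h1 x, h1 x']
  refine Finset.sum_congr rfl fun c _ => nsmul_eq_of_cast (hf c) ?_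
  have h2 := congrFun h c
  unfold cnt at h2
  convert h2

lemma cnt_eq_sum {K : Type} [DecidableEq K] (q : ℕ) (κ : ι → K) (x : Finset ι) (c : K) :
    cnt q κ x c = ∑ e ∈ x, if κ e = c then (1 : ZMod q) else 0 := by
  unfold cnt
  rw [Finset.sum_boole]
  congr

lemma zmod_nsmul (q : ℕ) (a : ZMod q) : q • a = 0 := by
  rw [nsmul_eq_mul, ZMod.natCast_self, zero_mul]

lemma cnt_refine {K K' : Type} [Fintype K'] {q : ℕ} {κ : ι → K} {κ' : ι → K'} {x x' : Finset ι}
    (g : K' → K) (hg : ∀ e, κ e = g (κ' e)) (h : cnt q κ' x = cnt q κ' x') :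
    cnt q κ x = cnt q κ x' := by
  classical
  funext c
  rw [cnt_eq_sum, cnt_eq_sum]
  have h1 := sum_of_cnt h (fun c' => if g c' = c then (1 : ZMod q) else 0) fun c' => zmod_nsmul q _
  simp only [← hg] at h1
  exact h1

lemma mem_of_cnt {K : Type} {q : ℕ} (hq : 2 ≤ q) {κ : ι → K} {x x' : Finset ι} {e₀ : ι}
    (hu : ∀ e, κ e = κ e₀ → e = e₀) (h : cnt q κ x = cnt q κ x') : e₀ ∈ x ↔ e₀ ∈ x' := by
  classical
  have : Fact (1 < q) := ⟨hq⟩
  have h1 : ∀ x : Finset ι, cnt q κ x (κ e₀) = if e₀ ∈ x then (1 : ZMod q) else 0 := by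
    intro x
    rw [cnt_eq_sum]
    have h2 : ∀ e, (if κ e = κ e₀ then (1 : ZMod q) else 0) = if e = e₀ then 1 else 0 := by
      intro e
      by_cases h3 : e = e₀
      · rw [h3, if_pos rfl, if_pos rfl]
      · rw [if_neg h3, if_neg fun h4 => h3 (hu e h4)]
    rw [Finset.sum_congr rfl fun e _ => h2 e, Finset.sum_ite_eq']
  have h2 := congrFun h (κ e₀)
  rw [h1, h1] at h2
  by_cases h3 : e₀ ∈ x <;> by_cases h4 : e₀ ∈ x' <;> simp_all

end Cnt

section DepSec

variable {A : Type} [AddCommGroup A] {ι : Type} [DecidableEq ι]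

/-- the condition `C` depends only on the colour counts, on at most `t` elements and on a form with
values in `B` -/
def Dep {K : Type} (q : ℕ) (κ : ι → K) (B : AddSubgroup A) (t : ℕ) (C : Set (Finset ι)) : Prop :=
  ∃ θ : ι → A, (∀ e, θ e ∈ B) ∧ ∃ X : Finset ι, X.card ≤ t ∧ ∀ x x' : Finset ι,
    cnt q κ x = cnt q κ x' → x ∩ X = x' ∩ X → ∑ e ∈ x, θ e = ∑ e ∈ x', θ e → x ∈ C → x' ∈ C

/-- first reduction: some of the few elements are determined by the colouring -/
lemma dep_one {K K' : Type} {q t : ℕ} {κ : ι → K} {κ' : ι → K'} {B : AddSubgroup A}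
    {C : Set (Finset ι)} {θ : ι → A} (hθ : ∀ e, θ e ∈ B) {X W : Finset ι} (hX : X.card ≤ t)
    (hdep : ∀ x x' : Finset ι, cnt q κ x = cnt q κ x' → x ∩ X = x' ∩ X →
      ∑ e ∈ x, θ e = ∑ e ∈ x', θ e → x ∈ C → x' ∈ C) (hXW : ¬ Disjoint X W)
    (hκ : ∀ x x' : Finset ι, cnt q κ' x = cnt q κ' x' → cnt q κ x = cnt q κ x')
    (hW : ∀ x x' : Finset ι, cnt q κ' x = cnt q κ' x' → ∀ e ∈ W, (e ∈ x ↔ e ∈ x'))
    (β : K → ZMod q) :
    1 ≤ t ∧ Dep q κ' B (t - 1) (C ∪ {x | cnt q κ x ≠ β}) := by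
  rw [Finset.not_disjoint_iff] at hXW
  obtain ⟨e₀, h1, h2⟩ := hXW
  have h3 : 1 ≤ X.card := Finset.card_pos.2 ⟨e₀, h1⟩
  have h4 : (X \ W).card < X.card := by
    refine Finset.card_lt_card ⟨Finset.sdiff_subset, fun h => ?_⟩
    exact (Finset.mem_sdiff.1 (h h1)).2 h2
  refine ⟨by omega, θ, hθ, X \ W, by omega, fun x x' hc hxx hs hx => ?_⟩
  by_cases h5 : cnt q κ x' = β
  · left
    have h6 : cnt q κ x = cnt q κ x' := hκ x x' hc
    rcases hx with hx | hx
    · refine hdep x x' h6 ?_ hs hx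
      ext e
      by_cases h7 : e ∈ W
      · rw [Finset.mem_inter, Finset.mem_inter, hW x x' hc e h7]
      · have h8 : e ∈ x ∩ (X \ W) ↔ e ∈ x' ∩ (X \ W) := by rw [hxx]
        rw [Finset.mem_inter, Finset.mem_inter, Finset.mem_sdiff] at h8
        rw [Finset.mem_inter, Finset.mem_inter]
        tauto
    · exact absurd (h6.trans h5) hx
  · right
    exact h5

/-- the subgroup of `B` on which a character is trivial -/
def kerIn (B : AddSubgroup A) (ψ : AddChar A ℂ) : AddSubgroup A where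
  carrier := {b | b ∈ B ∧ ψ b = 1}
  zero_mem' := ⟨B.zero_mem, ψ.map_zero_eq_one⟩
  add_mem' := by
    rintro a b ⟨ha, ha'⟩ ⟨hb, hb'⟩
    exact ⟨B.add_mem ha hb, by rw [AddChar.map_add_eq_mul, ha', hb', mul_one]⟩
  neg_mem' := by
    rintro a ⟨ha, ha'⟩
    refine ⟨B.neg_mem ha, ?_⟩
    have h1 : ψ (-a) * ψ a = 1 := by
      rw [← AddChar.map_add_eq_mul, neg_add_cancel, AddChar.map_zero_eq_one]
    rwa [ha', mul_one] at h1

lemma mem_kerIn {B : AddSubgroup A} {ψ : AddChar A ℂ} {b : A} :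
    b ∈ kerIn B ψ ↔ b ∈ B ∧ ψ b = 1 := Iff.rfl

lemma card_kerIn_lt [Finite A] {B : AddSubgroup A} {ψ : AddChar A ℂ} (h : ∃ b ∈ B, ψ b ≠ 1) :
    Nat.card (kerIn B ψ) < Nat.card B := by
  obtain ⟨b, hb, hb'⟩ := h
  have h1 : ((kerIn B ψ : Set A)) ⊂ (B : Set A) :=
    ⟨fun a ha => ha.1, fun hsub => hb' (hsub hb).2⟩
  exact Set.ncard_lt_ncard h1 (Set.toFinite _)

/-- second reduction: a character of the form is determined by the colouring outside a small set -/
lemma dep_two [Finite A] {K K' : Type} [Fintype K'] {q t R : ℕ} (hq : ∀ a : A, q • a = 0) {κ : ι → K}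
    {κ' : ι → K'} {B : AddSubgroup A} {C : Set (Finset ι)} {θ : ι → A} (hθ : ∀ e, θ e ∈ B)
    {X Z : Finset ι} (hX : X.card ≤ t) (hZ : Z.card ≤ R)
    (hdep : ∀ x x' : Finset ι, cnt q κ x = cnt q κ x' → x ∩ X = x' ∩ X →
      ∑ e ∈ x, θ e = ∑ e ∈ x', θ e → x ∈ C → x' ∈ C)
    (hκ : ∀ x x' : Finset ι, cnt q κ' x = cnt q κ' x' → cnt q κ x = cnt q κ x')
    (ψ : AddChar A ℂ) (hψ : ∀ e e', e ∉ Z → e' ∉ Z → κ' e = κ' e' → ψ (θ e) = ψ (θ e'))
    (β : K → ZMod q) :
    Dep q κ' (kerIn B ψ) (t + R) (C ∪ {x | cnt q κ x ≠ β}) := by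
  classical
  set ρ : K' → A := fun c => if h : ∃ e, e ∉ Z ∧ κ' e = c then θ h.choose else 0 with hρ
  have hρ1 : ∀ e, e ∉ Z → θ e - ρ (κ' e) ∈ kerIn B ψ := by
    intro e he
    have h : ∃ e', e' ∉ Z ∧ κ' e' = κ' e := ⟨e, he, rfl⟩
    have h1 : ρ (κ' e) = θ h.choose := by
      simp only [hρ]
      rw [dif_pos h]
    have h2 := h.choose_spec
    rw [h1, mem_kerIn]
    refine ⟨B.sub_mem (hθ _) (hθ _), ?_⟩
    have h3 : ψ (θ e) = ψ (θ h.choose) := hψ _ _ he h2.1 h2.2.symm
    rw [AddChar.map_sub_eq_div, h3]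
    refine div_self ?_
    intro h4
    have h5 := AddChar.norm_apply ψ (θ h.choose)
    rw [h4, norm_zero] at h5
    exact zero_ne_one h5
  refine ⟨fun e => if e ∈ Z then 0 else θ e - ρ (κ' e), fun e => ?_, X ∪ Z, ?_, ?_⟩
  · beta_reduce
    split_ifs with h
    · exact (kerIn B ψ).zero_mem
    · exact hρ1 e h
  · exact (Finset.card_union_le _ _).trans (Nat.add_le_add hX hZ)
  · intro x x' hc hxx hs hx
    by_cases h5 : cnt q κ x' = β
    · left
      have h6 : cnt q κ x = cnt q κ x' := hκ x x' hc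
      rcases hx with hx | hx
      · refine hdep x x' h6 ?_ ?_ hx
        · ext e
          have h8 : e ∈ x ∩ (X ∪ Z) ↔ e ∈ x' ∩ (X ∪ Z) := by rw [hxx]
          rw [Finset.mem_inter, Finset.mem_inter, Finset.mem_union] at h8
          rw [Finset.mem_inter, Finset.mem_inter]
          tauto
        · have h7 : ∀ e, θ e = (if e ∈ Z then 0 else θ e - ρ (κ' e)) + ρ (κ' e) +
              (if e ∈ Z then θ e - ρ (κ' e) else 0) := by
            intro e
            split_ifs <;> abel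
          have h8 : ∀ x : Finset ι, ∑ e ∈ x, θ e =
              ∑ e ∈ x, (if e ∈ Z then 0 else θ e - ρ (κ' e)) + ∑ e ∈ x, ρ (κ' e) +
              ∑ e ∈ x, (if e ∈ Z then θ e - ρ (κ' e) else 0) := by
            intro x
            rw [← Finset.sum_add_distrib, ← Finset.sum_add_distrib]
            exact Finset.sum_congr rfl fun e _ => h7 e
          have h9 : ∀ x : Finset ι, ∑ e ∈ x, (if e ∈ Z then θ e - ρ (κ' e) else 0) =
              ∑ e ∈ (x ∩ (X ∪ Z)).filter (fun e => e ∈ Z), (θ e - ρ (κ' e)) := by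
            intro x
            rw [← Finset.sum_filter]
            refine Finset.sum_congr ?_ fun _ _ => rfl
            ext e
            simp only [Finset.mem_filter, Finset.mem_inter, Finset.mem_union]
            tauto
          rw [h8 x, h8 x', hs, sum_of_cnt hc ρ fun c => hq _, h9 x, h9 x', hxx]
      · exact absurd (h6.trans h5) hx
    · right
      exact h5

end DepSec

end Pool.Agent.Lib.MP_2d96d7_co.Poly
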