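import Pool.Agent.Lib.MP_2d96d7_co.Poly.Colour

set_option autoImplicit false

/-!
Inner approximation: a family of subsets of a finite set that satisfies any number of conditions,
each of which depends on few elements and on a form with values in a finite abelian group, contains
almost all of itself in a union of classes of a colouring with boundedly many colours.
-/

namespace Pool.Agent.Lib.MP_2d96d7_co.Poly

open Finset

/-- inner approximation of the intersection of the family `𝓒` up to density `ε` by classes of a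
colouring with `s'` colours -/
def Inn (q : ℕ) (ε : ℝ) (s' : ℕ) {ι : Type} [Fintype ι] (𝓒 : Set (Set (Finset ι))) : Prop :=
  ∃ (κ' : ι → Fin s') (U : Set (Finset ι)),
    (∀ x x', cnt q κ' x = cnt q κ' x' → x ∈ U → x' ∈ U) ∧ (∀ x ∈ U, ∀ C ∈ 𝓒, x ∈ C) ∧
    (({x | (∀ C ∈ 𝓒, x ∈ C) ∧ x ∉ U} : Set (Finset ι)).ncard : ℝ) ≤ ε * 2 ^ Fintype.card ι

/-- conditions of type `(a, t)` can be approximated from inside -/
def IA (A : Type) [AddCommGroup A] (q a t : ℕ) : Prop :=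
  ∀ (s : ℕ) (ε : ℝ), 0 < ε → ∃ s' : ℕ, ∀ (ι : Type) [Fintype ι] [DecidableEq ι] (κ : ι → Fin s)
    (𝓒 : Set (Set (Finset ι))),
    (∀ C ∈ 𝓒, ∃ B : AddSubgroup A, Nat.card B ≤ a ∧ Dep q κ B t C) → Inn q ε s' 𝓒

lemma inn_empty (q : ℕ) {ε : ℝ} (hε : 0 < ε) {ι : Type} [Fintype ι] (𝓒 : Set (Set (Finset ι)))
    (h : ∀ C, C ∉ 𝓒) : Inn q ε 1 𝓒 := by
  refine ⟨fun _ => 0, Set.univ, fun _ _ _ _ => Set.mem_univ _, fun _ _ C hC => absurd hC (h C), ?_⟩
  have h1 : ({x | (∀ C ∈ 𝓒, x ∈ C) ∧ x ∉ (Set.univ : Set (Finset ι))} : Set (Finset ι)) = ∅ := by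
    ext x
    simp
  rw [h1, Set.ncard_empty]
  push_cast
  positivity

/-- the inductive step -/
theorem step (A : Type) [AddCommGroup A] [Fintype A] (q : ℕ) (hq2 : 2 ≤ q)
    (hq : ∀ a : A, q • a = 0) (a t : ℕ) (h1 : 1 ≤ t → IA A q a (t - 1))
    (h2 : 2 ≤ a → ∀ T, IA A q (a - 1) T) : IA A q a t := by
  classical
  intro s ε hε
  have : NeZero q := ⟨by omega⟩
  obtain ⟨κ₀, hκ0, hκ1, hκ⟩ := exists_kap q (by omega)
  have hA1 : (1 : ℝ) ≤ Fintype.card A := by exact_mod_cast Fintype.card_pos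
  have hA0 : (0 : ℝ) < Fintype.card A := by linarith
  set Γ := (Fin s → ZMod q) with hΓ
  have hΓpos : (0 : ℝ) < Fintype.card Γ := by exact_mod_cast Fintype.card_pos
  have hρ1 : (1 : ℝ) - 1 / Fintype.card A / 2 ^ t < 1 := by
    have : (0 : ℝ) < 1 / Fintype.card A / 2 ^ t := by positivity
    linarith
  obtain ⟨k₀, hk₀⟩ := exists_pow_lt_of_lt_one
    (show (0 : ℝ) < ε / (4 * Fintype.card Γ) by positivity) hρ1
  obtain ⟨R₀, hR₀⟩ := exists_pow_lt_of_lt_one
    (show (0 : ℝ) < ε / (4 * Fintype.card Γ) / Fintype.card A ^ k₀ by positivity) hκ1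
  set R := R₀ + k₀ * t with hR
  set 𝒦 := (Fin s × (Γ → (Fin k₀ → A) × Fin (k₀ * t + 1))) with h𝒦
  set s₁ := Fintype.card 𝒦 with hs₁
  -- the two induction hypotheses
  have h1' : ∃ s₂ : ℕ, ∀ (ι : Type) [Fintype ι] [DecidableEq ι] (κ' : ι → Fin s₁)
      (𝓒 : Set (Set (Finset ι))),
      (∀ C ∈ 𝓒, 1 ≤ t ∧ ∃ B : AddSubgroup A, Nat.card B ≤ a ∧ Dep q κ' B (t - 1) C) →
      Inn q (ε / 4) s₂ 𝓒 := by
    by_cases ht : 1 ≤ t
    · obtain ⟨s₂, hs₂⟩ := h1 ht s₁ (ε / 4) (by positivity)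
      exact ⟨s₂, fun ι _ _ κ' 𝓒 h𝓒 => hs₂ ι κ' 𝓒 fun C hC => (h𝓒 C hC).2⟩
    · exact ⟨1, fun ι _ _ κ' 𝓒 h𝓒 => inn_empty q (by positivity) 𝓒
        fun C hC => ht (h𝓒 C hC).1⟩
  have h2' : ∃ s₃ : ℕ, ∀ (ι : Type) [Fintype ι] [DecidableEq ι] (κ' : ι → Fin s₁)
      (𝓒 : Set (Set (Finset ι))),
      (∀ C ∈ 𝓒, ∃ B : AddSubgroup A, Nat.card B + 1 ≤ a ∧ Dep q κ' B (t + R) C) →
      Inn q (ε / 4) s₃ 𝓒 := by
    by_cases ha : 2 ≤ a
    · obtain ⟨s₃, hs₃⟩ := h2 ha (t + R) s₁ (ε / 4) (by positivity)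
      refine ⟨s₃, fun ι _ _ κ' 𝓒 h𝓒 => hs₃ ι κ' 𝓒 fun C hC => ?_⟩
      obtain ⟨B, hB, hD⟩ := h𝓒 C hC
      exact ⟨B, by omega, hD⟩
    · refine ⟨1, fun ι _ _ κ' 𝓒 h𝓒 => inn_empty q (by positivity) 𝓒 fun C hC => ?_⟩
      obtain ⟨B, hB, _⟩ := h𝓒 C hC
      have : 0 < Nat.card B := Nat.card_pos
      omega
  obtain ⟨s₂, hs₂⟩ := h1'
  obtain ⟨s₃, hs₃⟩ := h2'
  refine ⟨s * (s₂ * s₃), fun ι _ _ κ 𝓒 h𝓒 => ?_⟩
  choose! B hBa hDep using h𝓒
  unfold Dep at hDep
  choose! θ hθ X hX hdep using hDep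
  -- conditions that are not automatic on the class of `β`
  let NT : Γ → Set (Set (Finset ι)) := fun β => {C | C ∈ 𝓒 ∧ ∃ x, cnt q κ x = β ∧ x ∉ C}
  let yes : Γ → ℕ → Prop := fun β k => ∃ F : Fin k → Set (Finset ι), (∀ j, F j ∈ NT β) ∧
    (∀ i j, i ≠ j → Disjoint (X (F i)) (X (F j))) ∧
    ∀ ψ : Fin k → AddChar A ℂ, (∃ j, ∃ b ∈ B (F j), ψ j b ≠ 1) →
      R ≤ (univ.filter fun e => ∏ j, ψ j (θ (F j) e) ≠ 1).card
  -- bad classes contain few points of the intersection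
  have hbad : ∀ β, yes β k₀ →
      (({x | (∀ C ∈ 𝓒, x ∈ C) ∧ cnt q κ x = β} : Set (Finset ι)).ncard : ℝ) ≤
        ε / (2 * Fintype.card Γ) * 2 ^ Fintype.card ι := by
    rintro β ⟨F, hF, hdis, hind⟩
    choose hF𝓒 xF hxβ hxF using hF
    have hfew := few_patterns hq hκ0 hκ1 hκ (fun j => θ (F j)) (fun j => B (F j))
      (fun j e => hθ (F j) (hF𝓒 j) e) (fun j => X (F j)) (fun j => xF j ∩ X (F j))
      (fun j => hX (F j) (hF𝓒 j)) (fun j => Finset.inter_subset_right) hdis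
      (fun j => ∑ e ∈ xF j, θ (F j) e)
      (fun j => AddSubgroup.sum_mem _ fun e _ => hθ (F j) (hF𝓒 j) e) hind
    have hsub : ({x | (∀ C ∈ 𝓒, x ∈ C) ∧ cnt q κ x = β} : Set (Finset ι)) ⊆
        {x | ∀ j, ¬ (x ∩ X (F j) = xF j ∩ X (F j) ∧
          ∑ e ∈ x, θ (F j) e = ∑ e ∈ xF j, θ (F j) e)} := by
      rintro x ⟨hx, hxc⟩ j ⟨h3, h4⟩
      exact hxF j (hdep (F j) (hF𝓒 j) x (xF j) (hxc.trans (hxβ j).symm) h3 h4 (hx _ (hF𝓒 j)))
    refine le_trans (by exact_mod_cast Set.ncard_le_ncard hsub (Set.toFinite _)) (hfew.trans ?_)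
    refine mul_le_mul_of_nonneg_right ?_ (by positivity)
    have h5 : (Fintype.card A : ℝ) ^ k₀ * κ₀ ^ (R - k₀ * t) < ε / (4 * Fintype.card Γ) := by
      have h6 : R - k₀ * t = R₀ := by omega
      rw [h6]
      rw [lt_div_iff₀ (by positivity)] at hR₀
      linarith
    have h7 : ε / (2 * Fintype.card Γ) = ε / (4 * Fintype.card Γ) + ε / (4 * Fintype.card Γ) := by
      field_simp
      ring
    rw [h7]
    linarith
  -- maximal families in good classes
  have hgood : ∀ β : Γ, ∃ k : ℕ, ∃ F : Fin k → Set (Finset ι), k ≤ k₀ ∧ (¬ yes β k₀ →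
      (∀ j, F j ∈ NT β) ∧ (∀ i j, i ≠ j → Disjoint (X (F i)) (X (F j))) ∧
      (∀ ψ : Fin k → AddChar A ℂ, (∃ j, ∃ b ∈ B (F j), ψ j b ≠ 1) →
        R ≤ (univ.filter fun e => ∏ j, ψ j (θ (F j) e) ≠ 1).card) ∧ ¬ yes β (k + 1)) := by
    intro β
    by_cases hb : yes β k₀
    · exact ⟨0, fun j => j.elim0, Nat.zero_le _, fun h => absurd hb h⟩
    · have hex : ∃ k, ¬ yes β k := ⟨k₀, hb⟩
      have hK := Nat.find_spec hex
      have hKle : Nat.find hex ≤ k₀ := Nat.find_min' hex hb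
      have h0 : yes β 0 := ⟨fun j => j.elim0, fun j => j.elim0, fun i => i.elim0,
        fun ψ h => by obtain ⟨j, _⟩ := h; exact j.elim0⟩
      have hK0 : Nat.find hex ≠ 0 := fun h => by rw [h] at hK; exact hK h0
      obtain ⟨k, hk⟩ : ∃ k, Nat.find hex = k + 1 := ⟨Nat.find hex - 1, by omega⟩
      have hyes : yes β k := by
        by_contra h
        have := Nat.find_min' hex h
        omega
      rw [hk] at hK hKle
      obtain ⟨F, hF, hdis, hind⟩ := hyes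
      exact ⟨k, F, by omega, fun _ => ⟨hF, hdis, hind, hK⟩⟩
  choose kk F hkk hFF using hgood
  -- the new colouring
  set W : Γ → Finset ι := fun β => univ.biUnion fun j => X (F β j) with hW
  have hWcard : ∀ β, ¬ yes β k₀ → (W β).card ≤ k₀ * t := by
    intro β hb
    have h3 := (hFF β hb).1
    refine Finset.card_biUnion_le.trans ((Finset.sum_le_sum fun j _ => hX _ (h3 j).1).trans ?_)
    rw [Finset.sum_const, Finset.card_univ, Fintype.card_fin, smul_eq_mul]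
    exact Nat.mul_le_mul_right _ (hkk β)
  set pos : Γ → ι → Fin (k₀ * t + 1) := fun β e =>
    if h : e ∈ W β ∧ (W β).card ≤ k₀ * t then ⟨((W β).equivFin ⟨e, h.1⟩).1, by
      have := ((W β).equivFin ⟨e, h.1⟩).2
      omega⟩ else Fin.last _ with hpos
  have hposinj : ∀ β, ¬ yes β k₀ → ∀ e₀ ∈ W β, ∀ e, pos β e = pos β e₀ → e = e₀ := by
    intro β hb e₀ he₀ e he
    have hc := hWcard β hb
    simp only [hpos] at he
    rw [dif_pos (show e₀ ∈ W β ∧ (W β).card ≤ k₀ * t from ⟨he₀, hc⟩)] at he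
    by_cases h3 : e ∈ W β
    · rw [dif_pos (show e ∈ W β ∧ (W β).card ≤ k₀ * t from ⟨h3, hc⟩)] at he
      have h4 := (W β).equivFin.injective (Fin.ext (Fin.mk.inj_iff.1 he))
      exact congrArg Subtype.val h4
    · rw [dif_neg fun h => h3 h.1] at he
      have h4 := congrArg Fin.val he
      simp only [Fin.val_last] at h4
      have h5 := ((W β).equivFin ⟨e₀, he₀⟩).2
      omega
  set g : Γ → ι → Fin k₀ → A := fun β e j =>
    if h : j.1 < kk β then θ (F β ⟨j.1, h⟩) e else 0 with hg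
  set col : ι → 𝒦 := fun e => (κ e, fun β => (g β e, pos β e)) with hcol
  set κ' : ι → Fin s₁ := fun e => Fintype.equivFin 𝒦 (col e) with hκ'
  have hcolκ' : ∀ e e', κ' e = κ' e' → col e = col e' := fun e e' h =>
    (Fintype.equivFin 𝒦).injective h
  have hrefκ : ∀ x x' : Finset ι, cnt q κ' x = cnt q κ' x' → cnt q κ x = cnt q κ x' := by
    intro x x' h
    refine cnt_refine (fun c => ((Fintype.equivFin 𝒦).symm c).1) (fun e => ?_) h
    simp only [hκ', Equiv.symm_apply_apply, hcol]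
  have hWdet : ∀ β, ¬ yes β k₀ → ∀ x x' : Finset ι, cnt q κ' x = cnt q κ' x' →
      ∀ e ∈ W β, (e ∈ x ↔ e ∈ x') := by
    intro β hb x x' h e₀ he₀
    refine mem_of_cnt hq2 (fun e he => ?_) h
    refine hposinj β hb e₀ he₀ e ?_
    have h3 : (fun β => (g β e, pos β e)) = fun β => (g β e₀, pos β e₀) :=
      congrArg Prod.snd (hcolκ' e e₀ he)
    exact congrArg Prod.snd (congrFun h3 β)
  -- the two families of modified conditions
  let 𝓒₁ : Set (Set (Finset ι)) := {D | ∃ β, ¬ yes β k₀ ∧ ∃ C ∈ NT β,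
    D = C ∪ {x | cnt q κ x ≠ β} ∧ ¬ Disjoint (X C) (W β)}
  let 𝓒₂ : Set (Set (Finset ι)) := {D | ∃ β, ¬ yes β k₀ ∧ ∃ C ∈ NT β,
    D = C ∪ {x | cnt q κ x ≠ β} ∧ Disjoint (X C) (W β)}
  have hI₁ : Inn q (ε / 4) s₂ 𝓒₁ := by
    refine hs₂ ι κ' 𝓒₁ ?_
    rintro D ⟨β, hb, C, hC, rfl, hnd⟩
    have h3 := dep_one (κ' := κ') (hθ C hC.1) (hX C hC.1) (hdep C hC.1) hnd hrefκ (hWdet β hb) β
    exact ⟨h3.1, B C, hBa C hC.1, h3.2⟩
  have hI₂ : Inn q (ε / 4) s₃ 𝓒₂ := by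
    refine hs₃ ι κ' 𝓒₂ ?_
    rintro D ⟨β, hb, C, hC, rfl, hdj⟩
    obtain ⟨hF, hdis, hind, hno⟩ := hFF β hb
    have hfail : ∃ ψ : Fin (kk β + 1) → AddChar A ℂ,
        (∃ j, ∃ b ∈ B ((Fin.cons C (F β) : Fin (kk β + 1) → Set (Finset ι)) j), ψ j b ≠ 1) ∧
        (univ.filter fun e => ∏ j, ψ j
          (θ ((Fin.cons C (F β) : Fin (kk β + 1) → Set (Finset ι)) j) e) ≠ 1).card < R := by
      by_contra h
      refine hno ⟨Fin.cons C (F β), fun j => ?_, fun i j hij => ?_, fun ψ hψ => ?_⟩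
      · refine Fin.cases ?_ (fun j => ?_) j
        · exact hC
        · exact hF j
      · have hd : ∀ j, Disjoint (X C) (X (F β j)) := fun j =>
          hdj.mono_right (Finset.subset_biUnion_of_mem (fun j => X (F β j)) (Finset.mem_univ j))
        revert hij
        refine Fin.cases ?_ (fun i => ?_) i <;> refine Fin.cases ?_ (fun j => ?_) j
        · exact fun h => absurd rfl h
        · exact fun _ => hd j
        · exact fun _ => (hd i).symm
        · exact fun h => hdis i j fun h3 => h (by rw [h3])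
      · by_contra h3
        exact h ⟨ψ, hψ, not_le.1 h3⟩
    obtain ⟨ψ, hψ, hcard⟩ := hfail
    simp only [Fin.prod_univ_succ, Fin.cons_zero, Fin.cons_succ] at hcard
    set Z : Finset ι := univ.filter fun e =>
      ψ 0 (θ C e) * ∏ j : Fin (kk β), ψ j.succ (θ (F β j) e) ≠ 1 with hZ
    have hZmem : ∀ e, e ∉ Z → ψ 0 (θ C e) * ∏ j : Fin (kk β), ψ j.succ (θ (F β j) e) = 1 := by
      intro e he
      rw [hZ, Finset.mem_filter] at he
      push Not at he
      exact he (Finset.mem_univ _)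
    have hnt : ∃ b ∈ B C, ψ 0 b ≠ 1 := by
      by_contra h
      push Not at h
      obtain ⟨j, b, hb', hbj⟩ := hψ
      revert hb' hbj
      refine Fin.cases ?_ (fun j => ?_) j
      · intro hb' hbj
        exact hbj (h b hb')
      · intro hb' hbj
        have h3 := hind (fun j => ψ j.succ) ⟨j, b, hb', hbj⟩
        have h4 : (univ.filter fun e => ∏ j : Fin (kk β), ψ j.succ (θ (F β j) e) ≠ 1) = Z := by
          rw [hZ]
          refine Finset.filter_congr fun e _ => ?_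
          rw [h _ (hθ C hC.1 e), one_mul]
        rw [h4] at h3
        omega
    refine ⟨kerIn (B C) (ψ 0), ?_, ?_⟩
    · have h3 := card_kerIn_lt hnt
      have h4 := hBa C hC.1
      omega
    · refine dep_two hq (hθ C hC.1) (hX C hC.1) hcard.le (hdep C hC.1) hrefκ (ψ 0) ?_ β
      intro e e' he he' hee
      have h3 : (fun β => (g β e, pos β e)) = fun β => (g β e', pos β e') :=
        congrArg Prod.snd (hcolκ' e e' hee)
      have h4 : g β e = g β e' := congrArg Prod.fst (congrFun h3 β)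
      have h5 : ∀ j : Fin (kk β), θ (F β j) e = θ (F β j) e' := by
        intro j
        have h6 := congrFun h4 ⟨j.1, lt_of_lt_of_le j.2 (hkk β)⟩
        simp only [hg] at h6
        rw [dif_pos j.2, dif_pos j.2] at h6
        exact h6
      have h6 := hZmem e he
      have h7 := hZmem e' he'
      have h8 : ∏ j : Fin (kk β), ψ j.succ (θ (F β j) e) =
          ∏ j : Fin (kk β), ψ j.succ (θ (F β j) e') :=
        Finset.prod_congr rfl fun j _ => by rw [h5 j]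
      rw [h8] at h6
      have h9 : ∏ j : Fin (kk β), ψ j.succ (θ (F β j) e') ≠ 0 := by
        intro h10
        rw [h10, mul_zero] at h7
        exact zero_ne_one h7
      exact mul_right_cancel₀ h9 (h6.trans h7.symm)
  obtain ⟨κ₁, U₁, hU₁c, hU₁s, hU₁m⟩ := hI₁
  obtain ⟨κ₂, U₂, hU₂c, hU₂s, hU₂m⟩ := hI₂
  refine ⟨fun e => finProdFinEquiv (κ e, finProdFinEquiv (κ₁ e, κ₂ e)),
    {x | x ∈ U₁ ∧ x ∈ U₂ ∧ ¬ yes (cnt q κ x) k₀}, ?_, ?_, ?_⟩
  · rintro x x' h ⟨hx1, hx2, hx3⟩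
    have r0 : cnt q κ x = cnt q κ x' :=
      cnt_refine (fun c => (finProdFinEquiv.symm c).1) (fun e => by
        simp only [Equiv.symm_apply_apply]) h
    have r1 : cnt q κ₁ x = cnt q κ₁ x' :=
      cnt_refine (fun c => (finProdFinEquiv.symm (finProdFinEquiv.symm c).2).1) (fun e => by
        simp only [Equiv.symm_apply_apply]) h
    have r2 : cnt q κ₂ x = cnt q κ₂ x' :=
      cnt_refine (fun c => (finProdFinEquiv.symm (finProdFinEquiv.symm c).2).2) (fun e => by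
        simp only [Equiv.symm_apply_apply]) h
    exact ⟨hU₁c x x' r1 hx1, hU₂c x x' r2 hx2, by rw [← r0]; exact hx3⟩
  · rintro x ⟨hx1, hx2, hx3⟩ C hC
    by_contra hxC
    have hNT : C ∈ NT (cnt q κ x) := ⟨hC, x, rfl, hxC⟩
    have hD : x ∈ C ∪ {y | cnt q κ y ≠ cnt q κ x} := by
      by_cases hd : Disjoint (X C) (W (cnt q κ x))
      · exact hU₂s x hx2 _ ⟨_, hx3, C, hNT, rfl, hd⟩
      · exact hU₁s x hx1 _ ⟨_, hx3, C, hNT, rfl, hd⟩
    rcases hD with hD | hD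
    · exact hxC hD
    · exact hD rfl
  · set Vb : Set (Finset ι) := {x | (∀ C ∈ 𝓒, x ∈ C) ∧ yes (cnt q κ x) k₀} with hVb
    have hsub : ({x | (∀ C ∈ 𝓒, x ∈ C) ∧ x ∉ ({x | x ∈ U₁ ∧ x ∈ U₂ ∧ ¬ yes (cnt q κ x) k₀} :
        Set (Finset ι))} : Set (Finset ι)) ⊆
        Vb ∪ ({x | (∀ C ∈ 𝓒₁, x ∈ C) ∧ x ∉ U₁} ∪ {x | (∀ C ∈ 𝓒₂, x ∈ C) ∧ x ∉ U₂}) := by
      rintro x ⟨hxV, hxU⟩
      by_cases hy : yes (cnt q κ x) k₀
      · exact Or.inl ⟨hxV, hy⟩
      · right
        by_cases hx1 : x ∈ U₁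
        · right
          refine ⟨?_, fun hx2 => hxU ⟨hx1, hx2, hy⟩⟩
          rintro D ⟨β, _, C, hC, rfl, _⟩
          exact Or.inl (hxV C hC.1)
        · left
          refine ⟨?_, hx1⟩
          rintro D ⟨β, _, C, hC, rfl, _⟩
          exact Or.inl (hxV C hC.1)
    have hVbcard : (Vb.ncard : ℝ) ≤ ε / 2 * 2 ^ Fintype.card ι := by
      have h3 : Vb.ncard ≤ ∑ β : Γ, if yes β k₀ then
          ({x | (∀ C ∈ 𝓒, x ∈ C) ∧ cnt q κ x = β} : Set (Finset ι)).ncard else 0 := by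
        rw [Set.ncard_eq_toFinset_card' Vb,
          Finset.card_eq_sum_card_fiberwise (f := cnt q κ) (t := univ)
            fun x _ => Finset.mem_coe.2 (Finset.mem_univ _)]
        refine Finset.sum_le_sum fun β _ => ?_
        split_ifs with hy
        · rw [Set.ncard_eq_toFinset_card']
          refine Finset.card_le_card fun x hx => ?_
          rw [Finset.mem_filter, Set.mem_toFinset] at hx
          rw [Set.mem_toFinset]
          exact ⟨hx.1.1, hx.2⟩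
        · rw [Nat.le_zero, Finset.card_eq_zero, Finset.filter_eq_empty_iff]
          intro x hx hxβ
          rw [Set.mem_toFinset] at hx
          exact hy (hxβ ▸ hx.2)
      have h4 : (Vb.ncard : ℝ) ≤ ∑ β : Γ, ε / (2 * Fintype.card Γ) * 2 ^ Fintype.card ι := by
        have h3' : (Vb.ncard : ℝ) ≤ ((∑ β : Γ, if yes β k₀ then
            ({x | (∀ C ∈ 𝓒, x ∈ C) ∧ cnt q κ x = β} : Set (Finset ι)).ncard else 0 : ℕ) : ℝ) :=
          Nat.cast_le.2 h3
        refine h3'.trans ?_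
        push_cast
        refine Finset.sum_le_sum fun β _ => ?_
        split_ifs with hy
        · exact hbad β hy
        · positivity
      refine h4.trans (le_of_eq ?_)
      rw [Finset.sum_const, Finset.card_univ, nsmul_eq_mul]
      field_simp
    have h5 : (({x | (∀ C ∈ 𝓒, x ∈ C) ∧ x ∉ ({x | x ∈ U₁ ∧ x ∈ U₂ ∧ ¬ yes (cnt q κ x) k₀} :
        Set (Finset ι))} : Set (Finset ι)).ncard : ℝ) ≤ Vb.ncard +
        (({x | (∀ C ∈ 𝓒₁, x ∈ C) ∧ x ∉ U₁} : Set (Finset ι)).ncard +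
        ({x | (∀ C ∈ 𝓒₂, x ∈ C) ∧ x ∉ U₂} : Set (Finset ι)).ncard) := by
      have h6 := (Set.ncard_le_ncard hsub (Set.toFinite _)).trans ((Set.ncard_union_le _ _).trans
        (Nat.add_le_add_left (Set.ncard_union_le _ _) _))
      exact_mod_cast h6
    linarith

/-- all types can be approximated -/
theorem ia_all (A : Type) [AddCommGroup A] [Fintype A] (q : ℕ) (hq2 : 2 ≤ q)
    (hq : ∀ a : A, q • a = 0) (a : ℕ) : ∀ t, IA A q a t := by
  induction a with
  | zero =>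
    intro t
    induction t with
    | zero => exact step A q hq2 hq 0 0 (fun h => by omega) (fun h => by omega)
    | succ t ih => exact step A q hq2 hq 0 (t + 1) (fun _ => ih) (fun h => by omega)
  | succ a iha =>
    intro t
    induction t with
    | zero => exact step A q hq2 hq (a + 1) 0 (fun h => by omega) (fun _ => iha)
    | succ t ih => exact step A q hq2 hq (a + 1) (t + 1) (fun _ => ih) (fun _ => iha)

end Pool.Agent.Lib.MP_2d96d7_co.Poly
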