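import Pool.Agent.Lib.MP_2d96d7_co.Poly.Count
import Pool.Agent.Lib.MP_2d96d7_co.Poly.Inner

set_option autoImplicit false

/-!
Polynomial graph-codes: conditions that depend on few pairs and on a form with values in a finite
abelian group.
-/

namespace Pool.Agent.Lib.MP_2d96d7_co.Poly

open Finset

section Conditions

open Classical in
/-- the sum of the values of `φ` at the edges of `G` -/
noncomputable def form {A : Type} [AddCommGroup A] {n : ℕ} (φ : Sym2 (Fin n) → A)
    (G : SimpleGraph (Fin n)) : A :=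
  ∑ e : Sym2 (Fin n), if e ∈ G.edgeSet then φ e else 0

/-- the condition `C` on a graph depends only on at most `w` pairs and on the value of one form
with coefficients in `A` -/
def SimpleCond (A : Type) [AddCommGroup A] (w : ℕ) {n : ℕ} (C : Set (SimpleGraph (Fin n))) :
    Prop :=
  ∃ (φ : Sym2 (Fin n) → A) (T : Finset (Sym2 (Fin n))), T.card ≤ w ∧
    ∀ G G' : SimpleGraph (Fin n), (∀ e ∈ T, (e ∈ G.edgeSet ↔ e ∈ G'.edgeSet)) →
      form φ G = form φ G' → G ∈ C → G' ∈ C

variable {n : ℕ}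

/-- the pairs of distinct vertices -/
abbrev Pr (n : ℕ) : Type := {e : Sym2 (Fin n) // ¬ e.IsDiag}

open Classical in
/-- the set of edges of a graph, as a set of pairs of distinct vertices -/
noncomputable def xG (G : SimpleGraph (Fin n)) : Finset (Pr n) :=
  univ.filter fun e => e.1 ∈ G.edgeSet

lemma mem_xG {G : SimpleGraph (Fin n)} {e : Pr n} : e ∈ xG G ↔ e.1 ∈ G.edgeSet := by
  simp only [xG, Finset.mem_filter, Finset.mem_univ, true_and]

lemma xG_injective : Function.Injective (xG : SimpleGraph (Fin n) → Finset (Pr n)) := by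
  intro G G' h
  rw [← SimpleGraph.edgeSet_inj]
  ext e
  by_cases hd : e.IsDiag
  · constructor
    · intro h1
      exact absurd hd (SimpleGraph.not_isDiag_of_mem_edgeSet G h1)
    · intro h1
      exact absurd hd (SimpleGraph.not_isDiag_of_mem_edgeSet G' h1)
  · have h1 : (⟨e, hd⟩ : Pr n) ∈ xG G ↔ (⟨e, hd⟩ : Pr n) ∈ xG G' := by rw [h]
    rw [mem_xG, mem_xG] at h1
    exact h1

lemma xG_surjective : Function.Surjective (xG : SimpleGraph (Fin n) → Finset (Pr n)) := by
  classical
  intro x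
  refine ⟨SimpleGraph.fromEdgeSet ((x.image Subtype.val : Finset (Sym2 (Fin n))) :
    Set (Sym2 (Fin n))), ?_⟩
  ext e
  rw [mem_xG, SimpleGraph.edgeSet_fromEdgeSet]
  constructor
  · rintro ⟨h, _⟩
    rw [Finset.mem_coe, Finset.mem_image] at h
    obtain ⟨e', he', hee⟩ := h
    rwa [← Subtype.ext hee]
  · intro h
    refine ⟨Finset.mem_coe.2 (Finset.mem_image_of_mem _ h), ?_⟩
    exact e.2

lemma card_Pr (n : ℕ) : Fintype.card (Pr n) = n.choose 2 := by
  rw [Sym2.card_subtype_not_diag, Fintype.card_fin]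

lemma form_eq {A : Type} [AddCommGroup A] (φ : Sym2 (Fin n) → A) (G : SimpleGraph (Fin n)) :
    form φ G = ∑ e ∈ xG G, φ e.1 := by
  classical
  unfold form
  rw [← Finset.sum_filter]
  symm
  refine Finset.sum_bij (fun e _ => e.1) ?_ ?_ ?_ ?_
  · intro e he
    rw [Finset.mem_filter]
    exact ⟨Finset.mem_univ _, mem_xG.1 he⟩
  · intro e _ e' _ h
    exact Subtype.ext h
  · intro e he
    rw [Finset.mem_filter] at he
    exact ⟨⟨e, SimpleGraph.not_isDiag_of_mem_edgeSet G he.2⟩, mem_xG.2 he.2, rfl⟩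
  · intro e _
    rfl

lemma isDeg_form {p : ℕ} (ψ : Pr n → ZMod p) (G₀ : SimpleGraph (Fin n)) :
    IsDeg 1 fun Y => ∑ e ∈ xG (tog G₀ Y), ψ e := by
  classical
  have h1 : ∀ Y, ∑ e ∈ xG (tog G₀ Y), ψ e = ∑ e : Pr n, ψ e * ind (ZMod p) (tog G₀ Y) e.1 := by
    intro Y
    have h2 : ∀ e : Pr n, ψ e * ind (ZMod p) (tog G₀ Y) e.1 =
        if e.1 ∈ (tog G₀ Y).edgeSet then ψ e else 0 := by
      intro e
      unfold ind
      split_ifs <;> simp
    rw [Finset.sum_congr rfl fun e _ => h2 e, ← Finset.sum_filter]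
    refine Finset.sum_congr ?_ fun _ _ => rfl
    ext e
    rw [mem_xG, Finset.mem_filter]
    exact ⟨fun h => ⟨Finset.mem_univ _, h⟩, fun h => h.2⟩
  have h3 : IsDeg 1 fun Y => ∑ e : Pr n, ψ e * ind (ZMod p) (tog G₀ Y) e.1 :=
    IsDeg.sum _ _ fun e _ => (IsDeg.const (E := Sym2 (Fin n)) (ψ e)).mulInd G₀ e.1
  refine cast ?_ h3
  congr 1
  funext Y
  rw [h1]

lemma isDeg_cnt {q s : ℕ} (κ : Pr n → Fin s) (G₀ : SimpleGraph (Fin n)) :
    IsDeg 1 fun Y => cnt q κ (xG (tog G₀ Y)) := by
  classical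
  refine IsDeg.pi fun c => ?_
  refine cast ?_ (isDeg_form (fun e => if κ e = c then (1 : ZMod q) else 0) G₀)
  congr 1
  funext Y
  rw [cnt_eq_sum]

lemma dep_of_simple {A : Type} [AddCommGroup A] {w q : ℕ} {K : Type} (κ : Pr n → K)
    {C : Set (SimpleGraph (Fin n))} (hC : SimpleCond A w C) :
    Dep q κ (⊤ : AddSubgroup A) w (xG '' C) := by
  classical
  obtain ⟨φ, T, hT, h⟩ := hC
  refine ⟨fun e => φ e.1, fun e => AddSubgroup.mem_top _, univ.filter fun e => e.1 ∈ T, ?_, ?_⟩
  · refine le_trans (Finset.card_le_card_of_injOn Subtype.val (fun e he => ?_) fun a _ b _ hab =>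
      Subtype.ext hab) hT
    rw [Finset.mem_coe, Finset.mem_filter] at he
    exact Finset.mem_coe.2 he.2
  · rintro x x' _ hxx hs ⟨G, hG, rfl⟩
    obtain ⟨G', rfl⟩ := xG_surjective x'
    refine ⟨G', h G G' (fun e he => ?_) ?_ hG, rfl⟩
    · by_cases hd : e.IsDiag
      · constructor
        · intro h1
          exact absurd hd (SimpleGraph.not_isDiag_of_mem_edgeSet G h1)
        · intro h1
          exact absurd hd (SimpleGraph.not_isDiag_of_mem_edgeSet G' h1)
      · have h2 : (⟨e, hd⟩ : Pr n) ∈ xG G ∩ univ.filter (fun e : Pr n => e.1 ∈ T) ↔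
            (⟨e, hd⟩ : Pr n) ∈ xG G' ∩ univ.filter (fun e : Pr n => e.1 ∈ T) := by rw [hxx]
        rw [Finset.mem_inter, Finset.mem_inter, mem_xG, mem_xG, Finset.mem_filter] at h2
        have h3 : (⟨e, hd⟩ : Pr n) ∈ (univ : Finset (Pr n)) ∧ e ∈ T := ⟨Finset.mem_univ _, he⟩
        constructor
        · intro h4
          exact (h2.1 ⟨h4, h3⟩).1
        · intro h4
          exact (h2.2 ⟨h4, h3⟩).1
    · rw [form_eq, form_eq]
      exact hs

end Conditions

section Assembly

/-- A family that is closed under equality of the values of a map of bounded degree into a finite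
abelian group contains a positive proportion of `H`-differences. -/
theorem group_diffs {V : Type} [Fintype V] (H : SimpleGraph V) (hne : H.edgeSet.Nonempty)
    (he : Even H.edgeSet.ncard) (m d : ℕ) (hm : 0 < m) (A : Type) [AddCommGroup A] [Finite A]
    (hA : ∀ a : A, m • a = 0) :
    ∃ N L : ℕ, 0 < L ∧ ∀ n, N ≤ n → ∀ Φ : SimpleGraph (Fin n) → A,
      (∀ G₀ : SimpleGraph (Fin n), IsDeg d fun Y => Φ (tog G₀ Y)) →
      ∀ E : Finset (SimpleGraph (Fin n)), (∀ G G', Φ G = Φ G' → G ∈ E → G' ∈ E) →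
      E.card * Nat.card (V ↪ Fin n) ≤ L * (diffs H E).ncard := by
  classical
  obtain ⟨R, hR⟩ := exists_pair H hne he m d hm A hA
  refine ⟨R, 2 ^ (R * R) * (R ^ Fintype.card V + 1), by positivity, fun n hn Φ hΦ E hE => ?_⟩
  choose Y Y' hY hY' hev hev' f hf hmap using hR n hn Φ hΦ
  have h1 := count_diffs H E (E ×ˢ (univ : Finset (Equiv.Perm (Fin n)))) Y f hY hf (by
    rintro ⟨G, π⟩ hx
    have hG : G ∈ E := (Finset.mem_product.1 hx).1
    exact ⟨hE G _ (hev G π).symm hG, _, hE G _ (hev' G π).symm hG, hmap G π⟩)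
  rw [Finset.card_product, Finset.card_univ, Fintype.card_perm, Fintype.card_fin] at h1
  have hfinal : n.factorial * (E.card * Nat.card (V ↪ Fin n)) ≤
      n.factorial * (2 ^ (R * R) * R ^ Fintype.card V * (diffs H E).ncard) := by
    calc _ = E.card * n.factorial * Nat.card (V ↪ Fin n) := by ring
      _ ≤ _ := h1
      _ = _ := by ring
  have h6 := Nat.le_of_mul_le_mul_left hfinal (Nat.factorial_pos n)
  exact h6.trans (Nat.mul_le_mul_right _ (Nat.mul_le_mul_left _ (Nat.le_succ _)))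

lemma diffs_mono {V : Type} (H : SimpleGraph V) {n : ℕ} {E D : Finset (SimpleGraph (Fin n))}
    (h : E ⊆ D) : diffs H E ⊆ diffs H D := by
  rintro p ⟨h1, G', h2, h3⟩
  exact ⟨h h1, G', h h2, h3⟩

/-- A family of graphs that is cut out by boundedly many polynomial conditions of bounded degree
and any number of simple conditions contains a positive proportion of `H`-differences, if it is
dense or if there are no conditions of the second kind. -/
theorem dense_diffs {V : Type} [Fintype V] (H : SimpleGraph V) (hne : H.edgeSet.Nonempty)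
    (he : Even H.edgeSet.ncard) (m d r w : ℕ) (hm : 0 < m) (A : Type) [AddCommGroup A] [Finite A]
    (δ : ℝ) (hδ : 0 < δ) :
    ∃ N L : ℕ, 0 < L ∧ ∀ n, N ≤ n → ∀ P : Fin r → MvPolynomial (Sym2 (Fin n)) (ZMod m),
      (∀ i, (P i).totalDegree ≤ d) → ∀ E : Finset (SimpleGraph (Fin n)),
      (∀ G G' : SimpleGraph (Fin n), (∀ i, MvPolynomial.eval (ind (ZMod m) G) (P i) =
        MvPolynomial.eval (ind (ZMod m) G') (P i)) → G ∈ E → G' ∈ E) →
      ∀ Q : Set (Set (SimpleGraph (Fin n))), (∀ C ∈ Q, SimpleCond A w C) →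
      ∀ D : Finset (SimpleGraph (Fin n)), (∀ G, G ∈ D ↔ G ∈ E ∧ ∀ C ∈ Q, G ∈ C) →
      (Q = ∅ ∨ δ * 2 ^ (n.choose 2) ≤ D.card) →
      D.card * Nat.card (V ↪ Fin n) ≤ L * (diffs H D).ncard := by
  classical
  have : NeZero m := ⟨hm.ne'⟩
  have : Fintype A := Fintype.ofFinite A
  have hmzero : ∀ a : ZMod m, m • a = 0 := fun a => zmod_nsmul m a
  -- the case without conditions
  obtain ⟨N₁, L₁, hL₁, h₁⟩ := group_diffs H hne he m d hm (Fin r → ZMod m)
    (fun a => funext fun i => hmzero (a i))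
  -- the dense case
  set q := 2 * Fintype.card A with hq
  have hq2 : 2 ≤ q := by
    have := Fintype.card_pos (α := A)
    omega
  have hqA : ∀ a : A, q • a = 0 := by
    intro a
    rw [hq, mul_comm, mul_nsmul, card_nsmul_eq_zero, nsmul_zero]
  have : NeZero q := ⟨by omega⟩
  obtain ⟨s', hs'⟩ := ia_all A q hq2 hqA (Nat.card (⊤ : AddSubgroup A)) w 1 (δ / 2) (by positivity)
  obtain ⟨N₂, L₂, hL₂, h₂⟩ := group_diffs H hne he (m * q) (max d 1) (Nat.mul_pos hm (by omega))
    ((Fin r → ZMod m) × (Fin s' → ZMod q)) (by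
      rintro ⟨a, b⟩
      refine Prod.ext ?_ ?_
      · funext i
        show (m * q) • a i = 0
        rw [mul_comm, mul_nsmul', zmod_nsmul, nsmul_zero]
      · funext i
        show (m * q) • b i = 0
        rw [mul_nsmul', zmod_nsmul, nsmul_zero])
  refine ⟨max N₁ N₂, L₁ + 2 * L₂, by omega, fun n hn P hP E hE Q hQ D hD hdense => ?_⟩
  have hn₁ : N₁ ≤ n := (le_max_left _ _).trans hn
  have hn₂ : N₂ ≤ n := (le_max_right _ _).trans hn
  rcases hdense with hQe | hdense
  · have h3 : ∀ G G' : SimpleGraph (Fin n),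
        (fun i => MvPolynomial.eval (ind (ZMod m) G) (P i)) =
          (fun i => MvPolynomial.eval (ind (ZMod m) G') (P i)) → G ∈ D → G' ∈ D := by
      intro G G' h hG
      rw [hD] at hG ⊢
      refine ⟨hE G G' (fun i => congrFun h i) hG.1, ?_⟩
      rw [hQe]
      exact fun C hC => absurd hC (Set.notMem_empty C)
    have h4 := h₁ n hn₁ (fun G i => MvPolynomial.eval (ind (ZMod m) G) (P i))
      (fun G₀ => IsDeg.pi fun i => isDeg_eval G₀ (P i) (hP i)) D h3
    exact h4.trans (Nat.mul_le_mul_right _ (Nat.le_add_right _ _))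
  · obtain ⟨κ', U, hUc, hUs, hUm⟩ := hs' (Pr n) (fun _ => 0) (Set.image xG '' Q) (by
      rintro _ ⟨C, hC, rfl⟩
      exact ⟨⊤, le_refl _, dep_of_simple _ (hQ C hC)⟩)
    set E' : Finset (SimpleGraph (Fin n)) := E.filter fun G => xG G ∈ U with hE'
    have hE'D : E' ⊆ D := by
      intro G hG
      rw [hE', Finset.mem_filter] at hG
      rw [hD]
      refine ⟨hG.1, fun C hC => ?_⟩
      obtain ⟨G', hG', hGG⟩ := hUs _ hG.2 (xG '' C) ⟨C, hC, rfl⟩
      rwa [← xG_injective hGG]
    have hclosed : ∀ G G' : SimpleGraph (Fin n),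
        ((fun i => MvPolynomial.eval (ind (ZMod m) G) (P i), cnt q κ' (xG G)) :
          (Fin r → ZMod m) × (Fin s' → ZMod q)) =
          (fun i => MvPolynomial.eval (ind (ZMod m) G') (P i), cnt q κ' (xG G')) →
        G ∈ E' → G' ∈ E' := by
      intro G G' h hG
      rw [hE', Finset.mem_filter] at hG ⊢
      exact ⟨hE G G' (fun i => congrFun (congrArg Prod.fst h) i) hG.1,
        hUc _ _ (congrArg Prod.snd h) hG.2⟩
    have h4 := h₂ n hn₂ (fun G => (fun i => MvPolynomial.eval (ind (ZMod m) G) (P i),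
      cnt q κ' (xG G))) (fun G₀ => IsDeg.prodMk
        (IsDeg.pi fun i => (isDeg_eval G₀ (P i) (hP i)).mono (le_max_left _ _))
        ((isDeg_cnt κ' G₀).mono (le_max_right _ _))) E' hclosed
    -- `E'` is at least half of `D`
    have h5 : ((D \ E').card : ℝ) ≤ δ / 2 * 2 ^ (n.choose 2) := by
      rw [card_Pr] at hUm
      refine le_trans ?_ hUm
      rw [← Finset.card_image_of_injective _ xG_injective, ← Set.ncard_coe_finset]
      refine Nat.cast_le.2 (Set.ncard_le_ncard ?_ (Set.toFinite _))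
      intro x hx
      rw [Finset.mem_coe, Finset.mem_image] at hx
      obtain ⟨G, hG, rfl⟩ := hx
      rw [Finset.mem_sdiff] at hG
      have h6 := (hD G).1 hG.1
      constructor
      · rintro _ ⟨C, hC, rfl⟩
        exact ⟨G, h6.2 C hC, rfl⟩
      · intro h7
        exact hG.2 (by rw [hE', Finset.mem_filter]; exact ⟨h6.1, h7⟩)
    have h6 : (D \ E').card + E'.card = D.card := Finset.card_sdiff_add_card_eq_card hE'D
    have h7 : (D.card : ℝ) ≤ 2 * E'.card := by
      have h8 : ((D \ E').card : ℝ) + E'.card = D.card := by exact_mod_cast h6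
      linarith
    have h8 : D.card ≤ 2 * E'.card := by exact_mod_cast h7
    have h9 : (diffs H E').ncard ≤ (diffs H D).ncard :=
      Set.ncard_le_ncard (diffs_mono H hE'D) (Set.toFinite _)
    calc D.card * Nat.card (V ↪ Fin n) ≤ 2 * E'.card * Nat.card (V ↪ Fin n) :=
          Nat.mul_le_mul_right _ h8
      _ = 2 * (E'.card * Nat.card (V ↪ Fin n)) := by ring
      _ ≤ 2 * (L₂ * (diffs H E').ncard) := Nat.mul_le_mul_left _ h4
      _ = (2 * L₂) * (diffs H E').ncard := by ring
      _ ≤ (L₁ + 2 * L₂) * (diffs H D).ncard := Nat.mul_le_mul (Nat.le_add_left _ _) h9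

end Assembly

end Pool.Agent.Lib.MP_2d96d7_co.Poly
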