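import Pool.Agent.Lib.MP_2d96d7_co.Poly.Main

set_option autoImplicit false

/-!
Polynomial graph-codes: counting `H`-differences.
-/

namespace Pool.Agent.Lib.MP_2d96d7_co.Poly

open Finset

section Perm

variable {V : Type} [Fintype V] {n : ℕ}

/-- Two embeddings differ by a permutation. -/
lemma exists_perm_emb (f f' : V ↪ Fin n) : ∃ σ : Equiv.Perm (Fin n), ∀ v, σ (f v) = f' v := by
  classical
  let e : {x // x ∈ Set.range f} ≃ {x // x ∈ Set.range f'} :=
    (Equiv.ofInjective f f.injective).symm.trans (Equiv.ofInjective f' f'.injective)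
  refine ⟨e.extendSubtype, fun v => ?_⟩
  rw [e.extendSubtype_apply_of_mem (f v) ⟨v, rfl⟩]
  have h1 : (Equiv.ofInjective f f.injective).symm ⟨f v, ⟨v, rfl⟩⟩ = v := by
    rw [Equiv.symm_apply_eq]
    rfl
  show ((Equiv.ofInjective f' f'.injective) ((Equiv.ofInjective f f.injective).symm
    ⟨f v, ⟨v, rfl⟩⟩) : Fin n) = f' v
  rw [h1]
  rfl

open Classical in
/-- the permutations that map a subset of the first `R` vertices onto the image of `f` -/
noncomputable def through (R : ℕ) (f : V ↪ Fin n) : Finset (Equiv.Perm (Fin n)) :=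
  univ.filter fun π => ∀ v, (π.symm (f v) : ℕ) < R

lemma through_card_eq (R : ℕ) (f f' : V ↪ Fin n) :
    (through R f).card = (through R f').card := by
  classical
  obtain ⟨σ, hσ⟩ := exists_perm_emb f f'
  refine Finset.card_bij (fun π _ => σ * π) ?_ ?_ ?_
  · intro π hπ
    unfold through at hπ ⊢
    rw [Finset.mem_filter] at hπ ⊢
    refine ⟨Finset.mem_univ _, fun v => ?_⟩
    have h1 : (σ * π).symm (f' v) = π.symm (f v) := by
      rw [Equiv.symm_apply_eq, Equiv.Perm.mul_apply, Equiv.apply_symm_apply, hσ]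
    rw [h1]
    exact hπ.2 v
  · intro π _ π' _ h
    exact mul_left_cancel h
  · intro π hπ
    refine ⟨σ⁻¹ * π, ?_, by rw [mul_inv_cancel_left]⟩
    unfold through at hπ ⊢
    rw [Finset.mem_filter] at hπ ⊢
    refine ⟨Finset.mem_univ _, fun v => ?_⟩
    have h1 : (σ⁻¹ * π).symm (f v) = π.symm (f' v) := by
      rw [Equiv.symm_apply_eq, Equiv.Perm.mul_apply, Equiv.apply_symm_apply, ← hσ]
      exact (σ.symm_apply_apply _).symm
    rw [h1]
    exact hπ.2 v

/-- the embeddings into the first `R` vertices are at most `R ^ k` -/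
lemma small_emb_card [Fintype (V ↪ Fin n)] (R : ℕ)
    [DecidablePred fun f : V ↪ Fin n => ∀ v, (f v : ℕ) < R] :
    (univ.filter fun f : V ↪ Fin n => ∀ v, (f v : ℕ) < R).card ≤ R ^ Fintype.card V := by
  classical
  have h1 : Fintype.card (V → Fin R) = R ^ Fintype.card V := by
    rw [Fintype.card_fun, Fintype.card_fin]
  rw [← h1, ← Finset.card_univ]
  rcases Nat.eq_zero_or_pos R with rfl | hR
  · by_cases hV : Nonempty V
    · obtain ⟨v⟩ := hV
      rw [Finset.card_eq_zero.2]
      · exact Nat.zero_le _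
      · rw [Finset.filter_eq_empty_iff]
        intro f _ h
        exact Nat.not_lt_zero _ (h v)
    · have hV' : IsEmpty V := not_nonempty_iff.1 hV
      rw [Finset.card_univ, Fintype.card_eq_one_iff_nonempty_unique.2
        ⟨Pi.uniqueOfIsEmpty fun _ => Fin 0⟩]
      refine (Finset.card_le_univ _).trans (le_of_eq ?_)
      rw [Fintype.card_eq_one_iff]
      exact ⟨⟨fun v => (hV'.false v).elim, fun v => (hV'.false v).elim⟩,
        fun f => by ext v; exact (hV'.false v).elim⟩
  · refine Finset.card_le_card_of_injOn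
      (fun f v => if h : (f v : ℕ) < R then ⟨f v, h⟩ else ⟨0, hR⟩)
      (fun _ _ => Finset.mem_coe.2 (Finset.mem_univ _)) ?_
    intro f hf f' hf' h
    rw [Finset.mem_coe, Finset.mem_filter] at hf hf'
    ext v
    have h2 := congrFun h v
    simp only [hf.2 v, hf'.2 v, dif_pos, Fin.mk.injEq] at h2
    exact h2

/-- double counting of the permutations -/
lemma through_card_le [Fintype (V ↪ Fin n)] (R : ℕ) (f : V ↪ Fin n) :
    (through R f).card * Fintype.card (V ↪ Fin n) ≤ R ^ Fintype.card V * n.factorial := by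
  classical
  have h1 : ∑ f' : V ↪ Fin n, (through R f').card =
      (through R f).card * Fintype.card (V ↪ Fin n) := by
    rw [Finset.sum_congr rfl fun f' _ => through_card_eq R f' f, Finset.sum_const,
      Finset.card_univ, smul_eq_mul, mul_comm]
  have h2 : ∑ f' : V ↪ Fin n, (through R f').card =
      ∑ π : Equiv.Perm (Fin n),
        (univ.filter fun f' : V ↪ Fin n => ∀ v, (π.symm (f' v) : ℕ) < R).card := by
    unfold through
    simp only [Finset.card_filter]
    exact Finset.sum_comm
  rw [← h1, h2]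
  have h3 : ∀ π : Equiv.Perm (Fin n),
      (univ.filter fun f' : V ↪ Fin n => ∀ v, (π.symm (f' v) : ℕ) < R).card ≤
        R ^ Fintype.card V := by
    intro π
    refine le_trans (Finset.card_le_card_of_injOn (fun f' => f'.trans π.symm.toEmbedding)
      (fun f' hf' => ?_) ?_) (small_emb_card (n := n) R)
    · rw [Finset.mem_coe, Finset.mem_filter] at hf' ⊢
      exact ⟨Finset.mem_univ _, hf'.2⟩
    · intro f' _ f'' _ h
      ext v
      have h4 := congrArg (fun g : V ↪ Fin n => g v) h
      simp only [Function.Embedding.trans_apply, Equiv.coe_toEmbedding,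
        EmbeddingLike.apply_eq_iff_eq] at h4
      rw [h4]
  refine (Finset.sum_le_sum fun π _ => h3 π).trans (le_of_eq ?_)
  rw [Finset.sum_const, Finset.card_univ, Fintype.card_perm, Fintype.card_fin, smul_eq_mul,
    mul_comm]

end Perm

lemma small_pairs_card (n R : ℕ) [DecidablePred fun z : Sym2 (Fin n) => ∀ v ∈ z, (v : ℕ) < R] :
    (univ.filter fun z : Sym2 (Fin n) => ∀ v ∈ z, (v : ℕ) < R).card ≤ R * R := by
  classical
  have h1 : (univ.filter fun z : Sym2 (Fin n) => ∀ v ∈ z, (v : ℕ) < R) ⊆
      ((univ.filter fun v : Fin n => (v : ℕ) < R) ×ˢ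
      (univ.filter fun v : Fin n => (v : ℕ) < R)).image fun p => s(p.1, p.2) := by
    intro z hz
    rw [Finset.mem_filter] at hz
    induction z with
    | _ a b =>
      rw [Finset.mem_image]
      refine ⟨(a, b), ?_, rfl⟩
      rw [Finset.mem_product, Finset.mem_filter, Finset.mem_filter]
      exact ⟨⟨Finset.mem_univ _, hz.2 a (by simp)⟩, ⟨Finset.mem_univ _, hz.2 b (by simp)⟩⟩
  have h2 : (univ.filter fun v : Fin n => (v : ℕ) < R).card ≤ R := by
    have h3 : (univ.filter fun v : Fin n => (v : ℕ) < R).card ≤ (range R).card :=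
      Finset.card_le_card_of_injOn (fun v => (v : ℕ)) (fun v hv => by
        rw [Finset.mem_coe, Finset.mem_filter] at hv
        exact Finset.mem_coe.2 (Finset.mem_range.2 hv.2)) fun a _ b _ hab => Fin.ext hab
    rwa [Finset.card_range] at h3
  calc _ ≤ _ := Finset.card_le_card h1
    _ ≤ _ := Finset.card_image_le
    _ = _ := Finset.card_product _ _
    _ ≤ R * R := Nat.mul_le_mul h2 h2

/-- the pairs `(G, f)` such that `G` lies in `E` and `G` changed on the copy `f(H)` lies in `E` -/
def diffs {V : Type} (H : SimpleGraph V) {n : ℕ} (E : Finset (SimpleGraph (Fin n))) :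
    Set (SimpleGraph (Fin n) × (V ↪ Fin n)) :=
  {p | p.1 ∈ E ∧ ∃ G' ∈ E, (p.1 \ G') ⊔ (G' \ p.1) = H.map p.2}

/-- Many pairs `(G, π)` that lead to `H`-differences in `D` give many `H`-differences. -/
theorem count_diffs {V : Type} [Fintype V] (H : SimpleGraph V) {n R : ℕ}
    (D : Finset (SimpleGraph (Fin n))) (S : Finset (SimpleGraph (Fin n) × Equiv.Perm (Fin n)))
    (Y : SimpleGraph (Fin n) → Equiv.Perm (Fin n) → Finset (Sym2 (Fin n)))
    (f : SimpleGraph (Fin n) → Equiv.Perm (Fin n) → V ↪ Fin n)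
    (hY : ∀ (G : SimpleGraph (Fin n)) (π : Equiv.Perm (Fin n)), ∀ z ∈ Y G π, ∀ v ∈ z,
      (π.symm v : ℕ) < R)
    (hf : ∀ (G : SimpleGraph (Fin n)) (π : Equiv.Perm (Fin n)) (v : V), (π.symm (f G π v) : ℕ) < R)
    (hS : ∀ x ∈ S, (tog x.1 (Y x.1 x.2), f x.1 x.2) ∈ diffs H D) :
    S.card * Nat.card (V ↪ Fin n) ≤
      (diffs H D).ncard * (R ^ Fintype.card V * n.factorial * 2 ^ (R * R)) := by
  classical
  set S₀ : Finset (Sym2 (Fin n)) := univ.filter fun z => ∀ v ∈ z, (v : ℕ) < R with hS₀
  have hS₀card : S₀.card ≤ R * R := small_pairs_card n R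
  have hfin : (diffs H D).Finite := Set.toFinite _
  set D' : Finset (SimpleGraph (Fin n) × (V ↪ Fin n)) := hfin.toFinset with hD'
  have hDcard : (diffs H D).ncard = D'.card := Set.ncard_eq_toFinset_card _ hfin
  have hmaps : ∀ x ∈ S, (tog x.1 (Y x.1 x.2), f x.1 x.2) ∈ D' := by
    intro x hx
    rw [hD', Set.Finite.mem_toFinset]
    exact hS x hx
  have hfib : ∀ y ∈ D', (S.filter fun x =>
      (tog x.1 (Y x.1 x.2), f x.1 x.2) = y).card ≤ (through R y.2).card * 2 ^ (R * R) := by
    rintro ⟨G₁, g⟩ _
    have h1 : (S.filter fun x => (tog x.1 (Y x.1 x.2), f x.1 x.2) = (G₁, g)) ⊆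
        ((through R g) ×ˢ S₀.powerset).image
          fun t => (tog G₁ (t.2.image (Sym2.map t.1)), t.1) := by
      rintro ⟨G, π⟩ hx
      rw [Finset.mem_filter, Prod.mk.injEq] at hx
      obtain ⟨_, h2, h3⟩ := hx
      simp only at h2 h3
      rw [Finset.mem_image]
      refine ⟨(π, (Y G π).image (Sym2.map π.symm)), ?_, ?_⟩
      · rw [Finset.mem_product, Finset.mem_powerset]
        constructor
        · unfold through
          rw [Finset.mem_filter]
          exact ⟨Finset.mem_univ _, fun v => by simpa [h3] using hf G π v⟩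
        · intro z hz
          obtain ⟨y, hy, rfl⟩ := Finset.mem_image.1 hz
          rw [hS₀, Finset.mem_filter]
          refine ⟨Finset.mem_univ _, fun v hv => ?_⟩
          obtain ⟨u, hu, rfl⟩ := Sym2.mem_map.1 hv
          exact hY G π y hy u hu
      · have h4 : ((Y G π).image (Sym2.map π.symm)).image (Sym2.map π) = Y G π := by
          rw [Finset.image_image]
          have h5 : (Sym2.map π ∘ Sym2.map π.symm : Sym2 (Fin n) → Sym2 (Fin n)) = id := by
            rw [← Sym2.map_comp]
            simp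
          rw [h5, Finset.image_id]
        simp only [h4, Prod.mk.injEq, and_true]
        rw [← h2, tog_tog]
    calc _ ≤ _ := Finset.card_le_card h1
      _ ≤ _ := Finset.card_image_le
      _ = (through R g).card * 2 ^ S₀.card := by rw [Finset.card_product, Finset.card_powerset]
      _ ≤ _ := Nat.mul_le_mul_left _ (Nat.pow_le_pow_right (by norm_num) hS₀card)
  have hsum : S.card ≤ ∑ y ∈ D', (through R y.2).card * 2 ^ (R * R) := by
    rw [Finset.card_eq_sum_card_fiberwise hmaps]
    exact Finset.sum_le_sum hfib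
  rw [hDcard, Nat.card_eq_fintype_card]
  calc S.card * Fintype.card (V ↪ Fin n) ≤
      (∑ y ∈ D', (through R y.2).card * 2 ^ (R * R)) * Fintype.card (V ↪ Fin n) :=
        Nat.mul_le_mul_right _ hsum
    _ = ∑ y ∈ D', (through R y.2).card * Fintype.card (V ↪ Fin n) * 2 ^ (R * R) := by
        rw [Finset.sum_mul]
        exact Finset.sum_congr rfl fun y _ => by ring
    _ ≤ ∑ y ∈ D', R ^ Fintype.card V * n.factorial * 2 ^ (R * R) :=
        Finset.sum_le_sum fun y _ => Nat.mul_le_mul_right _ (through_card_le R y.2)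
    _ = _ := by rw [Finset.sum_const, smul_eq_mul]

/-- An `H`-code inside a family with a positive proportion of `H`-differences misses a positive
proportion of the family. -/
theorem code_bound {V : Type} [Fintype V] (H : SimpleGraph V) (hne : H.edgeSet.Nonempty)
    {n : ℕ} (hn : Fintype.card V ≤ n) (K : ℕ) (hK : 0 < K) (E F : Finset (SimpleGraph (Fin n)))
    (hE : E.card * Nat.card (V ↪ Fin n) ≤ K * (diffs H E).ncard)
    (hFE : F ⊆ E) (hF : IsCode H F) : (F.card : ℝ) ≤ (1 - 1 / (2 * K)) * E.card := by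
  classical
  have hfin : (diffs H E).Finite := Set.toFinite _
  set D : Finset (SimpleGraph (Fin n) × (V ↪ Fin n)) := hfin.toFinset with hD
  have hDcard : (diffs H E).ncard = D.card := Set.ncard_eq_toFinset_card _ hfin
  have hemb : 0 < Fintype.card (V ↪ Fin n) := by
    rw [Fintype.card_embedding_eq, Fintype.card_fin]
    exact Nat.pos_of_ne_zero (by rw [Ne, Nat.descFactorial_eq_zero_iff_lt]; omega)
  set W : Finset (SimpleGraph (Fin n) × (V ↪ Fin n)) := (E \ F) ×ˢ univ with hW
  have hWcard : W.card = (E \ F).card * Fintype.card (V ↪ Fin n) := by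
    rw [hW, Finset.card_product, Finset.card_univ]
  have hsub : D ⊆ W ∪ W.image fun p => (symmDiff p.1 (H.map p.2), p.2) := by
    rintro ⟨G, f⟩ hp
    rw [hD, Set.Finite.mem_toFinset] at hp
    obtain ⟨hG, G', hG', hGG⟩ := hp
    simp only at hG hGG
    rw [Finset.mem_union]
    by_cases h1 : G ∈ F
    · right
      have h2 : G' ∉ F := by
        intro h2
        refine hF G h1 G' h2 (fun h3 => ?_) f hGG
        rw [h3] at hGG
        obtain ⟨e, he'⟩ := hne
        induction e with
        | _ a b =>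
          have h4 : (H.map f).Adj (f a) (f b) := (SimpleGraph.map_adj_apply).2 he'
          rw [← hGG] at h4
          simp at h4
      rw [Finset.mem_image]
      refine ⟨(G', f), ?_, ?_⟩
      · rw [hW, Finset.mem_product, Finset.mem_sdiff]
        exact ⟨⟨hG', h2⟩, Finset.mem_univ _⟩
      · have h3 : symmDiff G G' = H.map f := hGG
        simp only [Prod.mk.injEq, and_true]
        rw [← h3, symmDiff_comm G G', symmDiff_symmDiff_cancel_left]
    · left
      rw [hW, Finset.mem_product, Finset.mem_sdiff]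
      exact ⟨⟨hG, h1⟩, Finset.mem_univ _⟩
  have h1 : D.card ≤ 2 * ((E \ F).card * Fintype.card (V ↪ Fin n)) := by
    calc D.card ≤ _ := Finset.card_le_card hsub
      _ ≤ _ := Finset.card_union_le _ _
      _ ≤ W.card + W.card := Nat.add_le_add_left Finset.card_image_le _
      _ = _ := by rw [hWcard]; ring
  have h2 : E.card ≤ K * (2 * (E \ F).card) := by
    refine Nat.le_of_mul_le_mul_right ?_ hemb
    rw [Nat.card_eq_fintype_card, hDcard] at hE
    calc _ ≤ _ := hE
      _ ≤ K * (2 * ((E \ F).card * Fintype.card (V ↪ Fin n))) := Nat.mul_le_mul_left _ h1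
      _ = _ := by ring
  have hsum : (E \ F).card + F.card = E.card := Finset.card_sdiff_add_card_eq_card hFE
  have h3 : (E.card : ℝ) ≤ K * (2 * ((E \ F).card : ℝ)) := by exact_mod_cast h2
  have h4 : ((E \ F).card : ℝ) + F.card = E.card := by exact_mod_cast hsum
  have hK' : (0 : ℝ) < K := by exact_mod_cast hK
  have h5 : 1 / (2 * (K : ℝ)) * E.card ≤ ((E \ F).card : ℝ) := by
    rw [div_mul_eq_mul_div, one_mul, div_le_iff₀ (by positivity)]
    linarith
  linarith

end Pool.Agent.Lib.MP_2d96d7_co.Poly
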