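import Pool.Agent.Lib.MP_2d96d7_co.Poly.Gadget

set_option autoImplicit false

/-!
Polynomial graph-codes: functions of bounded degree of a set of edges.
-/

namespace Pool.Agent.Lib.MP_2d96d7_co.Poly

open Finset

section Deg

/-- `f` is a polynomial of degree at most `d` in the indicators of the elements of the set. -/
def IsDeg {E A : Type*} [AddCommMonoid A] (d : ℕ) (f : Finset E → A) : Prop :=
  ∃ c : Finset E → A, (∀ F, d < F.card → c F = 0) ∧ ∀ Y, f Y = ∑ F ∈ Y.powerset, c F

lemma IsDeg.pi {E κ : Type*} {A : κ → Type*} [∀ i, AddCommMonoid (A i)] {d : ℕ}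
    {f : ∀ i, Finset E → A i} (h : ∀ i, IsDeg d (f i)) : IsDeg d fun Y => fun i => f i Y := by
  choose c h1 h2 using h
  refine ⟨fun F i => c i F, fun F hF => funext fun i => h1 i F hF, fun Y => funext fun i => ?_⟩
  rw [Finset.sum_apply]
  exact h2 i Y

lemma IsDeg.prodMk {E : Type*} {A B : Type*} [AddCommMonoid A] [AddCommMonoid B] {d : ℕ}
    {f : Finset E → A} {g : Finset E → B} (hf : IsDeg d f) (hg : IsDeg d g) :
    IsDeg d fun Y => (f Y, g Y) := by
  obtain ⟨c, h1, h2⟩ := hf
  obtain ⟨c', h1', h2'⟩ := hg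
  refine ⟨fun F => (c F, c' F), fun F hF => Prod.ext (h1 F hF) (h1' F hF), fun Y => ?_⟩
  refine Prod.ext ?_ ?_
  · rw [Prod.fst_sum]
    exact h2 Y
  · rw [Prod.snd_sum]
    exact h2' Y

variable {E R : Type*} [DecidableEq E] [CommRing R]

set_option linter.unusedSectionVars false

lemma IsDeg.const (a : R) : IsDeg (E := E) 0 fun _ => a := by
  refine ⟨fun F => if F = ∅ then a else 0, fun F hF => ?_, fun Y => ?_⟩ <;> beta_reduce
  · rw [if_neg]
    rintro rfl
    simp at hF
  · rw [Finset.sum_ite_eq' Y.powerset ∅ (fun _ => a)]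
    simp

lemma IsDeg.mono {d d' : ℕ} {f : Finset E → R} (h : IsDeg d f) (hd : d ≤ d') : IsDeg d' f := by
  obtain ⟨c, h1, h2⟩ := h
  exact ⟨c, fun F hF => h1 F (by omega), h2⟩

lemma IsDeg.add {d : ℕ} {f g : Finset E → R} (hf : IsDeg d f) (hg : IsDeg d g) :
    IsDeg d fun Y => f Y + g Y := by
  obtain ⟨c, h1, h2⟩ := hf
  obtain ⟨c', h1', h2'⟩ := hg
  refine ⟨fun F => c F + c' F, fun F hF => by beta_reduce; rw [h1 F hF, h1' F hF, add_zero],
    fun Y => ?_⟩
  beta_reduce
  rw [Finset.sum_add_distrib, h2, h2']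

lemma IsDeg.smul {d : ℕ} {f : Finset E → R} (hf : IsDeg d f) (a : R) :
    IsDeg d fun Y => a * f Y := by
  obtain ⟨c, h1, h2⟩ := hf
  refine ⟨fun F => a * c F, fun F hF => by beta_reduce; rw [h1 F hF, mul_zero], fun Y => ?_⟩
  beta_reduce
  rw [← Finset.mul_sum, h2]

lemma IsDeg.sum {d : ℕ} {ι : Type*} (s : Finset ι) (f : ι → Finset E → R)
    (hf : ∀ i ∈ s, IsDeg d (f i)) : IsDeg d fun Y => ∑ i ∈ s, f i Y := by
  classical
  induction s using Finset.induction_on with
  | empty => simpa using (IsDeg.const (E := E) (0 : R)).mono (Nat.zero_le d)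
  | insert i s hi ih =>
    have h1 := (hf i (Finset.mem_insert_self _ _)).add
      (ih fun j hj => hf j (Finset.mem_insert_of_mem hj))
    simpa only [Finset.sum_insert hi] using h1

lemma IsDeg.mulX {d : ℕ} {f : Finset E → R} (hf : IsDeg d f) (e : E) :
    IsDeg (d + 1) fun Y => f Y * if e ∈ Y then 1 else 0 := by
  obtain ⟨c, h1, h2⟩ := hf
  refine ⟨fun F => if e ∈ F then c F + c (F.erase e) else 0, fun F hF => ?_, fun Y => ?_⟩ <;>
    beta_reduce
  · by_cases he : e ∈ F
    · rw [if_pos he, h1 F (by omega), h1 (F.erase e) ?_, add_zero]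
      rw [Finset.card_erase_of_mem he]; omega
    · rw [if_neg he]
  · by_cases he : e ∈ Y
    · rw [if_pos he, mul_one, h2, ← Finset.sum_filter]
      rw [← Finset.sum_filter_add_sum_filter_not Y.powerset (fun F => e ∈ F) c,
        Finset.sum_add_distrib]
      congr 1
      refine Finset.sum_nbij' (fun F => insert e F) (fun F => F.erase e) ?_ ?_ ?_ ?_ ?_
      · intro F hF
        rw [Finset.mem_filter, Finset.mem_powerset] at hF ⊢
        exact ⟨Finset.insert_subset he hF.1, Finset.mem_insert_self _ _⟩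
      · intro F hF
        rw [Finset.mem_filter, Finset.mem_powerset] at hF ⊢
        exact ⟨(Finset.erase_subset _ _).trans hF.1, Finset.notMem_erase _ _⟩
      · intro F hF
        rw [Finset.mem_filter] at hF
        exact Finset.erase_insert hF.2
      · intro F hF
        rw [Finset.mem_filter] at hF
        exact Finset.insert_erase hF.2
      · intro F hF
        rw [Finset.mem_filter] at hF
        rw [Finset.erase_insert hF.2]
    · rw [if_neg he, mul_zero, eq_comm]
      refine Finset.sum_eq_zero fun F hF => ?_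
      rw [if_neg fun h => he (Finset.mem_powerset.1 hF h)]

end Deg

section Graph

variable {n : ℕ}

/-- `G₀` changed on the set of pairs `Y` -/
def tog (G₀ : SimpleGraph (Fin n)) (Y : Finset (Sym2 (Fin n))) : SimpleGraph (Fin n) :=
  SimpleGraph.fromEdgeSet (symmDiff G₀.edgeSet (Y : Set (Sym2 (Fin n))))

lemma mem_tog {G₀ : SimpleGraph (Fin n)} {Y : Finset (Sym2 (Fin n))} {e : Sym2 (Fin n)} :
    e ∈ (tog G₀ Y).edgeSet ↔ ((e ∈ G₀.edgeSet ∧ e ∉ Y) ∨ (e ∈ Y ∧ e ∉ G₀.edgeSet)) ∧
      ¬ e.IsDiag := by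
  unfold tog
  rw [SimpleGraph.edgeSet_fromEdgeSet]
  simp [Set.mem_symmDiff]

open Classical in
/-- the indicator vector of the edges of a graph -/
noncomputable def ind (R : Type*) [CommRing R] (G : SimpleGraph (Fin n)) (e : Sym2 (Fin n)) : R :=
  if e ∈ G.edgeSet then 1 else 0

lemma ind_tog (R : Type*) [CommRing R] (G₀ : SimpleGraph (Fin n)) (e : Sym2 (Fin n)) :
    (∀ Y, ind R (tog G₀ Y) e = 0) ∨ (∀ Y, ind R (tog G₀ Y) e = if e ∈ Y then 1 else 0) ∨
      (∀ Y, ind R (tog G₀ Y) e = 1 + (-1) * if e ∈ Y then 1 else 0) := by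
  classical
  by_cases hd : e.IsDiag
  · left
    intro Y
    unfold ind
    rw [if_neg]
    rw [mem_tog]
    tauto
  · right
    by_cases he : e ∈ G₀.edgeSet
    · right
      intro Y
      unfold ind
      by_cases hY : e ∈ Y
      · rw [if_neg, if_pos hY]
        · ring
        · rw [mem_tog]; tauto
      · rw [if_pos, if_neg hY]
        · ring
        · rw [mem_tog]; tauto
    · left
      intro Y
      unfold ind
      by_cases hY : e ∈ Y
      · rw [if_pos, if_pos hY]
        rw [mem_tog]; tauto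
      · rw [if_neg, if_neg hY]
        rw [mem_tog]; tauto

lemma IsDeg.mulInd {R : Type*} [CommRing R] {d : ℕ} {f : Finset (Sym2 (Fin n)) → R}
    (hf : IsDeg d f) (G₀ : SimpleGraph (Fin n)) (e : Sym2 (Fin n)) :
    IsDeg (d + 1) fun Y => f Y * ind R (tog G₀ Y) e := by
  rcases ind_tog R G₀ e with h | h | h
  · simp only [h, mul_zero]
    exact (IsDeg.const (E := Sym2 (Fin n)) (0 : R)).mono (Nat.zero_le _)
  · simp only [h]
    exact hf.mulX e
  · have h1 : IsDeg (d + 1) fun Y => f Y + (-1) * (f Y * if e ∈ Y then 1 else 0) :=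
      (hf.mono (Nat.le_succ d)).add ((hf.mulX e).smul (-1))
    refine cast ?_ h1
    congr 1
    funext Y
    rw [h]
    ring

lemma ind_pow {R : Type*} [CommRing R] (G : SimpleGraph (Fin n)) (e : Sym2 (Fin n)) {a : ℕ}
    (ha : a ≠ 0) : ind R G e ^ a = ind R G e := by
  unfold ind
  split_ifs
  · rw [one_pow]
  · rw [zero_pow ha]

lemma isDeg_prod {R : Type*} [CommRing R] (G₀ : SimpleGraph (Fin n))
    (T : Finset (Sym2 (Fin n))) : IsDeg T.card fun Y => ∏ e ∈ T, ind R (tog G₀ Y) e := by
  classical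
  induction T using Finset.induction_on with
  | empty => simpa using IsDeg.const (E := Sym2 (Fin n)) (1 : R)
  | insert e T he ih =>
    rw [Finset.card_insert_of_notMem he]
    have h1 := ih.mulInd G₀ e
    refine cast ?_ h1
    congr 1
    funext Y
    rw [Finset.prod_insert he, mul_comm]

/-- The value of a polynomial of degree at most `d` is a function of degree at most `d`. -/
theorem isDeg_eval {R : Type*} [CommRing R] (G₀ : SimpleGraph (Fin n)) {d : ℕ}
    (P : MvPolynomial (Sym2 (Fin n)) R) (hP : P.totalDegree ≤ d) :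
    IsDeg d fun Y => MvPolynomial.eval (ind R (tog G₀ Y)) P := by
  classical
  simp only [MvPolynomial.eval_eq]
  refine IsDeg.sum _ _ fun s hs => ?_
  refine IsDeg.smul ?_ _
  have h1 : s.support.card ≤ d := by
    refine le_trans ?_ ((MvPolynomial.le_totalDegree hs).trans hP)
    rw [Finsupp.sum, Finset.card_eq_sum_ones]
    refine Finset.sum_le_sum fun e he => ?_
    exact Nat.one_le_iff_ne_zero.2 (Finsupp.mem_support_iff.1 he)
  refine cast ?_ ((isDeg_prod (R := R) G₀ s.support).mono h1)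
  congr 1
  funext Y
  refine Finset.prod_congr rfl fun e he => ?_
  rw [ind_pow _ _ (Finsupp.mem_support_iff.1 he)]

end Graph

end Pool.Agent.Lib.MP_2d96d7_co.Poly
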