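import Mathlib

set_option autoImplicit false

/-!
Forms with values in a finite abelian group on the subsets of a finite set: independent forms with
long combinations are equidistributed, together with disjoint local patterns.
-/

namespace Pool.Agent.Lib.MP_2d96d7_co.Poly

open Finset

section Kappa

lemma norm_one_add_root_lt {q : ℕ} (hq : q ≠ 0) {z : ℂ} (hz : z ^ q = 1) (hz1 : z ≠ 1) :
    ‖1 + z‖ < 2 := by
  have h1 : ‖z‖ = 1 := Complex.norm_eq_one_of_pow_eq_one hz hq
  have h2 : ‖(1 : ℂ) + z‖ ≤ 2 := by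
    refine (norm_add_le _ _).trans ?_
    rw [norm_one, h1]; norm_num
  refine lt_of_le_of_ne h2 fun h3 => hz1 ?_
  have h4 : ‖(1 : ℂ) + z‖ = ‖(1 : ℂ)‖ + ‖z‖ := by rw [h3, norm_one, h1]; norm_num
  have h5 : SameRay ℝ (1 : ℂ) z := sameRay_iff_norm_add.2 h4
  have h6 := h5.norm_smul_eq
  rw [h1, norm_one, one_smul, one_smul] at h6
  exact h6

/-- a bound for `1 + z`, `z ≠ 1` a root of unity of bounded order -/
lemma exists_kap (q : ℕ) (hq : q ≠ 0) : ∃ κ : ℝ, 0 < κ ∧ κ < 1 ∧
    ∀ z : ℂ, z ^ q = 1 → z ≠ 1 → ‖1 + z‖ ≤ 2 * κ := by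
  classical
  have hfin : {z : ℂ | z ^ q = 1}.Finite := by
    have h1 : {z : ℂ | z ^ q = 1} ⊆ (Polynomial.nthRootsFinset q (1 : ℂ) : Set ℂ) := by
      intro z hz
      rw [Finset.mem_coe, Polynomial.mem_nthRootsFinset (Nat.pos_of_ne_zero hq)]
      exact hz
    exact (Finset.finite_toSet _).subset h1
  have h1 : ∀ z : ℂ, ∃ κ : ℝ, 0 < κ ∧ κ < 1 ∧ (z ^ q = 1 → z ≠ 1 → ‖1 + z‖ ≤ 2 * κ) := by
    intro z
    by_cases hz : z ^ q = 1 ∧ z ≠ 1
    · have h2 := norm_one_add_root_lt hq hz.1 hz.2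
      refine ⟨(‖1 + z‖ / 2 + 1) / 2, by positivity, by linarith, fun _ _ => by linarith⟩
    · exact ⟨1 / 2, by norm_num, by norm_num, fun h1 h2 => absurd ⟨h1, h2⟩ hz⟩
  choose κ h2 h3 h4 using h1
  obtain ⟨z₀, _, hz₀⟩ := Finset.exists_max_image hfin.toFinset κ
    ⟨1, by rw [Set.Finite.mem_toFinset]; exact one_pow q⟩
  refine ⟨κ z₀, h2 z₀, h3 z₀, fun z hz hz1 => (h4 z hz hz1).trans
    (mul_le_mul_of_nonneg_left (hz₀ z ?_) (by norm_num))⟩
  rw [Set.Finite.mem_toFinset]
  exact hz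

end Kappa

section Toggle

variable {ι : Type} [Fintype ι] [DecidableEq ι]

omit [Fintype ι] in
lemma symmDiff_inter_eq {x X ξ ξ' : Finset ι} (hξ : ξ ⊆ X) (hξ' : ξ' ⊆ X) (h : x ∩ X = ξ) :
    (symmDiff x (symmDiff ξ ξ')) ∩ X = ξ' := by
  subst h
  ext e
  have h1 := @hξ' e
  simp only [Finset.mem_inter, Finset.mem_symmDiff]
  by_cases a : e ∈ x <;> by_cases b : e ∈ X <;> by_cases c : e ∈ ξ' <;> simp_all

/-- the weight of a pattern on `X` for a function that does not depend on `X` -/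
lemma sum_pattern (X ξ : Finset ι) (hξ : ξ ⊆ X) (g : Finset ι → ℝ)
    (hg : ∀ x Z : Finset ι, Z ⊆ X → g (symmDiff x Z) = g x) :
    2 ^ X.card * ∑ x : Finset ι, (if x ∩ X = ξ then g x else 0) = ∑ x, g x := by
  have h1 : ∀ ξ' ∈ X.powerset, ∑ x ∈ univ.filter (fun x : Finset ι => x ∩ X = ξ'), g x =
      ∑ x : Finset ι, (if x ∩ X = ξ then g x else 0) := by
    intro ξ' hξ'
    rw [Finset.mem_powerset] at hξ'
    rw [← Finset.sum_filter]
    refine Finset.sum_nbij' (fun x => symmDiff x (symmDiff ξ' ξ))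
      (fun x => symmDiff x (symmDiff ξ ξ')) ?_ ?_ ?_ ?_ ?_
    · intro x hx
      rw [Finset.mem_filter] at hx ⊢
      exact ⟨Finset.mem_univ _, symmDiff_inter_eq hξ' hξ hx.2⟩
    · intro x hx
      rw [Finset.mem_filter] at hx ⊢
      exact ⟨Finset.mem_univ _, symmDiff_inter_eq hξ hξ' hx.2⟩
    · intro x _
      rw [symmDiff_comm ξ ξ', symmDiff_symmDiff_cancel_right]
    · intro x _
      rw [symmDiff_comm ξ ξ', symmDiff_symmDiff_cancel_right]
    · intro x _
      refine (hg x _ ?_).symm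
      intro e he
      rcases Finset.mem_symmDiff.1 he with h | h
      · exact hξ' h.1
      · exact hξ h.1
  have h2 : ∑ ξ' ∈ X.powerset, ∑ x ∈ univ.filter (fun x : Finset ι => x ∩ X = ξ'), g x =
      ∑ x, g x :=
    Finset.sum_fiberwise_of_maps_to (fun x _ => Finset.mem_powerset.2 Finset.inter_subset_right) g
  rw [← h2, Finset.sum_congr rfl h1, Finset.sum_const, Finset.card_powerset, nsmul_eq_mul]
  push_cast
  rfl

/-- disjoint patterns are independent -/
lemma sum_prod_patterns {J : Type} [DecidableEq J] (S : Finset J) (X ξ : J → Finset ι)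
    (hξ : ∀ j, ξ j ⊆ X j) (hdisj : ∀ i j, i ≠ j → Disjoint (X i) (X j)) (c : ℝ) :
    ∑ x : Finset ι, ∏ j ∈ S, (1 - if x ∩ X j = ξ j then c else 0) =
      (∏ j ∈ S, (1 - c / 2 ^ (X j).card)) * 2 ^ Fintype.card ι := by
  induction S using Finset.induction_on with
  | empty =>
    simp only [Finset.prod_empty, Finset.sum_const, Finset.card_univ, Fintype.card_finset,
      nsmul_eq_mul, mul_one, one_mul]
    push_cast
    rfl
  | insert i S hi ih =>
    set g : Finset ι → ℝ := fun x => ∏ j ∈ S, (1 - if x ∩ X j = ξ j then c else 0) with hg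
    have hinv : ∀ x Z : Finset ι, Z ⊆ X i → g (symmDiff x Z) = g x := by
      intro x Z hZ
      simp only [hg]
      refine Finset.prod_congr rfl fun j hj => ?_
      have hij : i ≠ j := fun h => hi (h ▸ hj)
      have h1 : symmDiff x Z ∩ X j = x ∩ X j := by
        ext e
        have h2 := Finset.disjoint_left.1 (hdisj i j hij)
        have h3 := @hZ e
        simp only [Finset.mem_inter, Finset.mem_symmDiff]
        by_cases a : e ∈ X j
        · have : e ∉ Z := fun h => h2 (h3 h) a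
          simp [this]
        · simp [a]
      rw [h1]
    have h1 := sum_pattern (X i) (ξ i) (hξ i) g hinv
    have h2 : ∑ x : Finset ι, (if x ∩ X i = ξ i then g x else 0) =
        (∑ x, g x) / 2 ^ (X i).card := by
      rw [← h1]
      field_simp
    rw [Finset.prod_insert hi]
    have h3 : ∀ x : Finset ι, ∏ j ∈ insert i S, (1 - if x ∩ X j = ξ j then c else 0) =
        g x - c * (if x ∩ X i = ξ i then g x else 0) := by
      intro x
      rw [Finset.prod_insert hi]
      simp only [hg]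
      split_ifs <;> ring
    rw [Finset.sum_congr rfl fun x _ => h3 x, Finset.sum_sub_distrib, ← Finset.mul_sum, h2]
    have h4 : ∑ x, g x = (∏ j ∈ S, (1 - c / 2 ^ (X j).card)) * 2 ^ Fintype.card ι := ih
    rw [h4]
    ring

/-- a multiplicative sum with a bounded weight that depends on few coordinates only -/
lemma norm_sum_le_of_local (X : Finset ι) (h : Finset ι → ℂ) (hh : ∀ x, ‖h x‖ ≤ 1)
    (hdep : ∀ x x' : Finset ι, x ∩ X = x' ∩ X → h x = h x') (z : ι → ℂ) (hz : ∀ e, ‖z e‖ ≤ 1)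
    {κ : ℝ} (hκ0 : 0 < κ) (hκ1 : κ < 1) {R : ℕ} (hzκ : ∀ e, z e ≠ 1 → ‖1 + z e‖ ≤ 2 * κ)
    (hR : R ≤ (univ.filter fun e => z e ≠ 1).card) :
    ‖∑ x : Finset ι, h x * ∏ e ∈ x, z e‖ ≤ κ ^ (R - X.card) * 2 ^ Fintype.card ι := by
  have h1 : ∑ x : Finset ι, h x * ∏ e ∈ x, z e =
      ∑ p ∈ X.powerset ×ˢ Xᶜ.powerset, (h p.1 * ∏ e ∈ p.1, z e) * ∏ e ∈ p.2, z e := by
    refine Finset.sum_nbij' (fun x => (x ∩ X, x ∩ Xᶜ)) (fun p => p.1 ∪ p.2) ?_ ?_ ?_ ?_ ?_
    · intro x _
      rw [Finset.mem_product, Finset.mem_powerset, Finset.mem_powerset]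
      exact ⟨Finset.inter_subset_right, Finset.inter_subset_right⟩
    · intro p _
      exact Finset.mem_univ _
    · intro x _
      rw [← Finset.inter_union_distrib_left, Finset.union_compl, Finset.inter_univ]
    · rintro ⟨a, b⟩ hp
      rw [Finset.mem_product, Finset.mem_powerset, Finset.mem_powerset] at hp
      obtain ⟨ha, hb⟩ := hp
      simp only at ha hb ⊢
      refine Prod.ext ?_ ?_
      · ext e
        have h2 := @ha e
        have h3 := @hb e
        rw [Finset.mem_compl] at h3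
        simp only [Finset.mem_inter, Finset.mem_union]
        tauto
      · ext e
        have h2 := @ha e
        have h3 := @hb e
        rw [Finset.mem_compl] at h3
        simp only [Finset.mem_inter, Finset.mem_union, Finset.mem_compl]
        tauto
    · intro x _
      rw [mul_assoc, ← Finset.prod_union]
      · rw [← Finset.inter_union_distrib_left, Finset.union_compl, Finset.inter_univ]
        congr 1
        refine hdep _ _ ?_
        rw [Finset.inter_assoc, Finset.inter_self]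
      · rw [Finset.disjoint_left]
        intro e he he'
        rw [Finset.mem_inter] at he he'
        exact (Finset.mem_compl.1 he'.2) he.2
  rw [h1, Finset.sum_product]
  have h2 : ∀ y ∈ X.powerset, ∑ b ∈ Xᶜ.powerset, (h y * ∏ e ∈ y, z e) * ∏ e ∈ b, z e =
      (h y * ∏ e ∈ y, z e) * ∏ e ∈ Xᶜ, (1 + z e) := by
    intro y _
    rw [← Finset.mul_sum, Finset.prod_one_add]
  rw [Finset.sum_congr rfl h2, ← Finset.sum_mul, norm_mul]
  have h3 : ‖∑ y ∈ X.powerset, h y * ∏ e ∈ y, z e‖ ≤ 2 ^ X.card := by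
    refine (norm_sum_le _ _).trans ?_
    have h4 : ∀ y ∈ X.powerset, ‖h y * ∏ e ∈ y, z e‖ ≤ 1 := by
      intro y _
      rw [norm_mul, norm_prod]
      exact mul_le_one₀ (hh y) (Finset.prod_nonneg fun _ _ => norm_nonneg _)
        (Finset.prod_le_one (fun _ _ => norm_nonneg _) fun e _ => hz e)
    refine (Finset.sum_le_sum h4).trans (le_of_eq ?_)
    rw [Finset.sum_const, Finset.card_powerset, nsmul_eq_mul, mul_one]
    push_cast
    rfl
  have h5 : ‖∏ e ∈ Xᶜ, (1 + z e)‖ ≤ κ ^ (R - X.card) * 2 ^ (Xᶜ).card := by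
    rw [norm_prod]
    have h6 : ∀ e ∈ Xᶜ, ‖1 + z e‖ ≤ 2 * (if z e ≠ 1 then κ else 1) := by
      intro e _
      split_ifs with h7
      · exact hzκ e h7
      · rw [mul_one]
        refine (norm_add_le _ _).trans ?_
        have := hz e
        rw [norm_one]
        linarith
    refine (Finset.prod_le_prod (fun _ _ => norm_nonneg _) h6).trans ?_
    rw [Finset.prod_mul_distrib, Finset.prod_const, Finset.prod_ite, Finset.prod_const,
      Finset.prod_const_one, mul_one, mul_comm]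
    refine mul_le_mul_of_nonneg_right ?_ (by positivity)
    refine pow_le_pow_of_le_one hκ0.le hκ1.le ?_
    have h8 : (univ.filter fun e => z e ≠ 1) ⊆ X ∪ (Xᶜ.filter fun e => z e ≠ 1) := by
      intro e he
      rw [Finset.mem_filter] at he
      rw [Finset.mem_union, Finset.mem_filter, Finset.mem_compl]
      by_cases h9 : e ∈ X
      · exact Or.inl h9
      · exact Or.inr ⟨h9, he.2⟩
    have h10 := (Finset.card_le_card h8).trans (Finset.card_union_le _ _)
    omega
  calc _ ≤ 2 ^ X.card * (κ ^ (R - X.card) * 2 ^ (Xᶜ).card) :=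
        mul_le_mul h3 h5 (norm_nonneg _) (by positivity)
    _ = κ ^ (R - X.card) * 2 ^ (X.card + (Xᶜ).card) := by rw [pow_add]; ring
    _ = _ := by rw [Finset.card_add_card_compl]

end Toggle

section Patterns

variable {A : Type} [AddCommGroup A] [Fintype A]

omit [Fintype A] in
lemma psi_sum (ψ : AddChar A ℂ) {κ : Type*} (s : Finset κ) (f : κ → A) :
    ψ (∑ i ∈ s, f i) = ∏ i ∈ s, ψ (f i) := by
  classical
  induction s using Finset.induction_on with
  | empty => rw [Finset.sum_empty, Finset.prod_empty, AddChar.map_zero_eq_one]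
  | insert i s hi ih =>
    rw [Finset.sum_insert hi, Finset.prod_insert hi, AddChar.map_add_eq_mul, ih]

omit [Fintype A] in
lemma psi_pow {q : ℕ} (hq : ∀ a : A, q • a = 0) (ψ : AddChar A ℂ) (a : A) : ψ a ^ q = 1 := by
  rw [← AddChar.map_nsmul_eq_pow, hq, AddChar.map_zero_eq_one]

open Classical in
/-- the coefficients of the indicator of the complement of a pattern -/
noncomputable def gco (pat : Prop) (η : A) (ψ : AddChar A ℂ) : ℂ :=
  (if ψ = 0 then 1 else 0) - (if pat then 1 else 0) * ψ (-η) / Fintype.card A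

open Classical in
lemma gco_sum (pat : Prop) (η y : A) :
    ∑ ψ : AddChar A ℂ, gco pat η ψ * ψ y = 1 - if pat ∧ y = η then 1 else 0 := by
  have hA : (Fintype.card A : ℂ) ≠ 0 := by exact_mod_cast Fintype.card_ne_zero
  have h1 : ∀ ψ : AddChar A ℂ, gco pat η ψ * ψ y =
      (if ψ = 0 then ψ y else 0) - (if pat then 1 else 0) / Fintype.card A * ψ (y - η) := by
    intro ψ
    unfold gco
    rw [sub_eq_add_neg y η, AddChar.map_add_eq_mul]
    split_ifs <;> ring
  rw [Finset.sum_congr rfl fun ψ _ => h1 ψ, Finset.sum_sub_distrib, ← Finset.mul_sum,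
    AddChar.sum_apply_eq_ite, Finset.sum_ite_eq' univ (0 : AddChar A ℂ) fun ψ => ψ y,
    if_pos (Finset.mem_univ _), AddChar.zero_apply]
  congr 1
  by_cases h2 : pat <;> by_cases h3 : y = η
  · simp [h2, h3, hA]
  · simp [h2, h3, sub_eq_zero]
  · simp [h2]
  · simp [h2]

lemma norm_gco_le (pat : Prop) (η : A) (ψ : AddChar A ℂ) : ‖gco pat η ψ‖ ≤ 1 := by
  classical
  have hA1 : (1 : ℝ) ≤ Fintype.card A := by exact_mod_cast Fintype.card_pos
  have hA0 : (0 : ℝ) < Fintype.card A := by linarith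
  unfold gco
  by_cases hψ : ψ = 0
  · subst hψ
    rw [if_pos rfl, AddChar.zero_apply, mul_one]
    have h1 : (1 : ℂ) - (if pat then 1 else 0) / Fintype.card A =
        ((1 - (if pat then 1 else 0) / Fintype.card A : ℝ) : ℂ) := by
      push_cast
      split_ifs <;> simp
    rw [h1, Complex.norm_real, Real.norm_eq_abs, abs_le]
    have h2 : (0 : ℝ) ≤ (if pat then 1 else 0) / Fintype.card A := by
      split_ifs <;> positivity
    have h3 : (if pat then (1 : ℝ) else 0) / Fintype.card A ≤ 1 := by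
      rw [div_le_one hA0]
      split_ifs <;> linarith
    constructor <;> linarith
  · rw [if_neg hψ, zero_sub, norm_neg, norm_div, norm_mul, AddChar.norm_apply, mul_one,
      Complex.norm_natCast, div_le_one hA0]
    split_ifs
    · rw [norm_one]; exact hA1
    · rw [norm_zero]; exact hA0.le

variable {ι : Type} [Fintype ι] [DecidableEq ι]

/-- Few sets avoid many independent patterns. -/
theorem few_patterns {q : ℕ} (hq : ∀ a : A, q • a = 0) {κ : ℝ} (hκ0 : 0 < κ)
    (hκ1 : κ < 1) (hκ : ∀ z : ℂ, z ^ q = 1 → z ≠ 1 → ‖1 + z‖ ≤ 2 * κ) {k R t : ℕ}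
    (θ : Fin k → ι → A) (B : Fin k → AddSubgroup A) (hθ : ∀ j e, θ j e ∈ B j)
    (X ξ : Fin k → Finset ι) (hX : ∀ j, (X j).card ≤ t) (hξ : ∀ j, ξ j ⊆ X j)
    (hdisj : ∀ i j, i ≠ j → Disjoint (X i) (X j)) (η : Fin k → A) (hη : ∀ j, η j ∈ B j)
    (hR : ∀ ψ : Fin k → AddChar A ℂ, (∃ j, ∃ b ∈ B j, ψ j b ≠ 1) →
      R ≤ (univ.filter fun e => ∏ j, ψ j (θ j e) ≠ 1).card) :
    (({x | ∀ j, ¬ (x ∩ X j = ξ j ∧ ∑ e ∈ x, θ j e = η j)} : Set (Finset ι)).ncard : ℝ) ≤
      ((1 - 1 / Fintype.card A / 2 ^ t) ^ k + Fintype.card A ^ k * κ ^ (R - k * t)) *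
        2 ^ Fintype.card ι := by
  classical
  have hA1 : (1 : ℝ) ≤ Fintype.card A := by exact_mod_cast Fintype.card_pos
  have hA0 : (0 : ℝ) < Fintype.card A := by linarith
  set P0 : Finset (Fin k → AddChar A ℂ) :=
    Fintype.piFinset fun j => univ.filter fun ψ : AddChar A ℂ => ∀ b ∈ B j, ψ b = 1 with hP0
  set pat : Fin k → Finset ι → Prop := fun j x => x ∩ X j = ξ j with hpat
  have hmem : ∀ j (x : Finset ι), ∑ e ∈ x, θ j e ∈ B j := fun j x =>
    AddSubgroup.sum_mem _ fun e _ => hθ j e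
  -- the pointwise expansion
  have hexp : ∀ x : Finset ι, (if ∀ j, ¬ (x ∩ X j = ξ j ∧ ∑ e ∈ x, θ j e = η j) then (1 : ℂ)
      else 0) = ∑ ψ : Fin k → AddChar A ℂ, (∏ j, gco (pat j x) (η j) (ψ j)) *
        ∏ e ∈ x, ∏ j, ψ j (θ j e) := by
    intro x
    have h2 : (if ∀ j, ¬ (x ∩ X j = ξ j ∧ ∑ e ∈ x, θ j e = η j) then (1 : ℂ) else 0) =
        ∏ j, ∑ ψ : AddChar A ℂ, gco (pat j x) (η j) ψ * ψ (∑ e ∈ x, θ j e) := by
      simp only [gco_sum]
      by_cases h : ∀ j, ¬ (x ∩ X j = ξ j ∧ ∑ e ∈ x, θ j e = η j)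
      · rw [if_pos h, Finset.prod_eq_one fun j _ => by rw [if_neg (h j), sub_zero]]
      · rw [if_neg h]
        push Not at h
        obtain ⟨j, hj⟩ := h
        rw [Finset.prod_eq_zero (Finset.mem_univ j)]
        rw [if_pos hj, sub_self]
    rw [h2, Finset.prod_univ_sum, Fintype.piFinset_univ]
    refine Finset.sum_congr rfl fun ψ _ => ?_
    rw [Finset.prod_mul_distrib]
    congr 1
    rw [Finset.prod_comm]
    exact Finset.prod_congr rfl fun j _ => psi_sum _ _ _
  -- the main term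
  set mj : Fin k → ℝ := fun j =>
    ((univ.filter fun ψ : AddChar A ℂ => ∀ b ∈ B j, ψ b = 1).card : ℝ) / Fintype.card A with hmj
  have hcardψ : Fintype.card (AddChar A ℂ) = Fintype.card A := AddChar.card_eq
  have hmj1 : ∀ j, mj j ≤ 1 := by
    intro j
    simp only [hmj]
    rw [div_le_one hA0, ← hcardψ]
    exact_mod_cast Finset.card_le_univ _
  have hmj0 : ∀ j, 1 / Fintype.card A ≤ mj j := by
    intro j
    simp only [hmj]
    refine div_le_div_of_nonneg_right ?_ hA0.le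
    have : 0 < (univ.filter fun ψ : AddChar A ℂ => ∀ b ∈ B j, ψ b = 1).card :=
      Finset.card_pos.2 ⟨0, by simp⟩
    exact_mod_cast this
  set Mx : Finset ι → ℝ := fun x => ∏ j, (1 - if pat j x then mj j else 0) with hMx
  have hfac0 : ∀ x j, 0 ≤ (1 - if pat j x then mj j else 0 : ℝ) := by
    intro x j
    have := hmj1 j
    split_ifs <;> linarith
  have hmain : ∀ x : Finset ι, ∑ ψ ∈ P0, (∏ j, gco (pat j x) (η j) (ψ j)) *
      ∏ e ∈ x, ∏ j, ψ j (θ j e) = (Mx x : ℂ) := by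
    intro x
    have h1 : ∀ ψ ∈ P0, (∏ j, gco (pat j x) (η j) (ψ j)) * ∏ e ∈ x, ∏ j, ψ j (θ j e) =
        ∏ j, gco (pat j x) (η j) (ψ j) := by
      intro ψ hψ
      rw [hP0, Fintype.mem_piFinset] at hψ
      have h3 : ∏ e ∈ x, ∏ j, ψ j (θ j e) = 1 := by
        refine Finset.prod_eq_one fun e _ => Finset.prod_eq_one fun j _ => ?_
        exact (Finset.mem_filter.1 (hψ j)).2 _ (hθ j e)
      rw [h3, mul_one]
    rw [Finset.sum_congr rfl h1, hP0, ← Finset.prod_univ_sum]
    simp only [hMx]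
    push_cast
    refine Finset.prod_congr rfl fun j _ => ?_
    have h2 : ∀ ψ ∈ univ.filter (fun ψ : AddChar A ℂ => ∀ b ∈ B j, ψ b = 1),
        gco (pat j x) (η j) ψ = (if ψ = 0 then 1 else 0) -
          (if pat j x then 1 else 0) / Fintype.card A := by
      intro ψ hψ
      unfold gco
      rw [(Finset.mem_filter.1 hψ).2 _ ((B j).neg_mem (hη j)), mul_one]
      by_cases h3 : ψ = 0 <;> by_cases h4 : pat j x <;> simp [h3, h4]
    rw [Finset.sum_congr rfl h2, Finset.sum_sub_distrib, Finset.sum_ite_eq', Finset.sum_const,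
      if_pos (by rw [Finset.mem_filter]; exact ⟨Finset.mem_univ _, fun b _ => by
        rw [AddChar.zero_apply]⟩)]
    congr 1
    simp only [hmj]
    rw [nsmul_eq_mul]
    split_ifs
    · push_cast
      ring
    · simp
  -- the error term
  set Err : (Fin k → AddChar A ℂ) → ℂ := fun ψ => ∑ x : Finset ι,
    (∏ j, gco (pat j x) (η j) (ψ j)) * ∏ e ∈ x, ∏ j, ψ j (θ j e) with hErr
  have herr : ∀ ψ ∈ P0ᶜ, ‖Err ψ‖ ≤ κ ^ (R - k * t) * 2 ^ Fintype.card ι := by
    intro ψ hψ
    have hψ' : ∃ j, ∃ b ∈ B j, ψ j b ≠ 1 := by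
      rw [Finset.mem_compl, hP0, Fintype.mem_piFinset] at hψ
      push Not at hψ
      obtain ⟨j, hj⟩ := hψ
      rw [Finset.mem_filter, not_and] at hj
      have h1 := hj (Finset.mem_univ _)
      push Not at h1
      exact ⟨j, h1⟩
    have hXcard : (univ.biUnion X).card ≤ k * t := by
      refine Finset.card_biUnion_le.trans ((Finset.sum_le_sum fun j _ => hX j).trans (le_of_eq ?_))
      rw [Finset.sum_const, Finset.card_univ, Fintype.card_fin, smul_eq_mul]
    have hz1 : ∀ e, ‖∏ j, ψ j (θ j e)‖ ≤ 1 := by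
      intro e
      rw [norm_prod]
      exact Finset.prod_le_one (fun _ _ => norm_nonneg _) fun j _ => (AddChar.norm_apply _ _).le
    have hzκ : ∀ e, ∏ j, ψ j (θ j e) ≠ 1 → ‖1 + ∏ j, ψ j (θ j e)‖ ≤ 2 * κ := by
      intro e he
      refine hκ _ ?_ he
      rw [← Finset.prod_pow]
      exact Finset.prod_eq_one fun j _ => psi_pow hq _ _
    refine (norm_sum_le_of_local (univ.biUnion X) (fun x => ∏ j, gco (pat j x) (η j) (ψ j)) ?_ ?_
      (fun e => ∏ j, ψ j (θ j e)) hz1 hκ0 hκ1 hzκ (hR ψ hψ')).trans ?_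
    · intro x
      rw [norm_prod]
      exact Finset.prod_le_one (fun _ _ => norm_nonneg _) fun j _ => norm_gco_le _ _ _
    · intro x x' hxx
      refine Finset.prod_congr rfl fun j _ => ?_
      have h1 : x ∩ X j = x' ∩ X j := by
        have hsub : X j ⊆ univ.biUnion X := Finset.subset_biUnion_of_mem X (Finset.mem_univ j)
        ext e
        have h2 : e ∈ x ∩ univ.biUnion X ↔ e ∈ x' ∩ univ.biUnion X := by rw [hxx]
        have h3 := @hsub e
        rw [Finset.mem_inter, Finset.mem_inter] at h2 ⊢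
        tauto
      simp only [hpat]
      rw [h1]
    · refine mul_le_mul_of_nonneg_right ?_ (by positivity)
      exact pow_le_pow_of_le_one hκ0.le hκ1.le (by omega)
  -- the count
  have hfin : ({x | ∀ j, ¬ (x ∩ X j = ξ j ∧ ∑ e ∈ x, θ j e = η j)} : Set (Finset ι)).ncard =
      (univ.filter fun x : Finset ι => ∀ j, ¬ (x ∩ X j = ξ j ∧ ∑ e ∈ x, θ j e = η j)).card := by
    rw [Set.ncard_eq_toFinset_card']
    congr 1
    ext x
    rw [Set.mem_toFinset, Finset.mem_filter]
    exact ⟨fun h => ⟨Finset.mem_univ _, h⟩, fun h => h.2⟩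
  have hcount : ((univ.filter fun x : Finset ι =>
      ∀ j, ¬ (x ∩ X j = ξ j ∧ ∑ e ∈ x, θ j e = η j)).card : ℂ) =
      ((∑ x, Mx x : ℝ) : ℂ) + ∑ ψ ∈ P0ᶜ, Err ψ := by
    rw [Finset.card_filter]
    push_cast
    rw [Finset.sum_congr rfl fun x _ => hexp x]
    have h1 : ∀ x : Finset ι, ∑ ψ : Fin k → AddChar A ℂ, (∏ j, gco (pat j x) (η j) (ψ j)) *
        ∏ e ∈ x, ∏ j, ψ j (θ j e) = (Mx x : ℂ) + ∑ ψ ∈ P0ᶜ,
          (∏ j, gco (pat j x) (η j) (ψ j)) * ∏ e ∈ x, ∏ j, ψ j (θ j e) := by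
      intro x
      rw [← hmain x, Finset.sum_add_sum_compl]
    rw [Finset.sum_congr rfl fun x _ => h1 x, Finset.sum_add_distrib, Finset.sum_comm]
  have hMle : ∑ x, Mx x ≤ (1 - 1 / Fintype.card A / 2 ^ t) ^ k * 2 ^ Fintype.card ι := by
    have h1 : ∀ x : Finset ι, Mx x ≤
        ∏ j, (1 - if x ∩ X j = ξ j then (1 / Fintype.card A : ℝ) else 0) := by
      intro x
      refine Finset.prod_le_prod (fun j _ => hfac0 x j) fun j _ => ?_
      have h2 := hmj0 j
      simp only [hpat]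
      split_ifs <;> linarith
    refine (Finset.sum_le_sum fun x _ => h1 x).trans ?_
    rw [sum_prod_patterns univ X ξ hξ hdisj]
    refine mul_le_mul_of_nonneg_right ?_ (by positivity)
    have h3 : ∀ j ∈ (univ : Finset (Fin k)), (1 - 1 / Fintype.card A / 2 ^ (X j).card : ℝ) ≤
        1 - 1 / Fintype.card A / 2 ^ t := by
      intro j _
      have h4 : (2 : ℝ) ^ (X j).card ≤ 2 ^ t := pow_le_pow_right₀ (by norm_num) (hX j)
      have h5 : (1 : ℝ) / Fintype.card A / 2 ^ t ≤ 1 / Fintype.card A / 2 ^ (X j).card :=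
        div_le_div_of_nonneg_left (by positivity) (by positivity) h4
      linarith
    have h6 : ∀ j ∈ (univ : Finset (Fin k)),
        (0 : ℝ) ≤ 1 - 1 / Fintype.card A / 2 ^ (X j).card := by
      intro j _
      have h7 : (1 : ℝ) / Fintype.card A / 2 ^ (X j).card ≤ 1 := by
        rw [div_le_one (by positivity)]
        have h8 : (1 : ℝ) / Fintype.card A ≤ 1 := by rw [div_le_one hA0]; exact hA1
        exact h8.trans (one_le_pow₀ (by norm_num))
      linarith
    refine (Finset.prod_le_prod h6 h3).trans (le_of_eq ?_)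
    rw [Finset.prod_const, Finset.card_univ, Fintype.card_fin]
  have hM0 : 0 ≤ ∑ x, Mx x := Finset.sum_nonneg fun x _ => Finset.prod_nonneg fun j _ => hfac0 x j
  have hnorm : ((univ.filter fun x : Finset ι =>
      ∀ j, ¬ (x ∩ X j = ξ j ∧ ∑ e ∈ x, θ j e = η j)).card : ℝ) =
      ‖((∑ x, Mx x : ℝ) : ℂ) + ∑ ψ ∈ P0ᶜ, Err ψ‖ := by
    rw [← hcount, Complex.norm_natCast]
  rw [hfin, hnorm]
  refine (norm_add_le _ _).trans ?_
  rw [Complex.norm_real, Real.norm_eq_abs, abs_of_nonneg hM0, add_mul]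
  refine add_le_add hMle ?_
  refine (norm_sum_le _ _).trans ((Finset.sum_le_sum herr).trans ?_)
  rw [Finset.sum_const, nsmul_eq_mul, mul_assoc]
  refine mul_le_mul_of_nonneg_right ?_ (by positivity)
  have h9 : (P0ᶜ).card ≤ Fintype.card A ^ k := by
    refine (Finset.card_le_univ _).trans (le_of_eq ?_)
    rw [Fintype.card_fun, hcardψ, Fintype.card_fin]
  exact_mod_cast h9

end Patterns

end Pool.Agent.Lib.MP_2d96d7_co.Poly
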