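import Pool.Agent.Lib.MP_2d96d7_co.Poly.Block

set_option autoImplicit false

/-!
Polynomial graph-codes: the gadget. Two graphs that differ by a given graph with an even number of
edges and that are both invisible for homogeneous functions.
-/

namespace Pool.Agent.Lib.MP_2d96d7_co.Poly

open Finset

/-- the graph on `R` with adjacency function `w` -/
def gr (w : ℕ → ℕ → ZMod 2) (R : Finset ℕ) : Finset (Sym2 ℕ) :=
  ((R ×ˢ R).filter fun p => p.1 ≠ p.2 ∧ w p.1 p.2 = 1).image fun p => s(p.1, p.2)

lemma mem_gr {w : ℕ → ℕ → ZMod 2} (hw : ∀ x y, w x y = w y x) {R : Finset ℕ} {x y : ℕ} :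
    s(x, y) ∈ gr w R ↔ x ∈ R ∧ y ∈ R ∧ x ≠ y ∧ w x y = 1 := by
  unfold gr
  rw [Finset.mem_image]
  constructor
  · rintro ⟨⟨a, b⟩, hab, he⟩
    rw [Finset.mem_filter, Finset.mem_product] at hab
    obtain ⟨⟨ha, hb⟩, hne, h1⟩ := hab
    simp only at ha hb hne h1 he
    rw [Sym2.eq_iff] at he
    rcases he with ⟨rfl, rfl⟩ | ⟨rfl, rfl⟩
    · exact ⟨ha, hb, hne, h1⟩
    · exact ⟨hb, ha, hne.symm, by rw [hw]; exact h1⟩
  · rintro ⟨ha, hb, hne, h1⟩
    exact ⟨(x, y), by rw [Finset.mem_filter, Finset.mem_product]; exact ⟨⟨ha, hb⟩, hne, h1⟩, rfl⟩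

lemma gr_diag {w : ℕ → ℕ → ZMod 2} (hw : ∀ x y, w x y = w y x) {R : Finset ℕ} :
    ∀ z ∈ gr w R, ¬ z.IsDiag := by
  intro z hz
  induction z with
  | _ a b => simpa using ((mem_gr hw).1 hz).2.2.1

lemma gr_mem_VS {w : ℕ → ℕ → ZMod 2} (hw : ∀ x y, w x y = w y x) {R : Finset ℕ} {v : ℕ}
    (hv : v ∈ VS (gr w R)) : v ∈ R := by
  obtain ⟨z, hz, hvz⟩ := hv
  induction z with
  | _ a b =>
    have h := (mem_gr hw).1 hz
    rcases Sym2.mem_iff.1 hvz with rfl | rfl
    · exact h.1
    · exact h.2.1

/-- the hypotheses on the function -/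
structure Inv {A : Type*} [AddCommGroup A] (M d m N : ℕ) (c : Finset (Sym2 ℕ) → A) : Prop where
  hA : ∀ a : A, m • a = 0
  hN : ∀ i, 1 ≤ i → i ≤ 2 * d → m ∣ N.choose i
  hc : Homog M d c
  hd : ∀ F, d < F.card → c F = 0

lemma gr_block {A : Type*} [AddCommGroup A] {M d m N : ℕ} {c : Finset (Sym2 ℕ) → A}
    (hI : Inv M d m N c) {w : ℕ → ℕ → ZMod 2} (hw : ∀ x y, w x y = w y x) (R B R' : Finset ℕ)
    (hRM : ∀ v ∈ R, v < M) (hBR : B ⊆ R) (hB : B.card = N)
    (hconv : ∀ v ∈ R, v ∉ B → (∀ b ∈ B, v < b) ∨ (∀ b ∈ B, b < v))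
    (h1 : ∀ v ∈ R, v ∉ B → ∀ b ∈ B, ∀ b' ∈ B, w v b = w v b')
    (h2 : ∀ a ∈ B, ∀ b ∈ B, ∀ a' ∈ B, ∀ b' ∈ B, a ≠ b → a' ≠ b' → w a b = w a' b')
    (hR' : ∀ v, v ∈ R' ↔ v ∈ R ∧ v ∉ B) :
    ∑ F ∈ (gr w R).powerset, c F = ∑ F ∈ (gr w R').powerset, c F := by
  refine block hI.hA hI.hN hI.hc hI.hd _ B (fun v hv => hRM v (gr_mem_VS hw hv))
    (fun v hv => hRM v (hBR hv)) hB (fun v hv hvB => hconv v (gr_mem_VS hw hv) hvB) ?_ _ ?_
  · intro σ hσ
    refine image_subset_of_homog (gr_diag hw) ?_ ?_ σ hσ
    · intro v hv b hb b' hb' h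
      rw [mem_gr hw] at h ⊢
      exact ⟨h.1, hBR hb', fun e => hv (e ▸ hb'), by rw [← h1 v h.1 hv b hb b' hb']; exact h.2.2.2⟩
    · intro a ha b hb a' ha' b' hb' hne h
      rw [mem_gr hw] at h ⊢
      exact ⟨hBR ha', hBR hb', hne, by
        rw [← h2 a ha b hb a' ha' b' hb' h.2.2.1 hne]; exact h.2.2.2⟩
  · intro z
    induction z with
    | _ a b =>
      rw [mem_gr hw, mem_gr hw, hR', hR']
      simp only [Sym2.mem_iff, forall_eq_or_imp, forall_eq]
      tauto

/-- sums of `h` over the first columns, without row `0` -/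
def colS (h : ℕ → ℕ → ZMod 2) (q : ℕ) : ZMod 2 := ∑ q' ∈ range q, ∑ p' ∈ Ico 1 q', h p' q'

/-- adjacency of the main vertices in the first graph -/
def av (k : ℕ) (h : ℕ → ℕ → ZMod 2) (p q : ℕ) : ZMod 2 :=
  if p = 0 then colS h k + ∑ q' ∈ Ico q k, h 0 q' else colS h q + ∑ p' ∈ Ico p q, h p' q

/-- adjacency of the main vertices in the second graph -/
def bv (k : ℕ) (h : ℕ → ℕ → ZMod 2) (p q : ℕ) : ZMod 2 := av k h p q + h p q

/-- adjacency of the clones -/
def be (k : ℕ) (h : ℕ → ℕ → ZMod 2) (i : ℕ) : ZMod 2 :=
  if i = 0 then av k h 0 1 else av k h i (i + 1) + h i (i + 1)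

/-- adjacency of the clones of type `i` and the main vertex `j` -/
def ov (k : ℕ) (h : ℕ → ℕ → ZMod 2) (i j : ℕ) : ZMod 2 :=
  if j = 0 then av k h 0 (i + 1) else if j ≤ i + 1 then be k h i else av k h (i + 1) j

/-- the adjacency function; `φ` is the adjacency of the main vertices -/
def wt (k N : ℕ) (h φ : ℕ → ℕ → ZMod 2) (x y : ℕ) : ZMod 2 :=
  if x % N = 0 then
    (if y % N = 0 then φ (min (x / N) (y / N)) (max (x / N) (y / N)) else ov k h (y / N) (x / N))
  else (if y % N = 0 then ov k h (x / N) (y / N) else be k h (max (x / N) (y / N)))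

lemma wt_symm (k N : ℕ) (h φ : ℕ → ℕ → ZMod 2) (x y : ℕ) :
    wt k N h φ x y = wt k N h φ y x := by
  unfold wt
  split_ifs <;> simp only [min_comm, max_comm]

lemma two_eq (x : ZMod 2) : x + x = 0 := CharTwo.add_self_eq_zero x

lemma cond1 {k : ℕ} {h : ℕ → ℕ → ZMod 2} (hev : av k h 0 1 = 0) : be k h 0 = be k h 1 := by
  have h1 : be k h 0 = 0 := by simp [be, hev]
  have h2 : be k h 1 = 0 := by
    unfold be av colS
    simp [Finset.sum_range_succ, two_eq]
  rw [h1, h2]

lemma cond2 {k : ℕ} {h : ℕ → ℕ → ZMod 2} {j : ℕ} (hj : 1 ≤ j) : av k h 1 j = be k h j := by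
  have h1 : av k h 1 j = colS h (j + 1) := by
    unfold av colS
    rw [if_neg (by omega), Finset.sum_range_succ]
  have h2 : be k h j = colS h (j + 1) := by
    unfold be av
    rw [if_neg (by omega), if_neg (by omega), Nat.Ico_succ_singleton, Finset.sum_singleton,
      add_assoc, two_eq, add_zero]
  rw [h1, h2]

lemma cond3 {k : ℕ} {h : ℕ → ℕ → ZMod 2} {j i : ℕ} (hj : 1 ≤ j) (hji : j < i) :
    av k h (j + 1) i = bv k h j i := by
  unfold bv av
  rw [if_neg (by omega), if_neg (by omega), Finset.sum_eq_sum_Ico_succ_bot hji]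
  have := two_eq (h j i)
  calc colS h i + ∑ p' ∈ Ico (j + 1) i, h p' i
      = colS h i + ∑ p' ∈ Ico (j + 1) i, h p' i + (h j i + h j i) := by rw [this, add_zero]
    _ = _ := by ring

lemma cond4 {k : ℕ} {h : ℕ → ℕ → ZMod 2} (hk : 3 ≤ k) :
    av k h 1 (k - 1) = bv k h 0 (k - 1) := by
  obtain ⟨l, rfl⟩ : ∃ l, k = l + 1 := ⟨k - 1, by omega⟩
  rw [Nat.add_sub_cancel]
  unfold bv av
  rw [if_neg (by omega), if_pos rfl, Nat.Ico_succ_singleton, Finset.sum_singleton, add_assoc,
    two_eq, add_zero]
  unfold colS
  rw [Finset.sum_range_succ]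

lemma cond5 {k : ℕ} {h : ℕ → ℕ → ZMod 2} {j : ℕ} (hj : j < k) :
    av k h 0 (j + 1) = bv k h 0 j := by
  unfold bv av
  rw [if_pos rfl, if_pos rfl, Finset.sum_eq_sum_Ico_succ_bot hj]
  have := two_eq (h 0 j)
  calc colS h k + ∑ p' ∈ Ico (j + 1) k, h 0 p'
      = colS h k + ∑ p' ∈ Ico (j + 1) k, h 0 p' + (h 0 j + h 0 j) := by rw [this, add_zero]
    _ = _ := by ring

lemma pos_cases {N j b : ℕ} (hN : 0 < N) (h1 : j * N < b) (h2 : b ≤ (j + 1) * N) :
    (b % N = 0 ∧ b / N = j + 1) ∨ (b % N ≠ 0 ∧ b / N = j) := by
  rcases Nat.lt_or_ge b ((j + 1) * N) with h | h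
  · right
    have h3 : b / N = j := by
      rw [Nat.div_eq_iff hN]
      constructor
      · rw [mul_comm]; rw [mul_comm] at h1; omega
      · have : (j + 1) * N = N * j + N := by ring
        have h4 : j * N = N * j := by ring
        omega
    refine ⟨fun h4 => ?_, h3⟩
    have h5 := Nat.div_add_mod b N
    rw [h3, h4, add_zero, mul_comm] at h5
    omega
  · left
    have h3 : b = (j + 1) * N := by omega
    subst h3
    exact ⟨Nat.mul_mod_left _ _, Nat.mul_div_cancel _ hN⟩

lemma zero_div_cases {N j : ℕ} (hN : 0 < N) {b : ℕ} (h1 : j * N ≤ b) (h2 : b < (j + 1) * N) :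
    b / N = j := by
  rw [Nat.div_eq_iff hN]
  have h3 : (j + 1) * N = N * j + N := by ring
  have h4 : j * N = N * j := by ring
  constructor <;> omega

/-- The first graph is invisible. -/
theorem first_graph {A : Type*} [AddCommGroup A] {k N d m : ℕ} {c : Finset (Sym2 ℕ) → A}
    (hN : 0 < N) (hI : Inv ((k - 1) * N + 1) d m N c) (h : ℕ → ℕ → ZMod 2) :
    ∑ F ∈ (gr (wt k N h (av k h)) (range ((k - 1) * N + 1))).powerset, c F = c ∅ := by
  classical
  set M := (k - 1) * N + 1 with hM
  set w := wt k N h (av k h) with hwdef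
  have hw : ∀ x y, w x y = w y x := wt_symm k N h _
  have key : ∀ j, j ≤ k - 1 → ∑ F ∈ (gr w (range M)).powerset, c F =
      ∑ F ∈ (gr w ((range M).filter fun v => v = 0 ∨ j * N < v)).powerset, c F := by
    intro j
    induction j with
    | zero =>
      intro _
      congr 2
      congr 1
      ext v
      rw [Finset.mem_filter, Finset.mem_range]
      constructor
      · intro hv; exact ⟨hv, by omega⟩
      · exact fun hv => hv.1
    | succ j ih =>
      intro hj
      rw [ih (by omega)]
      have hjN : (j + 1) * N ≤ (k - 1) * N := Nat.mul_le_mul_right _ hj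
      have hj1 : (j + 1) * N = j * N + N := by ring
      refine gr_block hI hw _ (Finset.Ioc (j * N) ((j + 1) * N)) _ ?_ ?_ ?_ ?_ ?_ ?_ ?_
      · intro v hv
        exact Finset.mem_range.1 (Finset.mem_filter.1 hv).1
      · intro v hv
        rw [Finset.mem_Ioc] at hv
        rw [Finset.mem_filter, Finset.mem_range]
        omega
      · rw [Nat.card_Ioc]; omega
      · intro v hv hvB
        rw [Finset.mem_filter, Finset.mem_range] at hv
        rw [Finset.mem_Ioc] at hvB
        rcases hv.2 with h0 | h0
        · left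
          intro b hb
          rw [Finset.mem_Ioc] at hb
          omega
        · right
          intro b hb
          rw [Finset.mem_Ioc] at hb
          omega
      · intro v hv hvB
        rw [Finset.mem_filter, Finset.mem_range] at hv
        rw [Finset.mem_Ioc] at hvB
        -- common value
        have hcv : ∃ t, ∀ b ∈ Finset.Ioc (j * N) ((j + 1) * N), w v b = t := by
          rcases hv.2 with h0 | h0
          · subst h0
            refine ⟨av k h 0 (j + 1), fun b hb => ?_⟩
            rw [Finset.mem_Ioc] at hb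
            rcases pos_cases hN hb.1 hb.2 with ⟨hb1, hb2⟩ | ⟨hb1, hb2⟩
            · simp [hwdef, wt, hb1, hb2]
            · simp [hwdef, wt, hb1, hb2, ov]
          · have hv1 : (j + 1) * N < v := by omega
            have hvq : j + 1 ≤ v / N := by
              rw [Nat.le_div_iff_mul_le hN]; omega
            by_cases hvN : v % N = 0
            · have hvq2 : j + 2 ≤ v / N := by
                rcases Nat.lt_or_ge (j + 1) (v / N) with h3 | h3
                · exact h3
                · exfalso
                  have h4 := Nat.div_add_mod v N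
                  have h5 : v / N = j + 1 := by omega
                  rw [h5, hvN, add_zero, mul_comm] at h4
                  omega
              refine ⟨av k h (j + 1) (v / N), fun b hb => ?_⟩
              rw [Finset.mem_Ioc] at hb
              rcases pos_cases hN hb.1 hb.2 with ⟨hb1, hb2⟩ | ⟨hb1, hb2⟩
              · have e1 : min (v / N) (j + 1) = j + 1 := by omega
                have e2 : max (v / N) (j + 1) = v / N := by omega
                simp only [hwdef, wt, hvN, hb1, hb2, if_true, e1, e2]
              · simp only [hwdef, wt, hvN, hb1, hb2, if_true, if_false, ov]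
                rw [if_neg (by omega), if_neg (by omega)]
            · refine ⟨be k h (v / N), fun b hb => ?_⟩
              rw [Finset.mem_Ioc] at hb
              rcases pos_cases hN hb.1 hb.2 with ⟨hb1, hb2⟩ | ⟨hb1, hb2⟩
              · simp only [hwdef, wt, hvN, hb1, hb2, if_true, if_false, ov]
                rw [if_neg (by omega), if_pos (by omega)]
              · have e2 : max (v / N) j = v / N := by omega
                simp only [hwdef, wt, hvN, hb1, hb2, if_false, e2]
        obtain ⟨t, ht⟩ := hcv
        intro b hb b' hb'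
        rw [ht b hb, ht b' hb']
      · have hcv : ∀ a ∈ Finset.Ioc (j * N) ((j + 1) * N), ∀ b ∈ Finset.Ioc (j * N) ((j + 1) * N),
            a ≠ b → w a b = be k h j := by
          intro a ha b hb hab
          rw [Finset.mem_Ioc] at ha hb
          rcases pos_cases hN ha.1 ha.2 with ⟨ha1, ha2⟩ | ⟨ha1, ha2⟩
          · rcases pos_cases hN hb.1 hb.2 with ⟨hb1, hb2⟩ | ⟨hb1, hb2⟩
            · exfalso
              have h3 := Nat.div_add_mod a N
              have h4 := Nat.div_add_mod b N
              rw [ha1, ha2] at h3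
              rw [hb1, hb2] at h4
              omega
            · simp only [hwdef, wt, ha1, ha2, hb1, hb2, if_true, if_false, ov]
              rw [if_neg (by omega), if_pos (by omega)]
          · rcases pos_cases hN hb.1 hb.2 with ⟨hb1, hb2⟩ | ⟨hb1, hb2⟩
            · simp only [hwdef, wt, ha1, ha2, hb1, hb2, if_true, if_false, ov]
              rw [if_neg (by omega), if_pos (by omega)]
            · simp only [hwdef, wt, ha1, ha2, hb1, hb2, if_false, max_self]
        intro a ha b hb a' ha' b' hb' h3 h4
        rw [hcv a ha b hb h3, hcv a' ha' b' hb' h4]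
      · intro v
        rw [Finset.mem_filter, Finset.mem_filter, Finset.mem_range, Finset.mem_Ioc]
        constructor
        · rintro ⟨h3, h4⟩
          refine ⟨⟨h3, ?_⟩, ?_⟩ <;> omega
        · rintro ⟨⟨h3, h4⟩, h5⟩
          refine ⟨h3, ?_⟩
          omega
  rw [key (k - 1) le_rfl]
  have hempty : gr w ((range M).filter fun v => v = 0 ∨ (k - 1) * N < v) = ∅ := by
    rw [Finset.eq_empty_iff_forall_notMem]
    intro z hz
    induction z with
    | _ a b =>
      rw [mem_gr hw, Finset.mem_filter, Finset.mem_filter, Finset.mem_range, Finset.mem_range] at hz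
      omega
  rw [hempty]
  simp

/-- The second graph is invisible. -/
theorem second_graph {A : Type*} [AddCommGroup A] {k N d m : ℕ} {c : Finset (Sym2 ℕ) → A}
    (hk : 3 ≤ k) (hN : 0 < N) (hI : Inv ((k - 1) * N + 1) d m N c) (h : ℕ → ℕ → ZMod 2)
    (hev : av k h 0 1 = 0) :
    ∑ F ∈ (gr (wt k N h (bv k h)) (range ((k - 1) * N + 1))).powerset, c F = c ∅ := by
  classical
  set M := (k - 1) * N + 1 with hM
  set w := wt k N h (bv k h) with hwdef
  have hw : ∀ x y, w x y = w y x := wt_symm k N h _
  have hin : ∀ j, ∀ a ∈ Finset.Ico (j * N) ((j + 1) * N), ∀ b ∈ Finset.Ico (j * N) ((j + 1) * N),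
      a ≠ b → w a b = be k h j := by
    intro j a ha b hb hab
    rw [Finset.mem_Ico] at ha hb
    have ha2 := zero_div_cases hN ha.1 ha.2
    have hb2 := zero_div_cases hN hb.1 hb.2
    have hov : ov k h j j = be k h j := by
      unfold ov
      by_cases hj : j = 0
      · subst hj
        simp [be]
      · rw [if_neg hj, if_pos (by omega)]
    by_cases ha1 : a % N = 0
    · by_cases hb1 : b % N = 0
      · exfalso
        have h3 := Nat.div_add_mod a N
        have h4 := Nat.div_add_mod b N
        rw [ha1, ha2] at h3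
        rw [hb1, hb2] at h4
        omega
      · simp only [hwdef, wt, ha1, ha2, hb1, hb2, if_true, if_false, hov]
    · by_cases hb1 : b % N = 0
      · simp only [hwdef, wt, ha1, ha2, hb1, hb2, if_true, if_false, hov]
      · simp only [hwdef, wt, ha1, ha2, hb1, hb2, if_false, max_self]
  have key : ∀ j, 1 ≤ j → j ≤ k - 1 → ∑ F ∈ (gr w (range M)).powerset, c F =
      ∑ F ∈ (gr w ((range M).filter fun v => v < N ∨ j * N ≤ v)).powerset, c F := by
    intro j hj1
    induction j, hj1 using Nat.le_induction with
    | base =>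
      intro _
      congr 2
      congr 1
      ext v
      rw [Finset.mem_filter, Finset.mem_range]
      constructor
      · intro hv; exact ⟨hv, by omega⟩
      · exact fun hv => hv.1
    | succ j hj1 ih =>
      intro hj
      rw [ih (by omega)]
      have hjN : (j + 1) * N ≤ (k - 1) * N := Nat.mul_le_mul_right _ hj
      have hjj : (j + 1) * N = j * N + N := by ring
      have hj0 : N ≤ j * N := Nat.le_mul_of_pos_left _ (by omega)
      refine gr_block hI hw _ (Finset.Ico (j * N) ((j + 1) * N)) _ ?_ ?_ ?_ ?_ ?_ ?_ ?_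
      · intro v hv
        exact Finset.mem_range.1 (Finset.mem_filter.1 hv).1
      · intro v hv
        rw [Finset.mem_Ico] at hv
        rw [Finset.mem_filter, Finset.mem_range]
        omega
      · rw [Nat.card_Ico]; omega
      · intro v hv hvB
        rw [Finset.mem_filter, Finset.mem_range] at hv
        rw [Finset.mem_Ico] at hvB
        rcases hv.2 with h0 | h0
        · left
          intro b hb
          rw [Finset.mem_Ico] at hb
          omega
        · right
          intro b hb
          rw [Finset.mem_Ico] at hb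
          omega
      · intro v hv hvB
        rw [Finset.mem_filter, Finset.mem_range] at hv
        rw [Finset.mem_Ico] at hvB
        have hcv : ∃ t, ∀ b ∈ Finset.Ico (j * N) ((j + 1) * N), w v b = t := by
          rcases hv.2 with h0 | h0
          · have hv0 : v / N = 0 := Nat.div_eq_of_lt h0
            by_cases hvN : v % N = 0
            · refine ⟨bv k h 0 j, fun b hb => ?_⟩
              rw [Finset.mem_Ico] at hb
              have hb2 := zero_div_cases hN hb.1 hb.2
              by_cases hb1 : b % N = 0
              · simp only [hwdef, wt, hvN, hv0, hb1, hb2, if_true, Nat.zero_min, Nat.zero_max]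
              · simp only [hwdef, wt, hvN, hv0, hb1, hb2, if_true, if_false, ov]
                exact cond5 (by omega)
            · refine ⟨be k h j, fun b hb => ?_⟩
              rw [Finset.mem_Ico] at hb
              have hb2 := zero_div_cases hN hb.1 hb.2
              by_cases hb1 : b % N = 0
              · simp only [hwdef, wt, hvN, hv0, hb1, hb2, if_true, if_false, ov]
                rw [if_neg (by omega)]
                by_cases hj2 : j ≤ 0 + 1
                · rw [if_pos hj2]
                  have : j = 1 := by omega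
                  subst this
                  exact cond1 hev
                · rw [if_neg hj2]
                  exact cond2 (by omega)
              · simp only [hwdef, wt, hvN, hv0, hb1, hb2, if_false, Nat.zero_max]
          · have hv1 : (j + 1) * N ≤ v := by omega
            have hvq : j + 1 ≤ v / N := by
              rw [Nat.le_div_iff_mul_le hN]; omega
            by_cases hvN : v % N = 0
            · refine ⟨bv k h j (v / N), fun b hb => ?_⟩
              rw [Finset.mem_Ico] at hb
              have hb2 := zero_div_cases hN hb.1 hb.2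
              by_cases hb1 : b % N = 0
              · have e1 : min (v / N) j = j := by omega
                have e2 : max (v / N) j = v / N := by omega
                simp only [hwdef, wt, hvN, hb1, hb2, if_true, e1, e2]
              · simp only [hwdef, wt, hvN, hb1, hb2, if_true, if_false, ov]
                rw [if_neg (by omega)]
                by_cases hj2 : v / N ≤ j + 1
                · rw [if_pos hj2]
                  have : v / N = j + 1 := by omega
                  rw [this]
                  unfold be bv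
                  rw [if_neg (by omega)]
                · rw [if_neg hj2]
                  exact cond3 hj1 (by omega)
            · refine ⟨be k h (v / N), fun b hb => ?_⟩
              rw [Finset.mem_Ico] at hb
              have hb2 := zero_div_cases hN hb.1 hb.2
              by_cases hb1 : b % N = 0
              · simp only [hwdef, wt, hvN, hb1, hb2, if_true, if_false, ov]
                rw [if_neg (by omega), if_pos (by omega)]
              · have e2 : max (v / N) j = v / N := by omega
                simp only [hwdef, wt, hvN, hb1, hb2, if_false, e2]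
        obtain ⟨t, ht⟩ := hcv
        intro b hb b' hb'
        rw [ht b hb, ht b' hb']
      · intro a ha b hb a' ha' b' hb' h3 h4
        rw [hin j a ha b hb h3, hin j a' ha' b' hb' h4]
      · intro v
        rw [Finset.mem_filter, Finset.mem_filter, Finset.mem_range, Finset.mem_Ico]
        constructor
        · rintro ⟨h3, h4⟩
          refine ⟨⟨h3, ?_⟩, ?_⟩ <;> omega
        · rintro ⟨⟨h3, h4⟩, h5⟩
          refine ⟨h3, ?_⟩
          omega
  rw [key (k - 1) (by omega) le_rfl]
  have hk1 : N ≤ (k - 1) * N := Nat.le_mul_of_pos_left _ (by omega)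
  have hlast : ∑ F ∈ (gr w ((range M).filter fun v => v < N ∨ (k - 1) * N ≤ v)).powerset, c F =
      ∑ F ∈ (gr w {(k - 1) * N}).powerset, c F := by
    have h01 : Finset.Ico (0 * N) ((0 + 1) * N) = range N := by
      ext v; rw [Finset.mem_Ico, Finset.mem_range]; omega
    refine gr_block hI hw _ (range N) _ ?_ ?_ ?_ ?_ ?_ ?_ ?_
    · intro v hv
      exact Finset.mem_range.1 (Finset.mem_filter.1 hv).1
    · intro v hv
      rw [Finset.mem_range] at hv
      rw [Finset.mem_filter, Finset.mem_range]
      omega
    · exact Finset.card_range N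
    · intro v hv hvB
      rw [Finset.mem_range] at hvB
      right
      intro b hb
      rw [Finset.mem_range] at hb
      omega
    · intro v hv hvB
      rw [Finset.mem_filter, Finset.mem_range] at hv
      rw [Finset.mem_range] at hvB
      have hv1 : v = (k - 1) * N := by omega
      have hvN : v % N = 0 := by rw [hv1]; exact Nat.mul_mod_left _ _
      have hvq : v / N = k - 1 := by rw [hv1]; exact Nat.mul_div_cancel _ hN
      have hcv : ∀ b ∈ range N, w v b = bv k h 0 (k - 1) := by
        intro b hb
        rw [Finset.mem_range] at hb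
        have hb2 : b / N = 0 := Nat.div_eq_of_lt hb
        by_cases hb1 : b % N = 0
        · simp only [hwdef, wt, hvN, hvq, hb1, hb2, if_true, Nat.min_zero, Nat.max_zero]
        · simp only [hwdef, wt, hvN, hvq, hb1, hb2, if_true, if_false, ov]
          rw [if_neg (by omega), if_neg (by omega)]
          exact cond4 hk
      intro b hb b' hb'
      rw [hcv b hb, hcv b' hb']
    · intro a ha b hb a' ha' b' hb' h3 h4
      rw [← h01] at ha hb ha' hb'
      rw [hin 0 a ha b hb h3, hin 0 a' ha' b' hb' h4]
    · intro v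
      rw [Finset.mem_singleton, Finset.mem_filter, Finset.mem_range, Finset.mem_range]
      omega
  rw [hlast]
  have hempty : gr w {(k - 1) * N} = ∅ := by
    rw [Finset.eq_empty_iff_forall_notMem]
    intro z hz
    induction z with
    | _ a b =>
      rw [mem_gr hw, Finset.mem_singleton, Finset.mem_singleton] at hz
      omega
  rw [hempty]
  simp

/-- The two graphs differ exactly in the pairs of main vertices where `h = 1`. -/
lemma wt_bv (k N : ℕ) (h : ℕ → ℕ → ZMod 2) (x y : ℕ) :
    wt k N h (bv k h) x y = wt k N h (av k h) x y +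
      if x % N = 0 ∧ y % N = 0 then h (min (x / N) (y / N)) (max (x / N) (y / N)) else 0 := by
  unfold wt bv
  by_cases hx : x % N = 0 <;> by_cases hy : y % N = 0 <;> simp [hx, hy]

end Pool.Agent.Lib.MP_2d96d7_co.Poly
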