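import Pool.Agent.Lib.MP_2d96d7_co.Poly.Deg
import Pool.Agent.Lib.MP_2d96d7_co.Defs

set_option autoImplicit false

/-!
Polynomial graph-codes: every fibre of a bounded-degree polynomial map contains two graphs that
differ by a copy of `H`.
-/

namespace Pool.Agent.Lib.MP_2d96d7_co.Poly

open Finset

section Label

variable {V : Type} [Fintype V] (H : SimpleGraph V)

/-- adjacency in terms of the labels of the vertices -/
def adjN (L : V ≃ Fin (Fintype.card V)) (p q : ℕ) : Prop :=
  ∃ (hp : p < Fintype.card V) (hq : q < Fintype.card V), H.Adj (L.symm ⟨p, hp⟩) (L.symm ⟨q, hq⟩)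

open Classical in
/-- indicator of `adjN` modulo two -/
noncomputable def hN (L : V ≃ Fin (Fintype.card V)) (p q : ℕ) : ZMod 2 :=
  if adjN H L p q then 1 else 0

variable (L : V ≃ Fin (Fintype.card V))

lemma adjN_symm {p q : ℕ} (h : adjN H L p q) : adjN H L q p := by
  obtain ⟨hp, hq, h⟩ := h
  exact ⟨hq, hp, h.symm⟩

lemma hN_minmax (p q : ℕ) : hN H L (min p q) (max p q) = hN H L p q := by
  classical
  rcases le_total p q with h | h
  · rw [min_eq_left h, max_eq_right h]
  · rw [min_eq_right h, max_eq_left h]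
    unfold hN
    by_cases h1 : adjN H L p q
    · rw [if_pos h1, if_pos (adjN_symm H L h1)]
    · rw [if_neg h1, if_neg fun h2 => h1 (adjN_symm H L h2)]

lemma sum_hN (he : Even H.edgeSet.ncard) :
    ∑ q ∈ range (Fintype.card V), ∑ p ∈ range q, hN H L p q = 0 := by
  classical
  have h1 : ∑ q ∈ range (Fintype.card V), ∑ p ∈ range q, hN H L p q =
      (((range (Fintype.card V)).sigma fun q =>
        (range q).filter fun p => adjN H L p q).card : ZMod 2) := by
    rw [Finset.card_sigma]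
    push_cast
    refine Finset.sum_congr rfl fun q _ => ?_
    rw [Finset.card_filter]
    push_cast
    rfl
  have h2 : ((range (Fintype.card V)).sigma fun q =>
      (range q).filter fun p => adjN H L p q).card = H.edgeSet.ncard := by
    rw [← SimpleGraph.coe_edgeFinset, Set.ncard_coe_finset]
    have hlt : ∀ x ∈ ((range (Fintype.card V)).sigma fun q =>
        (range q).filter fun p => adjN H L p q), x.1 < Fintype.card V ∧ x.2 < x.1 ∧ adjN H L x.2 x.1 := by
      rintro ⟨q, p⟩ hx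
      rw [Finset.mem_sigma, Finset.mem_filter, Finset.mem_range, Finset.mem_range] at hx
      exact ⟨hx.1, hx.2.1, hx.2.2⟩
    refine Finset.card_bij (fun x hx => s(L.symm ⟨x.2, (hlt x hx).2.2.1⟩,
      L.symm ⟨x.1, (hlt x hx).1⟩)) ?_ ?_ ?_
    · intro x hx
      rw [SimpleGraph.mem_edgeFinset, SimpleGraph.mem_edgeSet]
      exact (hlt x hx).2.2.2.2
    · rintro ⟨q, p⟩ hx ⟨q', p'⟩ hx' hxx
      have a1 := hlt _ hx
      have a2 := hlt _ hx'
      simp only at a1 a2
      rw [Sym2.eq_iff] at hxx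
      simp only [EmbeddingLike.apply_eq_iff_eq, Fin.mk.injEq] at hxx
      rcases hxx with ⟨rfl, rfl⟩ | ⟨h3, h4⟩
      · rfl
      · omega
    · intro z hz
      induction z with
      | _ u v =>
        rw [SimpleGraph.mem_edgeFinset, SimpleGraph.mem_edgeSet] at hz
        have hne : (L u : ℕ) ≠ L v := fun h => hz.ne (L.injective (Fin.ext h))
        rcases Nat.lt_or_gt_of_ne hne with h3 | h3
        · refine ⟨⟨(L v : ℕ), (L u : ℕ)⟩, ?_, ?_⟩
          · rw [Finset.mem_sigma, Finset.mem_filter, Finset.mem_range, Finset.mem_range]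
            exact ⟨(L v).2, h3, (L u).2, (L v).2, by simpa using hz⟩
          · simp
        · refine ⟨⟨(L u : ℕ), (L v : ℕ)⟩, ?_, ?_⟩
          · rw [Finset.mem_sigma, Finset.mem_filter, Finset.mem_range, Finset.mem_range]
            exact ⟨(L u).2, h3, (L v).2, (L u).2, by simpa using hz.symm⟩
          · simp [Sym2.eq_swap]
  rw [h1, h2, ZMod.natCast_eq_zero_iff_even]
  exact he

lemma av_zero_one (he : Even H.edgeSet.ncard) :
    av (Fintype.card V) (hN H L) 0 1 = 0 := by
  rw [← sum_hN H L he]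
  unfold av colS
  rw [if_pos rfl]
  have h1 : ∀ q ∈ range (Fintype.card V), ∑ p ∈ range q, hN H L p q =
      (∑ p ∈ Ico 1 q, hN H L p q) + if 1 ≤ q then hN H L 0 q else 0 := by
    intro q _
    by_cases hq : 1 ≤ q
    · rw [if_pos hq, Finset.range_eq_Ico, Finset.sum_eq_sum_Ico_succ_bot (by omega), add_comm]
    · have : q = 0 := by omega
      subst this
      simp
  rw [Finset.sum_congr rfl h1, Finset.sum_add_distrib]
  congr 1
  rw [← Finset.sum_filter]
  refine Finset.sum_congr ?_ fun _ _ => rfl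
  ext q
  rw [Finset.mem_Ico, Finset.mem_filter, Finset.mem_range]
  tauto

end Label

lemma three_le {V : Type} [Fintype V] (H : SimpleGraph V) (hne : H.edgeSet.Nonempty)
    (he : Even H.edgeSet.ncard) : 3 ≤ Fintype.card V := by
  classical
  have h1 : H.edgeFinset.card ≤ (Fintype.card V).choose 2 :=
    SimpleGraph.card_edgeFinset_le_card_choose_two
  have h2 : H.edgeSet.ncard = H.edgeFinset.card := by
    rw [← SimpleGraph.coe_edgeFinset, Set.ncard_coe_finset]
  have h3 : 0 < H.edgeSet.ncard := (Set.ncard_pos (Set.toFinite _)).2 hne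
  obtain ⟨t, ht⟩ := he
  by_contra hlt
  have h4 : Fintype.card V ≤ 2 := by omega
  have h5 : (Fintype.card V).choose 2 ≤ (2 : ℕ).choose 2 := Nat.choose_le_choose 2 h4
  have h6 : (2 : ℕ).choose 2 = 1 := by decide
  omega

lemma dvd_choose (m d : ℕ) (i : ℕ) (h1 : 1 ≤ i) (h2 : i ≤ 2 * d) :
    m ∣ (m * (2 * d).factorial).choose i := by
  rcases Nat.eq_zero_or_pos m with rfl | hm
  · rw [Nat.zero_mul, Nat.choose_eq_zero_of_lt (by omega)]
  obtain ⟨t, ht⟩ : i ∣ (2 * d).factorial := Nat.dvd_factorial (by omega) h2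
  obtain ⟨j, rfl⟩ : ∃ j, i = j + 1 := ⟨i - 1, by omega⟩
  have hpos : 0 < m * (2 * d).factorial := Nat.mul_pos hm (Nat.factorial_pos _)
  obtain ⟨N, hN⟩ : ∃ N, m * (2 * d).factorial = N + 1 := ⟨m * (2 * d).factorial - 1, by omega⟩
  have h3 := Nat.add_one_mul_choose_eq N j
  rw [hN]
  refine ⟨t * N.choose j, ?_⟩
  have h4 : (j + 1) * (N + 1).choose (j + 1) = (j + 1) * (m * (t * N.choose j)) := by
    rw [mul_comm, ← h3, ← hN, ht]
    ring
  exact Nat.eq_of_mul_eq_mul_left (by omega) h4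

section Pair

variable {n : ℕ}

lemma tog_empty (G : SimpleGraph (Fin n)) : tog G ∅ = G := by
  rw [← SimpleGraph.edgeSet_inj]
  ext e
  rw [mem_tog]
  simp only [Finset.notMem_empty, not_false_eq_true, and_true, false_and, or_false]
  constructor
  · exact fun h => h.1
  · exact fun h => ⟨h, fun hd => SimpleGraph.not_isDiag_of_mem_edgeSet G h hd⟩

lemma tog_tog (G : SimpleGraph (Fin n)) (Y : Finset (Sym2 (Fin n))) : tog (tog G Y) Y = G := by
  rw [← SimpleGraph.edgeSet_inj]
  ext e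
  rw [mem_tog, mem_tog]
  have := fun h : e ∈ G.edgeSet => SimpleGraph.not_isDiag_of_mem_edgeSet G h
  by_cases h1 : e ∈ G.edgeSet <;> by_cases h2 : e ∈ Y <;> by_cases h3 : e.IsDiag <;> simp_all

lemma symm_tog_adj (G : SimpleGraph (Fin n)) (Y Y' : Finset (Sym2 (Fin n))) (a b : Fin n) :
    ((tog G Y \ tog G Y') ⊔ (tog G Y' \ tog G Y)).Adj a b ↔
      a ≠ b ∧ ¬ (s(a, b) ∈ Y ↔ s(a, b) ∈ Y') := by
  have e1 : ∀ Y, (tog G Y).Adj a b ↔ ((s(a, b) ∈ G.edgeSet ∧ s(a, b) ∉ Y) ∨
      (s(a, b) ∈ Y ∧ s(a, b) ∉ G.edgeSet)) ∧ a ≠ b := by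
    intro Y
    rw [← SimpleGraph.mem_edgeSet, mem_tog, Sym2.mk_isDiag_iff]
  rw [SimpleGraph.sup_adj, SimpleGraph.sdiff_adj, SimpleGraph.sdiff_adj, e1, e1]
  tauto

end Pair

/-- Two graphs with the value of a given one that differ by a copy of `H`; they are obtained by
changing pairs inside the image of `{v | v < R}` under a given permutation. -/
theorem exists_pair {V : Type} [Fintype V] (H : SimpleGraph V) (hne : H.edgeSet.Nonempty)
    (he : Even H.edgeSet.ncard) (m d : ℕ) (hm : 0 < m) (A : Type) [AddCommGroup A] [Finite A]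
    (hA : ∀ a : A, m • a = 0) :
    ∃ R : ℕ, ∀ n, R ≤ n → ∀ Φ : SimpleGraph (Fin n) → A,
      (∀ G₀ : SimpleGraph (Fin n), IsDeg d fun Y => Φ (tog G₀ Y)) →
      ∀ (G₀ : SimpleGraph (Fin n)) (π : Equiv.Perm (Fin n)),
      ∃ Y Y' : Finset (Sym2 (Fin n)), (∀ z ∈ Y, ∀ v ∈ z, (π.symm v : ℕ) < R) ∧
        (∀ z ∈ Y', ∀ v ∈ z, (π.symm v : ℕ) < R) ∧
        Φ (tog G₀ Y) = Φ G₀ ∧ Φ (tog G₀ Y') = Φ G₀ ∧
        ∃ f : V ↪ Fin n, (∀ v, (π.symm (f v) : ℕ) < R) ∧
          (tog G₀ Y \ tog G₀ Y') ⊔ (tog G₀ Y' \ tog G₀ Y) = H.map f := by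
  classical
  have hk3 := three_le H hne he
  set k := Fintype.card V with hk
  set N := m * (2 * d).factorial with hNdef
  have hN0 : 0 < N := Nat.mul_pos hm (Nat.factorial_pos _)
  set M := (k - 1) * N + 1 with hM
  obtain ⟨R, hR⟩ := exists_homog A M d
  obtain ⟨e₀, _, he₀, _⟩ := hR fun _ => 0
  have hR0 : 0 < R := by
    have := he₀ 0 (by omega)
    omega
  set L : V ≃ Fin (Fintype.card V) := Fintype.equivFin V with hL
  refine ⟨R, fun n hn Φ hΦ G₀ π => ?_⟩
  have hn0 : 0 < n := by omega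
  obtain ⟨c, hc1, hc2'⟩ := hΦ G₀
  have hc2 : ∀ Y, Φ (tog G₀ Y) = ∑ F ∈ Y.powerset, c F := hc2'
  set toFin : ℕ → Fin n := fun v => π (if h : v < n then ⟨v, h⟩ else ⟨0, hn0⟩) with htoFin
  obtain ⟨e, he1, he2, he3⟩ := hR fun F => c (F.image (Sym2.map toFin))
  set E : ℕ → Fin n := fun v => toFin (e v) with hE
  have hEv : ∀ v < M, (π.symm (E v) : ℕ) = e v := by
    intro v hv
    have : e v < n := lt_of_lt_of_le (he2 v hv) hn
    simp [hE, htoFin, this]
  have hEinj : Set.InjOn E (Set.Iio M) := by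
    intro a ha b hb hab
    have h1 : (π.symm (E a) : ℕ) = π.symm (E b) := by rw [hab]
    rw [hEv a ha, hEv b hb] at h1
    exact he1.injOn ha hb h1
  -- the homogeneous function
  set C : Finset (Sym2 ℕ) → A := fun F =>
    if (∀ v ∈ VS F, v < M) ∧ F.card ≤ d then c (F.image (Sym2.map E)) else 0 with hC
  have hI : Inv M d m N C := by
    refine ⟨hA, dvd_choose m d, ?_, ?_⟩
    · intro F hF hFd g hg hgM
      have h1 : ∀ v ∈ VS (F.image (Sym2.map g)), v < M := by
        intro v hv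
        obtain ⟨u, hu, rfl⟩ := VS_image.1 hv
        exact hgM u hu
      have h2 : (F.image (Sym2.map g)).card ≤ d := Finset.card_image_le.trans hFd
      simp only [hC]
      rw [if_pos ⟨h1, h2⟩, if_pos ⟨hF, hFd⟩]
      have h3 := he3 F hF hFd g hg hgM
      simp only [image_map_map] at h3
      rw [image_map_map]
      exact h3
    · intro F hF
      simp only [hC]
      rw [if_neg]
      omega
  have hInjMap : ∀ F : Finset (Sym2 ℕ), (∀ v ∈ VS F, v < M) → Set.InjOn (Sym2.map E) F := by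
    intro F hF z hz z' hz' hzz
    induction z with
    | _ a b =>
      induction z' with
      | _ a' b' =>
        rw [Sym2.map_mk, Sym2.map_mk, Sym2.eq_iff] at hzz
        have ha : a < M := hF a ⟨_, hz, by simp⟩
        have hb : b < M := hF b ⟨_, hz, by simp⟩
        have ha' : a' < M := hF a' ⟨_, hz', by simp⟩
        have hb' : b' < M := hF b' ⟨_, hz', by simp⟩
        rw [Sym2.eq_iff]
        rcases hzz with ⟨h1, h2⟩ | ⟨h1, h2⟩
        · exact Or.inl ⟨hEinj ha ha' h1, hEinj hb hb' h2⟩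
        · exact Or.inr ⟨hEinj ha hb' h1, hEinj hb ha' h2⟩
  -- value of the polynomials
  have hval : ∀ X : Finset (Sym2 ℕ), (∀ v ∈ VS X, v < M) → ∑ F ∈ X.powerset, C F = C ∅ →
      Φ (tog G₀ (X.image (Sym2.map E))) = Φ G₀ := by
    intro X hX hsum
    have hsub : ∀ F ∈ X.powerset, ∀ v ∈ VS F, v < M := by
      intro F hF v hv
      obtain ⟨z, hz, hvz⟩ := hv
      exact hX v ⟨z, Finset.mem_powerset.1 hF hz, hvz⟩
    have h1 : ∑ F ∈ (X.image (Sym2.map E)).powerset, c F =
        ∑ F ∈ X.powerset, c (F.image (Sym2.map E)) := by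
      symm
      refine Finset.sum_nbij (fun F => F.image (Sym2.map E)) ?_ ?_ ?_ fun _ _ => rfl
      · intro F hF
        rw [Finset.mem_powerset] at hF ⊢
        exact Finset.image_subset_image hF
      · intro F hF F' hF' hFF
        rw [Finset.mem_coe, Finset.mem_powerset] at hF hF'
        have hinj := hInjMap X hX
        have hFF' : F.image (Sym2.map E) = F'.image (Sym2.map E) := hFF
        ext z
        constructor
        · intro hz
          have h2 : Sym2.map E z ∈ F'.image (Sym2.map E) := by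
            rw [← hFF']; exact Finset.mem_image_of_mem _ hz
          obtain ⟨z', hz', h3⟩ := Finset.mem_image.1 h2
          rw [← hinj (hF' hz') (hF hz) h3]; exact hz'
        · intro hz
          have h2 : Sym2.map E z ∈ F.image (Sym2.map E) := by
            rw [hFF']; exact Finset.mem_image_of_mem _ hz
          obtain ⟨z', hz', h3⟩ := Finset.mem_image.1 h2
          rw [← hinj (hF hz') (hF' hz) h3]; exact hz'
      · intro F hF
        rw [Finset.mem_coe, Finset.mem_powerset] at hF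
        obtain ⟨F', hF', rfl⟩ := Finset.subset_image_iff.1 hF
        exact ⟨F', by simpa using hF', rfl⟩
    have h2 : ∀ F ∈ X.powerset, c (F.image (Sym2.map E)) = C F := by
      intro F hF
      by_cases hFd : F.card ≤ d
      · simp only [hC]
        rw [if_pos ⟨hsub F hF, hFd⟩]
      · simp only [hC]
        rw [if_neg (by tauto), hc1]
        rw [Finset.card_image_of_injOn (hInjMap F (hsub F hF))]
        omega
    have h4 : C ∅ = c ∅ := by
      simp only [hC]
      rw [if_pos]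
      · simp
      · refine ⟨?_, by simp⟩
        rintro v ⟨z, hz, _⟩
        simp at hz
    rw [hc2, h1, Finset.sum_congr rfl h2, hsum, h4]
    have h5 := hc2 ∅
    rw [tog_empty] at h5
    rw [h5]
    simp
  set h := hN H L with hh
  have hev : av k h 0 1 = 0 := av_zero_one H L he
  set wa := wt k N h (av k h) with hwa
  set wb := wt k N h (bv k h) with hwb
  have hwas : ∀ x y, wa x y = wa y x := wt_symm k N h _
  have hwbs : ∀ x y, wb x y = wb y x := wt_symm k N h _
  have hXM : ∀ v ∈ VS (gr wa (range M)), v < M := fun v hv =>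
    Finset.mem_range.1 (gr_mem_VS hwas hv)
  have hXM' : ∀ v ∈ VS (gr wb (range M)), v < M := fun v hv =>
    Finset.mem_range.1 (gr_mem_VS hwbs hv)
  have hsmall : ∀ X : Finset (Sym2 ℕ), (∀ v ∈ VS X, v < M) →
      ∀ z ∈ X.image (Sym2.map E), ∀ v ∈ z, (π.symm v : ℕ) < R := by
    intro X hX z hz v hv
    obtain ⟨y, hy, rfl⟩ := Finset.mem_image.1 hz
    obtain ⟨u, hu, rfl⟩ := Sym2.mem_map.1 hv
    have hu' := hX u ⟨y, hy, hu⟩
    rw [hEv u hu']
    exact he2 u hu'
  refine ⟨(gr wa (range M)).image (Sym2.map E), (gr wb (range M)).image (Sym2.map E),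
    hsmall _ hXM, hsmall _ hXM', hval _ hXM (first_graph hN0 hI h),
    hval _ hXM' (second_graph hk3 hN0 hI h hev), ?_⟩
  -- positions of the vertices of `H`
  have hpos : ∀ p, p < k → p * N < M := by
    intro p hp
    have : p * N ≤ (k - 1) * N := Nat.mul_le_mul_right _ (by omega)
    omega
  let f : V ↪ Fin n := ⟨fun v => E ((L v : ℕ) * N), by
    intro u v huv
    have h1 := hEinj (hpos _ (L u).2) (hpos _ (L v).2) huv
    have h2 : (L u : ℕ) = L v := Nat.eq_of_mul_eq_mul_right hN0 h1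
    exact L.injective (Fin.ext h2)⟩
  have hf : ∀ v, f v = E ((L v : ℕ) * N) := fun v => rfl
  clear_value f
  refine ⟨f, fun v => by rw [hf, hEv _ (hpos _ (L v).2)]; exact he2 _ (hpos _ (L v).2), ?_⟩
  have hmemim : ∀ w : ℕ → ℕ → ZMod 2, (∀ x y, w x y = w y x) → ∀ x y, x < M → y < M → x ≠ y →
      (s(E x, E y) ∈ (gr w (range M)).image (Sym2.map E) ↔ w x y = 1) := by
    intro w hw x y hx hy hxy
    rw [Finset.mem_image]
    constructor
    · rintro ⟨z, hz, hzz⟩
      induction z with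
      | _ a b =>
        rw [mem_gr hw, Finset.mem_range, Finset.mem_range] at hz
        rw [Sym2.map_mk, Sym2.eq_iff] at hzz
        rcases hzz with ⟨h1, h2⟩ | ⟨h1, h2⟩
        · rw [hEinj hz.1 hx h1, hEinj hz.2.1 hy h2] at hz
          exact hz.2.2.2
        · rw [hEinj hz.1 hy h1, hEinj hz.2.1 hx h2, hw] at hz
          exact hz.2.2.2
    · intro h1
      exact ⟨s(x, y), by rw [mem_gr hw, Finset.mem_range, Finset.mem_range]; exact ⟨hx, hy, hxy, h1⟩,
        rfl⟩
  have hnot : ∀ w : ℕ → ℕ → ZMod 2, (∀ x y, w x y = w y x) → ∀ a b,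
      s(a, b) ∈ (gr w (range M)).image (Sym2.map E) → ∃ x y, x < M ∧ y < M ∧ x ≠ y ∧ E x = a ∧
        E y = b := by
    intro w hw a b hab
    obtain ⟨z, hz, hzz⟩ := Finset.mem_image.1 hab
    induction z with
    | _ x y =>
      rw [mem_gr hw, Finset.mem_range, Finset.mem_range] at hz
      rw [Sym2.map_mk, Sym2.eq_iff] at hzz
      rcases hzz with ⟨h1, h2⟩ | ⟨h1, h2⟩
      · exact ⟨x, y, hz.1, hz.2.1, hz.2.2.1, h1, h2⟩
      · exact ⟨y, x, hz.2.1, hz.1, hz.2.2.1.symm, h2, h1⟩
  have hone : (1 : ZMod 2) ≠ 0 := by decide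
  have hxor : ∀ x y, x < M → y < M → x ≠ y → (¬ (wa x y = 1 ↔ wb x y = 1) ↔
      x % N = 0 ∧ y % N = 0 ∧ adjN H L (x / N) (y / N)) := by
    intro x y hx hy hxy
    have h1 : wb x y = wa x y +
        if x % N = 0 ∧ y % N = 0 then h (min (x / N) (y / N)) (max (x / N) (y / N)) else 0 :=
      wt_bv k N h x y
    have h2 : h (min (x / N) (y / N)) (max (x / N) (y / N)) = h (x / N) (y / N) :=
      hN_minmax H L _ _
    rw [h2] at h1
    have h3 : h (x / N) (y / N) = if adjN H L (x / N) (y / N) then 1 else 0 := rfl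
    rw [h3] at h1
    rw [h1]
    have h4 : ∀ t : ZMod 2, ¬ (t = 1 ↔ t + 1 = 1) := by decide
    by_cases h5 : x % N = 0 ∧ y % N = 0
    · by_cases h6 : adjN H L (x / N) (y / N)
      · rw [if_pos h5, if_pos h6]
        exact ⟨fun _ => ⟨h5.1, h5.2, h6⟩, fun _ => h4 _⟩
      · rw [if_pos h5, if_neg h6, add_zero]
        tauto
    · rw [if_neg h5, add_zero]
      tauto
  -- the symmetric difference
  ext a b
  rw [symm_tog_adj, SimpleGraph.map_adj]
  constructor
  · rintro ⟨hab, hxo⟩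
    have hex : ∃ x y, x < M ∧ y < M ∧ x ≠ y ∧ E x = a ∧ E y = b := by
      by_cases h1 : s(a, b) ∈ (gr wa (range M)).image (Sym2.map E)
      · exact hnot wa hwas a b h1
      · by_cases h2 : s(a, b) ∈ (gr wb (range M)).image (Sym2.map E)
        · exact hnot wb hwbs a b h2
        · exact absurd (Iff.intro (fun h => absurd h h1) (fun h => absurd h h2)) hxo
    obtain ⟨x, y, hx, hy, hxy, rfl, rfl⟩ := hex
    rw [hmemim wa hwas x y hx hy hxy, hmemim wb hwbs x y hx hy hxy] at hxo
    obtain ⟨h1, h2, hp, hq, h3⟩ := (hxor x y hx hy hxy).1 hxo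
    refine ⟨_, _, h3, ?_, ?_⟩
    · rw [hf, Equiv.apply_symm_apply]
      congr 1
      exact Nat.div_mul_cancel (Nat.dvd_of_mod_eq_zero h1)
    · rw [hf, Equiv.apply_symm_apply]
      congr 1
      exact Nat.div_mul_cancel (Nat.dvd_of_mod_eq_zero h2)
  · rintro ⟨u, v, huv, rfl, rfl⟩
    have hne : f u ≠ f v := fun h1 => huv.ne (f.injective h1)
    refine ⟨hne, ?_⟩
    have hx := hpos _ (L u).2
    have hy := hpos _ (L v).2
    have hxy : (L u : ℕ) * N ≠ (L v : ℕ) * N := by
      intro h1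
      exact hne (by rw [hf u, hf v, h1])
    rw [hf u, hf v]
    rw [hmemim wa hwas _ _ hx hy hxy, hmemim wb hwbs _ _ hx hy hxy]
    refine (hxor _ _ hx hy hxy).2 ⟨Nat.mul_mod_left _ _, Nat.mul_mod_left _ _, ?_⟩
    rw [Nat.mul_div_cancel _ hN0, Nat.mul_div_cancel _ hN0]
    exact ⟨(L u).2, (L v).2, by simpa using huv⟩

end Pool.Agent.Lib.MP_2d96d7_co.Poly
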