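import Pool.Agent.Lib.MP_2d96d7_co.Poly.Cond

set_option autoImplicit false

/-!
Polynomial graph-codes: conditions that depend on the values of given polynomials, on few pairs and
on a form with values in a finite abelian group.
-/

namespace Pool.Agent.Lib.MP_2d96d7_co.Poly

open Finset

section Mixed

variable {m n r : ℕ}

/-- the polynomials `P i` have the same values at `G` and at `G'` -/
def SameVal (P : Fin r → MvPolynomial (Sym2 (Fin n)) (ZMod m)) (G G' : SimpleGraph (Fin n)) :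
    Prop :=
  ∀ i, MvPolynomial.eval (ind (ZMod m) G) (P i) = MvPolynomial.eval (ind (ZMod m) G') (P i)

/-- the condition `C` on a graph depends only on the values of the polynomials `P i` -/
def PolyCond (P : Fin r → MvPolynomial (Sym2 (Fin n)) (ZMod m)) (C : Set (SimpleGraph (Fin n))) :
    Prop :=
  ∀ G G', SameVal P G G' → G ∈ C → G' ∈ C

/-- the condition `C` on a graph depends only on the values of the polynomials `P i`, on at most
`w` pairs and on the value of one form with coefficients in `A` -/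
def MixedCond (P : Fin r → MvPolynomial (Sym2 (Fin n)) (ZMod m)) (A : Type) [AddCommGroup A]
    (w : ℕ) (C : Set (SimpleGraph (Fin n))) : Prop :=
  ∃ (φ : Sym2 (Fin n) → A) (T : Finset (Sym2 (Fin n))), T.card ≤ w ∧
    ∀ G G' : SimpleGraph (Fin n), SameVal P G G' → (∀ e ∈ T, (e ∈ G.edgeSet ↔ e ∈ G'.edgeSet)) →
      form φ G = form φ G' → G ∈ C → G' ∈ C

/-- A family of graphs that is given by any number of mixed conditions contains a positive
proportion of `H`-differences, if it is dense or if the conditions are polynomial. -/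
theorem mixed_diffs {V : Type} [Fintype V] (H : SimpleGraph V) (hne : H.edgeSet.Nonempty)
    (he : Even H.edgeSet.ncard) (m d r w : ℕ) (hm : 0 < m) (A : Type) [AddCommGroup A] [Finite A]
    (δ : ℝ) (hδ : 0 < δ) :
    ∃ N L : ℕ, 0 < L ∧ ∀ n, N ≤ n → ∀ P : Fin r → MvPolynomial (Sym2 (Fin n)) (ZMod m),
      (∀ i, (P i).totalDegree ≤ d) →
      ∀ Q : Set (Set (SimpleGraph (Fin n))), (∀ C ∈ Q, MixedCond P A w C) →
      ∀ D : Finset (SimpleGraph (Fin n)), (∀ G, G ∈ D ↔ ∀ C ∈ Q, G ∈ C) →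
      ((∀ C ∈ Q, PolyCond P C) ∨ δ * 2 ^ (n.choose 2) ≤ D.card) →
      D.card * Nat.card (V ↪ Fin n) ≤ L * (diffs H D).ncard := by
  classical
  have : NeZero m := ⟨hm.ne'⟩
  set Γ := (Fin r → ZMod m) with hΓ
  have hΓpos : (0 : ℝ) < Fintype.card Γ := by exact_mod_cast Fintype.card_pos
  obtain ⟨N, L, hL, h⟩ := dense_diffs H hne he m d r w hm A (δ / (2 * Fintype.card Γ))
    (by positivity)
  refine ⟨N, 2 * L, by omega, fun n hn P hP Q hQ D hD hdense => ?_⟩
  by_cases hpoly : ∀ C ∈ Q, PolyCond P C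
  · have h1 := h n hn P hP D (fun G G' hGG hG => by
      rw [hD] at hG ⊢
      exact fun C hC => hpoly C hC G G' hGG (hG C hC)) ∅
      (fun C hC => absurd hC (Set.notMem_empty C)) D
      (fun G => ⟨fun hG => ⟨hG, fun C hC => absurd hC (Set.notMem_empty C)⟩, fun hG => hG.1⟩)
      (Or.inl rfl)
    exact h1.trans (Nat.mul_le_mul_right _ (by omega))
  have hdense' : δ * 2 ^ (n.choose 2) ≤ D.card := by
    rcases hdense with h1 | h1
    · exact absurd h1 hpoly
    · exact h1
  set val : SimpleGraph (Fin n) → Γ := fun G i => MvPolynomial.eval (ind (ZMod m) G) (P i)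
    with hval
  have hsame : ∀ G G', SameVal P G G' ↔ val G = val G' := fun G G' =>
    ⟨fun h => funext h, fun h i => congrFun h i⟩
  choose! φ T hT hdep using hQ
  -- the conditions on one fibre
  set Cv : Γ → Set (SimpleGraph (Fin n)) → Set (SimpleGraph (Fin n)) := fun v C =>
    {G | ∃ G' ∈ C, val G' = v ∧ (∀ e ∈ T C, (e ∈ G'.edgeSet ↔ e ∈ G.edgeSet)) ∧
      form (φ C) G' = form (φ C) G} with hCv
  have hCv1 : ∀ v, ∀ C ∈ Q, SimpleCond A w (Cv v C) := by
    intro v C hC
    refine ⟨φ C, T C, hT C hC, ?_⟩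
    rintro G G' h1 h2 ⟨G₁, hG₁, h3, h4, h5⟩
    exact ⟨G₁, hG₁, h3, fun e he => (h4 e he).trans (h1 e he), h5.trans h2⟩
  have hCv2 : ∀ G, ∀ C ∈ Q, (G ∈ Cv (val G) C ↔ G ∈ C) := by
    intro G C hC
    constructor
    · rintro ⟨G₁, hG₁, h3, h4, h5⟩
      exact hdep C hC G₁ G ((hsame _ _).2 h3) h4 h5 hG₁
    · intro hG
      exact ⟨G, hG, rfl, fun e _ => Iff.rfl, rfl⟩
  set Dv : Γ → Finset (SimpleGraph (Fin n)) := fun v => D.filter fun G => val G = v with hDv
  have hgood : ∀ v, δ / (2 * Fintype.card Γ) * 2 ^ (n.choose 2) ≤ (Dv v).card →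
      (Dv v).card * Nat.card (V ↪ Fin n) ≤ L * (diffs H (Dv v)).ncard := by
    intro v hv
    refine h n hn P hP (univ.filter fun G => val G = v) ?_ (Cv v '' Q) ?_ (Dv v) ?_ (Or.inr hv)
    · intro G G' hGG hG
      rw [Finset.mem_filter] at hG ⊢
      exact ⟨Finset.mem_univ _, ((hsame G G').1 hGG).symm.trans hG.2⟩
    · rintro _ ⟨C, hC, rfl⟩
      exact hCv1 v C hC
    · intro G
      rw [hDv, Finset.mem_filter, Finset.mem_filter, hD]
      constructor
      · rintro ⟨h1, h2⟩
        refine ⟨⟨Finset.mem_univ _, h2⟩, ?_⟩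
        rintro _ ⟨C, hC, rfl⟩
        rw [← h2]
        exact (hCv2 G C hC).2 (h1 C hC)
      · rintro ⟨⟨_, h2⟩, h1⟩
        refine ⟨fun C hC => ?_, h2⟩
        have h3 := h1 _ ⟨C, hC, rfl⟩
        rw [← h2] at h3
        exact (hCv2 G C hC).1 h3
  -- the good fibres contain half of `D`
  set good : Finset Γ := univ.filter fun v =>
    δ / (2 * Fintype.card Γ) * 2 ^ (n.choose 2) ≤ ((Dv v).card : ℝ) with hgooddef
  have hsum : D.card = ∑ v, (Dv v).card :=
    Finset.card_eq_sum_card_fiberwise fun x _ => Finset.mem_coe.2 (Finset.mem_univ _)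
  have hbad : ∑ v ∈ goodᶜ, ((Dv v).card : ℝ) ≤ D.card / 2 := by
    have h1 : ∀ v ∈ goodᶜ, ((Dv v).card : ℝ) ≤ δ / (2 * Fintype.card Γ) * 2 ^ (n.choose 2) := by
      intro v hv
      rw [Finset.mem_compl, hgooddef, Finset.mem_filter] at hv
      push Not at hv
      exact (hv (Finset.mem_univ _)).le
    refine (Finset.sum_le_sum h1).trans ?_
    rw [Finset.sum_const, nsmul_eq_mul]
    have h2 : ((goodᶜ).card : ℝ) ≤ Fintype.card Γ := by exact_mod_cast Finset.card_le_univ _
    calc ((goodᶜ).card : ℝ) * (δ / (2 * Fintype.card Γ) * 2 ^ (n.choose 2)) ≤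
        Fintype.card Γ * (δ / (2 * Fintype.card Γ) * 2 ^ (n.choose 2)) :=
          mul_le_mul_of_nonneg_right h2 (by positivity)
      _ = δ * 2 ^ (n.choose 2) / 2 := by
          field_simp
      _ ≤ _ := by linarith
  have hhalf : D.card ≤ 2 * ∑ v ∈ good, (Dv v).card := by
    have h1 : (D.card : ℝ) = ∑ v ∈ good, ((Dv v).card : ℝ) + ∑ v ∈ goodᶜ, ((Dv v).card : ℝ) := by
      rw [Finset.sum_add_sum_compl, hsum]
      push_cast
      rfl
    have h2 : (D.card : ℝ) ≤ 2 * ∑ v ∈ good, ((Dv v).card : ℝ) := by linarith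
    exact_mod_cast h2
  have hdiffs : ∑ v ∈ good, (diffs H (Dv v)).ncard ≤ (diffs H D).ncard := by
    have hfin : (diffs H D).Finite := Set.toFinite _
    rw [Set.ncard_eq_toFinset_card _ hfin,
      Finset.card_eq_sum_card_fiberwise (f := fun p => val p.1) (t := univ)
        fun x _ => Finset.mem_coe.2 (Finset.mem_univ _)]
    refine (Finset.sum_le_sum_of_subset (Finset.subset_univ good)).trans ?_
    refine Finset.sum_le_sum fun v _ => ?_
    rw [Set.ncard_eq_toFinset_card']
    refine Finset.card_le_card fun p hp => ?_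
    rw [Set.mem_toFinset] at hp
    rw [Finset.mem_filter, Set.Finite.mem_toFinset]
    exact ⟨diffs_mono H (Finset.filter_subset _ _) hp, (Finset.mem_filter.1 hp.1).2⟩
  calc D.card * Nat.card (V ↪ Fin n) ≤ 2 * (∑ v ∈ good, (Dv v).card) * Nat.card (V ↪ Fin n) :=
        Nat.mul_le_mul_right _ hhalf
    _ = 2 * ∑ v ∈ good, (Dv v).card * Nat.card (V ↪ Fin n) := by
        rw [mul_assoc, Finset.sum_mul]
    _ ≤ 2 * ∑ v ∈ good, L * (diffs H (Dv v)).ncard := by
        refine Nat.mul_le_mul_left _ (Finset.sum_le_sum fun v hv => hgood v ?_)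
        exact (Finset.mem_filter.1 hv).2
    _ = 2 * L * ∑ v ∈ good, (diffs H (Dv v)).ncard := by
        rw [← Finset.mul_sum, mul_assoc]
    _ ≤ 2 * L * (diffs H D).ncard := Nat.mul_le_mul_left _ hdiffs

end Mixed

end Pool.Agent.Lib.MP_2d96d7_co.Poly
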