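import Mathlib

set_option autoImplicit false

/-!
Polynomial graph-codes: Ramsey's theorem and homogeneous functions of edge sets.
-/

namespace Pool.Agent.Lib.MP_2d96d7_co.Poly

open Filter

theorem ulim {C : Type*} [Finite C] {ι : Type*} (𝒰 : Ultrafilter ι) (ψ : ι → C) :
    ∃ c, ∀ᶠ n in (𝒰 : Filter ι), ψ n = c :=
  (Ultrafilter.eventually_exists_iff).1 (Filter.Eventually.of_forall fun n => ⟨ψ n, rfl⟩)

theorem ramsey_inf {C : Type*} [Finite C] (χ : Finset ℕ → C) (m : ℕ) :
    ∃ S : Finset ℕ, S.card = m ∧ ∀ K K' : Finset ℕ, K ⊆ S → K' ⊆ S → K.card = K'.card →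
      χ K = χ K' := by
  classical
  choose lim hlim using fun ψ : ℕ → C => ulim (hyperfilter ℕ) ψ
  let φ : ℕ → Finset ℕ → C := fun d =>
    Nat.rec χ (fun _ ψ K => lim (fun n => ψ (insert n K))) d
  have hφ : ∀ d K, ∀ᶠ n in ((hyperfilter ℕ : Ultrafilter ℕ) : Filter ℕ),
      φ d (insert n K) = φ (d + 1) K := fun d K => hlim _
  have key : ∀ j, ∃ S : Finset ℕ, S.card = j ∧ ∀ K : Finset ℕ, K ⊆ S → ∀ d, d + K.card ≤ m →
      φ d K = φ (d + K.card) ∅ := by
    intro j
    induction j with
    | zero =>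
      refine ⟨∅, rfl, fun K hK d _ => ?_⟩
      rw [Finset.subset_empty.1 hK]
      rfl
    | succ j ih =>
      obtain ⟨S, hS, hS'⟩ := ih
      have h1 : ∀ᶠ n in ((hyperfilter ℕ : Ultrafilter ℕ) : Filter ℕ), n ∉ S := by
        have : ((S : Set ℕ)ᶜ) ∈ hyperfilter ℕ :=
          compl_mem_hyperfilter_of_finite S.finite_toSet
        exact this
      have h2 : ∀ᶠ n in ((hyperfilter ℕ : Ultrafilter ℕ) : Filter ℕ), ∀ K ∈ S.powerset,
          ∀ d ∈ Finset.range (m + 1), φ d (insert n K) = φ (d + 1) K := by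
        rw [Filter.eventually_all_finset]
        intro K _
        rw [Filter.eventually_all_finset]
        intro d _
        exact hφ d K
      obtain ⟨n, hn1, hn2⟩ := (h1.and h2).exists
      refine ⟨insert n S, by rw [Finset.card_insert_of_notMem hn1, hS], ?_⟩
      intro K hK d hd
      by_cases hnK : n ∈ K
      · have hK' : K.erase n ⊆ S := by
          intro x hx
          rw [Finset.mem_erase] at hx
          exact (Finset.mem_insert.1 (hK hx.2)).resolve_left hx.1
        have hcard : (K.erase n).card + 1 = K.card := Finset.card_erase_add_one hnK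
        have e1 := hn2 (K.erase n) (Finset.mem_powerset.2 hK') d (Finset.mem_range.2 (by omega))
        rw [Finset.insert_erase hnK] at e1
        rw [e1, hS' _ hK' (d + 1) (by omega)]
        congr 1
        omega
      · exact hS' K (fun x hx => (Finset.mem_insert.1 (hK hx)).resolve_left
          (fun h => hnK (h ▸ hx))) d hd
  obtain ⟨S, hS, hS'⟩ := key m
  refine ⟨S, hS, fun K K' hK hK' hc => ?_⟩
  have a1 := hS' K hK 0 (by have := Finset.card_le_card hK; omega)
  have a2 := hS' K' hK' 0 (by have := Finset.card_le_card hK'; omega)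
  have b1 : χ K = φ 0 K := rfl
  have b2 : χ K' = φ 0 K' := rfl
  rw [b1, b2, a1, a2, hc]

/-- The finite form of Ramsey's theorem. -/
theorem ramsey_fin (C : Type*) [Finite C] (m : ℕ) :
    ∃ R : ℕ, ∀ χ : Finset ℕ → C, ∃ S : Finset ℕ, S ⊆ Finset.range R ∧ S.card = m ∧
      ∀ K K' : Finset ℕ, K ⊆ S → K' ⊆ S → K.card = K'.card → χ K = χ K' := by
  classical
  by_contra hcon
  push Not at hcon
  choose χ hχ using hcon
  choose lim hlim using fun K : Finset ℕ => ulim (hyperfilter ℕ) (fun R => χ R K)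
  obtain ⟨S, hS, hS'⟩ := ramsey_inf lim m
  have h1 : ∀ᶠ R in ((hyperfilter ℕ : Ultrafilter ℕ) : Filter ℕ), ∀ K ∈ S.powerset,
      χ R K = lim K := by
    rw [Filter.eventually_all_finset]
    intro K _
    exact hlim K
  have h2 : ∀ᶠ R in ((hyperfilter ℕ : Ultrafilter ℕ) : Filter ℕ), S.sup id + 1 ≤ R :=
    Nat.hyperfilter_le_atTop (eventually_ge_atTop _)
  obtain ⟨R, hR1, hR2⟩ := (h1.and h2).exists
  obtain ⟨K, K', hK, hK', hc, hne⟩ := hχ R S (by
    intro x hx
    rw [Finset.mem_range]
    have : x ≤ S.sup id := Finset.le_sup (f := id) hx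
    omega) hS
  apply hne
  rw [hR1 K (Finset.mem_powerset.2 hK), hR1 K' (Finset.mem_powerset.2 hK')]
  exact hS' K K' hK hK' hc

/-- The vertices touched by a set of edges. -/
def VS {V : Type*} (F : Finset (Sym2 V)) : Set V := {v | ∃ z ∈ F, v ∈ z}

/-- The function `c` of sets of at most `d` edges inside `{0, ..., M - 1}` depends only on the
order type. -/
def Homog {A : Type*} (M d : ℕ) (c : Finset (Sym2 ℕ) → A) : Prop :=
  ∀ F : Finset (Sym2 ℕ), (∀ v ∈ VS F, v < M) → F.card ≤ d → ∀ g : ℕ → ℕ, StrictMonoOn g (VS F) →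
    (∀ v ∈ VS F, g v < M) → c (F.image (Sym2.map g)) = c F

lemma image_map_congr {V W : Type*} [DecidableEq V] [DecidableEq W] {F : Finset (Sym2 V)}
    {f g : V → W} (h : ∀ v ∈ VS F, f v = g v) :
    F.image (Sym2.map f) = F.image (Sym2.map g) := by
  refine Finset.image_congr fun z hz => ?_
  exact Sym2.map_congr fun v hv => h v ⟨z, hz, hv⟩

lemma image_map_map {U V W : Type*} [DecidableEq U] [DecidableEq V] [DecidableEq W]
    (F : Finset (Sym2 U)) (f : U → V) (g : V → W) :
    (F.image (Sym2.map f)).image (Sym2.map g) = F.image (Sym2.map (g ∘ f)) := by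
  rw [Finset.image_image]
  refine Finset.image_congr fun z _ => ?_
  simp [Sym2.map_map]

/-- the vertex set as a finite set -/
def VF (F : Finset (Sym2 ℕ)) : Finset ℕ := F.biUnion fun z => z.toFinset

lemma mem_VF {F : Finset (Sym2 ℕ)} {v : ℕ} : v ∈ VF F ↔ v ∈ VS F := by
  simp [VF, VS]

lemma VF_card (F : Finset (Sym2 ℕ)) : (VF F).card ≤ 2 * F.card := by
  unfold VF
  refine Finset.card_biUnion_le.trans ?_
  refine (Finset.sum_le_card_nsmul _ _ 2 fun z _ => ?_).trans (by rw [smul_eq_mul, mul_comm])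
  rw [Sym2.card_toFinset]
  split_ifs <;> omega

/-- Every function of edge sets is homogeneous on a large subset. -/
theorem exists_homog (A : Type) [Finite A] [Nonempty A] (M d : ℕ) : ∃ R : ℕ,
    ∀ c : Finset (Sym2 ℕ) → A, ∃ e : ℕ → ℕ, StrictMonoOn e (Set.Iio M) ∧ (∀ v < M, e v < R) ∧
      Homog M d (fun F => c (F.image (Sym2.map e))) := by
  classical
  set D : ℕ := 2 * d + 1 with hD
  obtain ⟨R, hR⟩ := ramsey_fin (Finset (Sym2 (Fin D)) → A) (M + D)
  refine ⟨R, fun c => ?_⟩
  obtain ⟨S, hSR, hS, hmono⟩ := hR fun K => if h : K.card = D then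
    (fun J => c (J.image (Sym2.map (K.orderEmbOfFin h)))) else fun _ => Classical.arbitrary A
  set s : Fin (M + D) ↪o ℕ := S.orderEmbOfFin hS with hs
  have hsS : ∀ i, s i ∈ S := fun i => Finset.orderEmbOfFin_mem S hS i
  set e : ℕ → ℕ := fun v => if h : v < M then s ⟨v, by omega⟩ else 0 with he
  have hev : ∀ v (h : v < M), e v = s ⟨v, by omega⟩ := fun v h => by simp [he, h]
  have hemono : StrictMonoOn e (Set.Iio M) := by
    intro a ha b hb hab
    rw [hev a ha, hev b hb]
    exact s.strictMono hab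
  refine ⟨e, hemono, fun v hv => ?_, ?_⟩
  · rw [hev v hv]
    exact Finset.mem_range.1 (hSR (hsS _))
  · intro F hF hFd g hg hgM
    set W := VF F with hW
    have hWm : ∀ v ∈ W, v ∈ VS F := fun v hv => mem_VF.1 hv
    set w := W.card with hw
    have hwD : w ≤ 2 * d := (VF_card F).trans (by omega)
    set ω : Fin w ↪o ℕ := W.orderEmbOfFin rfl with hω
    have hωW : ∀ i, ω i ∈ W := fun i => Finset.orderEmbOfFin_mem W rfl i
    -- the embedding attached to a change of names
    have main : ∀ g : ℕ → ℕ, StrictMonoOn g (VS F) → (∀ v ∈ VS F, g v < M) →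
        ∃ κ : Fin D → ℕ, StrictMono κ ∧ (∀ i, κ i ∈ S) ∧
          ∀ v (hv : v ∈ W), κ ⟨((W.orderIsoOfFin rfl).symm ⟨v, hv⟩ : Fin w), by
            have := ((W.orderIsoOfFin rfl).symm ⟨v, hv⟩ : Fin w).2; omega⟩ = e (g v) := by
      intro g hg hgM
      refine ⟨fun i => if h : (i : ℕ) < w then e (g (ω ⟨i, h⟩)) else
        s ⟨M + i, by have := i.2; omega⟩, ?_, ?_, ?_⟩
      · intro i j hij
        have hij' : (i : ℕ) < j := hij
        by_cases hj : (j : ℕ) < w
        · have hi : (i : ℕ) < w := by omega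
          simp only [hi, hj, dif_pos]
          have h1 : g (ω ⟨i, hi⟩) < g (ω ⟨j, hj⟩) :=
            hg (hWm _ (hωW _)) (hWm _ (hωW _)) (ω.strictMono hij')
          exact hemono (hgM _ (hWm _ (hωW _))) (hgM _ (hWm _ (hωW _))) h1
        · simp only [hj, dif_neg, not_false_eq_true]
          by_cases hi : (i : ℕ) < w
          · simp only [hi, dif_pos]
            have h1 := hgM _ (hWm _ (hωW ⟨i, hi⟩))
            rw [hev _ h1]
            refine s.strictMono ?_
            show g _ < M + j
            omega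
          · simp only [hi, dif_neg, not_false_eq_true]
            refine s.strictMono ?_
            show M + (i : ℕ) < M + j
            omega
      · intro i
        by_cases hi : (i : ℕ) < w
        · simp only [hi, dif_pos]
          rw [hev _ (hgM _ (hWm _ (hωW ⟨i, hi⟩)))]
          exact hsS _
        · simp only [hi, dif_neg, not_false_eq_true]
          exact hsS _
      · intro v hv
        have h1 : ((W.orderIsoOfFin rfl).symm ⟨v, hv⟩ : Fin w).1 < w :=
          ((W.orderIsoOfFin rfl).symm ⟨v, hv⟩ : Fin w).2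
        simp only [h1, dif_pos]
        congr 2
        have h2 : ω ((W.orderIsoOfFin rfl).symm ⟨v, hv⟩) = v := by
          rw [hω, ← Finset.coe_orderIsoOfFin_apply]
          simp
        exact h2
    obtain ⟨κ, hκ1, hκ2, hκ3⟩ := main g hg hgM
    obtain ⟨κ', hκ1', hκ2', hκ3'⟩ := main id (fun a _ b _ h => h) hF
    set ρ : ℕ → Fin D := fun v => if hv : v ∈ W then
      ⟨((W.orderIsoOfFin rfl).symm ⟨v, hv⟩ : Fin w), by
        have := ((W.orderIsoOfFin rfl).symm ⟨v, hv⟩ : Fin w).2; omega⟩ else ⟨0, by omega⟩ with hρ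
    have hρ1 : ∀ v ∈ VS F, κ (ρ v) = e (g v) := by
      intro v hv
      have hv' : v ∈ W := mem_VF.2 hv
      rw [← hκ3 v hv']
      simp [hρ, hv']
    have hρ2 : ∀ v ∈ VS F, κ' (ρ v) = e v := by
      intro v hv
      have hv' : v ∈ W := mem_VF.2 hv
      have := hκ3' v hv'
      simp only [id] at this
      rw [← this]
      simp [hρ, hv']
    set J : Finset (Sym2 (Fin D)) := F.image (Sym2.map ρ) with hJ
    have hJ1 : J.image (Sym2.map κ) = F.image (Sym2.map (e ∘ g)) := by
      rw [hJ, image_map_map]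
      exact image_map_congr fun v hv => hρ1 v hv
    have hJ2 : J.image (Sym2.map κ') = F.image (Sym2.map e) := by
      rw [hJ, image_map_map]
      exact image_map_congr fun v hv => hρ2 v hv
    have hchi : ∀ κ : Fin D → ℕ, StrictMono κ → ∀ hc : (Finset.univ.image κ).card = D,
        ((Finset.univ.image κ).orderEmbOfFin hc : Fin D → ℕ) = κ := by
      intro κ hκ hc
      exact (Finset.orderEmbOfFin_unique hc (fun x => Finset.mem_image_of_mem _ (Finset.mem_univ _))
        hκ).symm
    have hcard : ∀ κ : Fin D → ℕ, StrictMono κ → (Finset.univ.image κ).card = D := by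
      intro κ hκ
      rw [Finset.card_image_of_injective _ hκ.injective, Finset.card_univ, Fintype.card_fin]
    have h3 := hmono (Finset.univ.image κ) (Finset.univ.image κ')
      (by intro x hx; obtain ⟨i, _, rfl⟩ := Finset.mem_image.1 hx; exact hκ2 i)
      (by intro x hx; obtain ⟨i, _, rfl⟩ := Finset.mem_image.1 hx; exact hκ2' i)
      (by rw [hcard κ hκ1, hcard κ' hκ1'])
    rw [dif_pos (hcard κ hκ1), dif_pos (hcard κ' hκ1')] at h3
    have h4 := congrFun h3 J
    simp only [hchi κ hκ1 (hcard κ hκ1), hchi κ' hκ1' (hcard κ' hκ1')] at h4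
    rw [hJ1, hJ2] at h4
    show c ((F.image (Sym2.map g)).image (Sym2.map e)) = c (F.image (Sym2.map e))
    rw [image_map_map]
    exact h4

end Pool.Agent.Lib.MP_2d96d7_co.Poly
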